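import Pool.Agent.Helper89.MD.Defs

set_option autoImplicit false

open scoped commutatorElement

namespace Pool.Agent.Helper89.MD

theorem CENT {G : Type} [Group G] [Finite G] {p : ℕ} [Fact p.Prime] (hp : IsPGroup p G) (g : G)
    (hg : g ≠ 1) : ∃ z : G, z ≠ 1 ∧ z ^ p = 1 ∧ (∀ x, x * z = z * x) ∧
      z ∈ Subgroup.normalClosure {g} := by
  let N := Subgroup.normalClosure ({g} : Set G)
  have hN : N.Normal := Subgroup.normalClosure_normal
  let _ : MulAction G N := MulAction.compHom N (MulAut.conjNormal : G →* MulAut N)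
  have hgN : g ∈ N := Subgroup.subset_normalClosure rfl
  have hNp : IsPGroup p N := hp.to_subgroup N
  have hnt : Nontrivial N := ⟨⟨⟨g, hgN⟩, 1, fun h => hg (congrArg Subtype.val h)⟩⟩
  have hdvd : p ∣ Nat.card N := by
    obtain ⟨n, hn, hn'⟩ := hNp.nontrivial_iff_card.mp hnt
    rw [hn']
    exact dvd_pow_self p (by omega)
  have hsm : ∀ (x : G) (n : N), ((x • n : N) : G) = x * n * x⁻¹ := fun x n => rfl
  have h1 : (1 : N) ∈ MulAction.fixedPoints G N := by
    intro x
    apply Subtype.ext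
    rw [hsm]
    simp
  obtain ⟨b, hb, hb1⟩ := hp.exists_fixed_point_of_prime_dvd_card_of_fixed_point N hdvd h1
  have hbc : ∀ x : G, x * (b : G) = b * x := by
    intro x
    have h2 := congrArg Subtype.val (hb x)
    rw [hsm] at h2
    rw [mul_inv_eq_iff_eq_mul] at h2
    exact h2
  have hbne : (b : G) ≠ 1 := fun h => hb1 (Subtype.ext h.symm)
  obtain ⟨k, hk⟩ := IsPGroup.iff_orderOf.mp hp (b : G)
  have hk0 : k ≠ 0 := by
    rintro rfl
    rw [pow_zero, orderOf_eq_one_iff] at hk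
    exact hbne hk
  obtain ⟨j, rfl⟩ := Nat.exists_eq_succ_of_ne_zero hk0
  refine ⟨(b : G) ^ (p ^ j), ?_, ?_, ?_, N.pow_mem b.2 _⟩
  · intro h
    have h2 := orderOf_dvd_of_pow_eq_one h
    rw [hk] at h2
    have h3 := (Nat.pow_dvd_pow_iff_le_right (Fact.out : p.Prime).one_lt).mp h2
    omega
  · rw [← pow_mul, ← pow_succ, ← Nat.succ_eq_add_one, ← hk, pow_orderOf_eq_one]
  · intro x
    have : Commute x ((b : G) ^ (p ^ j)) := Commute.pow_right (hbc x) _
    exact this

end Pool.Agent.Helper89.MD
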