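import Pool.Agent.Helper89.MD.Defs

set_option autoImplicit false

open scoped commutatorElement

namespace Pool.Agent.Helper89.MD

theorem SEP_comm {C : Type} [CommGroup C] [Finite C] {p : ℕ} [Fact p.Prime] (hp : IsPGroup p C)
    (Z : Finset C) (hZ : ∀ z ∈ Z, z ≠ 1)
    (hcard : Z.card ≤ p) : ∃ μ : C →* ℂˣ, ∀ z ∈ Z, μ z ≠ 1 := by
  classical
  have h0 : Monoid.exponent C ≠ 0 := Monoid.exponent_ne_zero_of_finite
  have : NeZero ((Monoid.exponent C : ℕ) : ℂ) := ⟨by exact_mod_cast h0⟩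
  have : HasEnoughRootsOfUnity ℂ (Monoid.exponent C) := inferInstance
  obtain ⟨eqv⟩ := CommGroup.monoidHom_mulEquiv_of_hasEnoughRootsOfUnity C ℂ
  have hfin : Finite (C →* ℂˣ) := Finite.of_equiv C eqv.symm.toEquiv
  have hft : Fintype (C →* ℂˣ) := Fintype.ofFinite _
  have hpD : IsPGroup p (C →* ℂˣ) := hp.of_equiv eqv.symm
  by_contra hcon
  push Not at hcon
  have hp1 : 1 < p := (Fact.out : p.Prime).one_lt
  let K : C → Finset (C →* ℂˣ) := fun z => Finset.univ.filter (fun μ => μ z = 1 ∧ μ ≠ 1)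
  have hcover : (Finset.univ.erase (1 : C →* ℂˣ)) ⊆ Z.biUnion K := by
    intro μ hμ
    obtain ⟨z, hz, hz1⟩ := hcon μ
    rw [Finset.mem_biUnion]
    exact ⟨z, hz, Finset.mem_filter.mpr ⟨Finset.mem_univ _, hz1, Finset.ne_of_mem_erase hμ⟩⟩
  have hK : ∀ z ∈ Z, p * ((K z).card + 1) ≤ Fintype.card (C →* ℂˣ) := by
    intro z hz
    let E : Subgroup (C →* ℂˣ) :=
      { carrier := {μ | μ z = 1}
        one_mem' := rfl
        mul_mem' := by
          intro a b ha hb
          have ha : a z = 1 := ha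
          have hb : b z = 1 := hb
          change (a * b) z = 1
          rw [MonoidHom.mul_apply, ha, hb, one_mul]
        inv_mem' := by
          intro a ha
          have ha : a z = 1 := ha
          change a⁻¹ z = 1
          rw [MonoidHom.inv_apply, ha, inv_one] }
    have hEm : ∀ μ, μ ∈ E ↔ μ z = 1 := fun μ => Iff.rfl
    have hcE : Nat.card E = (K z).card + 1 := by
      have h2 : (Finset.univ.filter (fun μ : C →* ℂˣ => μ z = 1)) = insert 1 (K z) := by
        ext μ
        simp only [Finset.mem_filter, Finset.mem_univ, true_and, Finset.mem_insert, K]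
        constructor
        · intro h
          by_cases h1 : μ = 1
          · exact Or.inl h1
          · exact Or.inr ⟨h, h1⟩
        · rintro (h | h)
          · rw [h]; rfl
          · exact h.1
      have h3 : (1 : C →* ℂˣ) ∉ K z := by simp [K]
      rw [← Finset.card_insert_of_notMem h3, ← h2]
      have h4 : Nat.card E = Nat.card {μ : C →* ℂˣ // μ z = 1} := rfl
      rw [h4, Nat.card_eq_fintype_card]
      exact Fintype.card_subtype (fun μ : C →* ℂˣ => μ z = 1)
    have hEne : E ≠ ⊤ := by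
      obtain ⟨φ, hφ⟩ := CommGroup.exists_apply_ne_one_of_hasEnoughRootsOfUnity C ℂ (hZ z hz)
      intro h
      apply hφ
      have : φ ∈ E := h ▸ Subgroup.mem_top φ
      exact this
    obtain ⟨m, hm⟩ := hpD.index E
    have hm0 : m ≠ 0 := by
      rintro rfl
      rw [pow_zero, Subgroup.index_eq_one] at hm
      exact hEne hm
    have h4 := E.card_mul_index
    rw [hcE, hm, Nat.card_eq_fintype_card] at h4
    rw [← h4, mul_comm]
    apply Nat.mul_le_mul_left
    calc p = p ^ 1 := (pow_one p).symm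
      _ ≤ p ^ m := Nat.pow_le_pow_right (by omega) (by omega)
  rcases Z.eq_empty_or_nonempty with hZe | ⟨z0, hz0⟩
  · obtain ⟨z, hz, -⟩ := hcon 1
    rw [hZe] at hz
    exact absurd hz (Finset.notMem_empty z)
  have h5 := Finset.card_le_card hcover
  rw [Finset.card_erase_of_mem (Finset.mem_univ _), Finset.card_univ] at h5
  have h6 : (Z.biUnion K).card ≤ ∑ z ∈ Z, (K z).card := Finset.card_biUnion_le
  have h7 : ∑ z ∈ Z, p * ((K z).card + 1) ≤ Z.card * Fintype.card (C →* ℂˣ) := by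
    rw [← smul_eq_mul]
    exact Finset.sum_le_card_nsmul _ _ _ hK
  have h8 : ∑ z ∈ Z, p * ((K z).card + 1) = p * (∑ z ∈ Z, (K z).card + Z.card) := by
    rw [← Finset.mul_sum, Finset.sum_add_distrib]
    simp
  rw [h8] at h7
  have hZ1 : 1 ≤ Z.card := Finset.card_pos.mpr ⟨z0, hz0⟩
  have hD1 : 1 ≤ Fintype.card (C →* ℂˣ) := Fintype.card_pos
  set D := Fintype.card (C →* ℂˣ)
  have h9 : D - 1 ≤ ∑ z ∈ Z, (K z).card := h5.trans h6
  -- `p * (D - 1 + |Z|) ≤ |Z| * D ≤ ...`
  have h10 : p * (D - 1 + Z.card) ≤ Z.card * D := (Nat.mul_le_mul_left p (by omega)).trans h7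
  obtain ⟨d, hd⟩ : ∃ d, D = d + 1 := ⟨D - 1, by omega⟩
  rw [hd] at h10
  simp only [Nat.add_sub_cancel] at h10
  have h11 : Z.card * d ≤ p * d := Nat.mul_le_mul_right d hcard
  have h12 : 2 * Z.card ≤ p * Z.card := Nat.mul_le_mul_right _ hp1
  have h13 : p * (d + Z.card) = p * d + p * Z.card := by ring
  have h14 : Z.card * (d + 1) = Z.card * d + Z.card := by ring
  omega

theorem SEP {C : Type} [Group C] [Finite C] {p : ℕ} [Fact p.Prime] (hp : IsPGroup p C)
    (hcomm : ∀ x y : C, x * y = y * x) (Z : Finset C) (hZ : ∀ z ∈ Z, z ≠ 1)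
    (hcard : Z.card ≤ p) : ∃ μ : C →* ℂˣ, ∀ z ∈ Z, μ z ≠ 1 := by
  let _ : CommGroup C := { (inferInstance : Group C) with mul_comm := hcomm }
  exact SEP_comm hp Z hZ hcard

end Pool.Agent.Helper89.MD
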