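import Mathlib

set_option autoImplicit false

open scoped commutatorElement

namespace Pool.Agent.Helper89.MD

/-- The value of `ν` on the commutator of `x` and `y` (all commutators lie in `C`). -/
def cm {G : Type} [Group G] (C : Subgroup G) (hC : ∀ x y : G, ⁅x, y⁆ ∈ C) (ν : C →* ℂˣ)
    (x y : G) : ℂˣ := ν ⟨⁅x, y⁆, hC x y⟩

/-- `B` contains `C` and `ν` is trivial on the commutators of elements of `B`. -/
def isoQ {G : Type} [Group G] (C : Subgroup G) (hC : ∀ x y : G, ⁅x, y⁆ ∈ C) (ν : C →* ℂˣ)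
    (B : Subgroup G) : Prop := C ≤ B ∧ ∀ x ∈ B, ∀ y ∈ B, cm C hC ν x y = 1

/-- `B` is isotropic for the bimultiplicative map `b`. -/
def linQ {L : Type} [CommGroup L] (b : L →* L →* ℂˣ) (B : Subgroup L) : Prop :=
  ∀ x ∈ B, ∀ y ∈ B, b x y = 1

/-- The least `k` such that `H` has a subgroup `B` with `Q B` and `|H| ≤ p ^ k * |B|`. -/
noncomputable def mn {K : Type} [Group K] (p : ℕ) (Q : Subgroup K → Prop) (H : Subgroup K) : ℕ :=
  sInf {k | ∃ B : Subgroup K, Q B ∧ B ≤ H ∧ Nat.card H ≤ p ^ k * Nat.card B}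

/-- `C` has `Q`, and `Q` is inherited by `B ⊓ M` when `C ≤ M`. -/
structure Good {K : Type} [Group K] (C : Subgroup K) (Q : Subgroup K → Prop) : Prop where
  base : Q C
  inf : ∀ B M : Subgroup K, Q B → C ≤ M → Q (B ⊓ M)

/-- Irreducibility of a matrix representation: no invariant subspaces but `⊥` and `⊤`. -/
def Irred {G : Type} [Group G] {n : ℕ} (ρ : G →* Matrix.GeneralLinearGroup (Fin n) ℂ) : Prop :=
  ∀ W : Submodule ℂ (Fin n → ℂ), (∀ g : G, ∀ v ∈ W, Matrix.mulVec (ρ g).1 v ∈ W) → W = ⊥ ∨ W = ⊤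

/-- The symmetrised commutator pairing. -/
def DD {Y : Type} [Group Y] (C : Subgroup Y) (hC : ∀ x y : Y, ⁅x, y⁆ ∈ C) (ν : C →* ℂˣ)
    (x y : Y) : ℂˣ := cm C hC ν x y * cm C hC ν x⁻¹ y⁻¹

/-- The pairs in `T` are pairwise independent modulo `p`. -/
def Indep (p : ℕ) (T : Finset (ℤ × ℤ)) : Prop :=
  ∀ P ∈ T, ∀ Q ∈ T, P ≠ Q → ¬ (p : ℤ) ∣ P.1 * Q.2 - P.2 * Q.1

end Pool.Agent.Helper89.MD
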