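import Pool.Agent.Helper89.MD.Defs

set_option autoImplicit false

open scoped commutatorElement

namespace Pool.Agent.Helper89.MD

/-! ## Module CE: a common eigenvector of commuting matrices on an invariant subspace -/

theorem CE_aux {G : Type} [Group G] {n : ℕ} (σ : G →* Matrix.GeneralLinearGroup (Fin n) ℂ)
    (B : Subgroup G) (N : ℕ) : ∀ (W : Submodule ℂ (Fin n → ℂ)), Module.finrank ℂ W ≤ N → W ≠ ⊥ →
    (∀ b ∈ B, ∀ w ∈ W, Matrix.mulVec (σ b).1 w ∈ W) →
    (∀ x ∈ B, ∀ y ∈ B, ∀ w ∈ W,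
      Matrix.mulVec (σ x).1 (Matrix.mulVec (σ y).1 w) =
        Matrix.mulVec (σ y).1 (Matrix.mulVec (σ x).1 w)) →
    ∃ (w : Fin n → ℂ) (a : G → ℂ), w ∈ W ∧ w ≠ 0 ∧
      ∀ b ∈ B, Matrix.mulVec (σ b).1 w = a b • w := by
  induction N with
  | zero =>
    intro W hN hW
    exact absurd (Submodule.finrank_eq_zero.1 (Nat.le_zero.1 hN)) hW
  | succ N ih =>
    intro W hN hW hinv hcomm
    by_cases hsc : ∀ b ∈ B, ∃ a : ℂ, ∀ w ∈ W, Matrix.mulVec (σ b).1 w = a • w
    · classical
      obtain ⟨w, hw, hw0⟩ := Submodule.exists_mem_ne_zero_of_ne_bot hW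
      refine ⟨w, fun b => if h : b ∈ B then (hsc b h).choose else 0, hw, hw0, ?_⟩
      intro b hb
      show Matrix.mulVec (σ b).1 w = (if h : b ∈ B then (hsc b h).choose else 0) • w
      rw [dif_pos hb]
      exact (hsc b hb).choose_spec w hw
    · push Not at hsc
      obtain ⟨x, hx, hxs⟩ := hsc
      let T : Module.End ℂ W := LinearMap.restrict (Matrix.mulVecLin (σ x).1)
        (p := W) (q := W) (fun w hw => by simpa using hinv x hx w hw)
      have : Nontrivial W := Submodule.nontrivial_iff_ne_bot.2 hW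
      obtain ⟨a, ha⟩ := Module.End.exists_eigenvalue T
      obtain ⟨v, hv⟩ := ha.exists_hasEigenvector
      have hTv : Matrix.mulVec (σ x).1 (v : Fin n → ℂ) = a • (v : Fin n → ℂ) := by
        have h1 := hv.apply_eq_smul
        have h2 := congrArg (fun z : W => (z : Fin n → ℂ)) h1
        simpa [T] using h2
      let W' : Submodule ℂ (Fin n → ℂ) :=
        W ⊓ LinearMap.ker (Matrix.mulVecLin (σ x).1 - a • LinearMap.id)
      have hmem : ∀ w, w ∈ W' ↔ w ∈ W ∧ Matrix.mulVec (σ x).1 w = a • w := by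
        intro w
        simp only [W', Submodule.mem_inf, LinearMap.mem_ker, LinearMap.sub_apply,
          LinearMap.smul_apply, LinearMap.id_apply, Matrix.mulVecLin_apply, sub_eq_zero]
      have hW'0 : W' ≠ ⊥ := by
        intro h
        have : (v : Fin n → ℂ) ∈ W' := (hmem _).2 ⟨v.2, hTv⟩
        rw [h, Submodule.mem_bot] at this
        exact hv.2 (Subtype.ext this)
      have hlt : W' < W := by
        refine lt_of_le_of_ne inf_le_left ?_
        intro h
        obtain ⟨w, hw, hwa⟩ := hxs a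
        rw [← h] at hw
        exact hwa ((hmem w).1 hw).2
      have hfr : Module.finrank ℂ W' ≤ N := by
        have := Submodule.finrank_lt_finrank_of_lt hlt
        omega
      obtain ⟨w, b, hw, hw0, hb⟩ := ih W' hfr hW'0
        (fun b hb w hw => by
          rw [hmem] at hw ⊢
          refine ⟨hinv b hb w hw.1, ?_⟩
          rw [hcomm x hx b hb w hw.1, hw.2, Matrix.mulVec_smul])
        (fun y hy z hz w hw => hcomm y hy z hz w ((hmem w).1 hw).1)
      exact ⟨w, b, ((hmem w).1 hw).1, hw0, hb⟩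

theorem CE {G : Type} [Group G] {n : ℕ} (σ : G →* Matrix.GeneralLinearGroup (Fin n) ℂ)
    (B : Subgroup G) (W : Submodule ℂ (Fin n → ℂ)) (hW : W ≠ ⊥)
    (hinv : ∀ b ∈ B, ∀ w ∈ W, Matrix.mulVec (σ b).1 w ∈ W)
    (hcomm : ∀ x ∈ B, ∀ y ∈ B, ∀ w ∈ W,
      Matrix.mulVec (σ x).1 (Matrix.mulVec (σ y).1 w) =
        Matrix.mulVec (σ y).1 (Matrix.mulVec (σ x).1 w)) :
    ∃ (θ : B →* ℂˣ) (w : Fin n → ℂ), w ∈ W ∧ w ≠ 0 ∧
      ∀ b : B, Matrix.mulVec (σ b).1 w = ((θ b : ℂˣ) : ℂ) • w := by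
  obtain ⟨w, a, hw, hw0, ha⟩ := CE_aux σ B (Module.finrank ℂ W) W le_rfl hW hinv hcomm
  have hone : a 1 = 1 := by
    have h := ha 1 B.one_mem
    rw [map_one, Units.val_one, Matrix.one_mulVec] at h
    have h2 : (1 - a 1) • w = 0 := by rw [sub_smul, one_smul, ← h, sub_self]
    rcases smul_eq_zero.1 h2 with h3 | h3
    · exact (sub_eq_zero.1 h3).symm
    · exact absurd h3 hw0
  have hmul : ∀ b ∈ B, ∀ c ∈ B, a (b * c) = a b * a c := by
    intro b hb c hc
    have h := ha (b * c) (B.mul_mem hb hc)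
    rw [map_mul, Units.val_mul, ← Matrix.mulVec_mulVec, ha c hc, Matrix.mulVec_smul, ha b hb,
      smul_smul] at h
    have h2 : (a c * a b - a (b * c)) • w = 0 := by rw [sub_smul, h, sub_self]
    rcases smul_eq_zero.1 h2 with h3 | h3
    · rw [← sub_eq_zero.1 h3, mul_comm]
    · exact absurd h3 hw0
  have hinvr : ∀ b ∈ B, a b * a b⁻¹ = 1 := by
    intro b hb
    rw [← hmul b hb b⁻¹ (B.inv_mem hb), mul_inv_cancel, hone]
  refine ⟨{ toFun := fun b => ⟨a b, a (b : G)⁻¹, hinvr b b.2, by rw [mul_comm, hinvr b b.2]⟩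
            map_one' := by ext; simpa using hone
            map_mul' := fun b c => by ext; simpa using hmul b b.2 c c.2 }, w, hw, hw0, ?_⟩
  intro b
  simpa using ha b b.2

end Pool.Agent.Helper89.MD
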