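import Pool.Agent.Helper89.MD.EE

set_option autoImplicit false

open scoped commutatorElement

namespace Pool.Agent.Helper89.MD

theorem AL {K : Type} [Group K] [Finite K] {p : ℕ} [Fact p.Prime] (hp : IsPGroup p K)
    (C : Subgroup K) {ι : Type} (T : Finset ι) (Q0 : Subgroup K → Prop)
    (Q : ι → Subgroup K → Prop) (h0 : Good C Q0) (hQ : ∀ i ∈ T, Good C (Q i))
    (hcase : ∀ H : Subgroup K, C ≤ H →
      (∃ i ∈ T, mn p (Q i) H < mn p Q0 H) →
      (∀ i0 ∈ T, mn p (Q i0) H < mn p Q0 H → ∀ M : Subgroup K, C ≤ M → M ≤ H →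
        Nat.card H = p * Nat.card M →
        ∃ i ∈ T, i ≠ i0 ∧ mn p (Q i) H < mn p Q0 H ∧ mn p (Q i) M = mn p (Q i) H) →
      ∑ i ∈ T, (mn p Q0 H - mn p (Q i) H) ≤ mn p Q0 H) :
    ∀ H : Subgroup K, C ≤ H → ∑ i ∈ T, (mn p Q0 H - mn p (Q i) H) ≤ mn p Q0 H := by
  classical
  have hp1 : 1 < p := (Fact.out : p.Prime).one_lt
  intro H
  induction hn : Nat.card H using Nat.strong_induction_on generalizing H with
  | _ n ih =>
  intro hCH
  have hlt : ∀ M : Subgroup K, Nat.card H = p * Nat.card M → Nat.card M < n := by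
    intro M hM
    have h1 : 0 < Nat.card M := Nat.card_pos
    rw [← hn, hM]
    nlinarith
  by_cases hT : ∃ i ∈ T, mn p (Q i) H < mn p Q0 H
  swap
  · have : ∑ i ∈ T, (mn p Q0 H - mn p (Q i) H) = 0 := by
      apply Finset.sum_eq_zero
      intro i hi
      have : ¬ mn p (Q i) H < mn p Q0 H := fun h => hT ⟨i, hi, h⟩
      omega
    rw [this]
    exact Nat.zero_le _
  by_cases h1 : ∃ M : Subgroup K, C ≤ M ∧ M ≤ H ∧ Nat.card H = p * Nat.card M ∧
      mn p Q0 M = mn p Q0 H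
  · obtain ⟨M, hCM, hMH, hc, he⟩ := h1
    have h2 := ih _ (hlt M hc) M rfl hCM
    rw [he] at h2
    refine le_trans (Finset.sum_le_sum fun i hi => ?_) h2
    have := mn_mono hp C (Q i) (hQ i hi) M H hCM hMH
    omega
  by_cases h2 : ∃ i0 ∈ T, mn p (Q i0) H < mn p Q0 H ∧ ∃ M : Subgroup K, C ≤ M ∧ M ≤ H ∧
      Nat.card H = p * Nat.card M ∧ ∀ i ∈ T, i ≠ i0 → mn p (Q i) H < mn p Q0 H →
        mn p (Q i) M ≠ mn p (Q i) H
  · obtain ⟨i0, hi0, hi0lt, M, hCM, hMH, hc, hM⟩ := h2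
    have h3 := ih _ (hlt M hc) M rfl hCM
    have h4 : mn p Q0 M + 1 = mn p Q0 H := by
      have h5 := mn_mono hp C Q0 h0 M H hCM hMH
      have h6 := mn_succ hp C Q0 h0 M H hCM hMH hc
      have h7 : mn p Q0 M ≠ mn p Q0 H := fun h => h1 ⟨M, hCM, hMH, hc, h⟩
      omega
    have h8 : ∑ i ∈ T, (mn p Q0 H - mn p (Q i) H) ≤
        ∑ i ∈ T, ((mn p Q0 M - mn p (Q i) M) + if i = i0 then 1 else 0) := by
      refine Finset.sum_le_sum fun i hi => ?_
      have h5 := mn_mono hp C (Q i) (hQ i hi) M H hCM hMH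
      have h6 := mn_succ hp C (Q i) (hQ i hi) M H hCM hMH hc
      by_cases hii : i = i0
      · rw [if_pos hii]
        omega
      · rw [if_neg hii]
        by_cases hlt' : mn p (Q i) H < mn p Q0 H
        · have := hM i hi hii hlt'
          omega
        · omega
    rw [Finset.sum_add_distrib, Finset.sum_ite_eq' T i0, if_pos hi0] at h8
    omega
  · apply hcase H hCH hT
    intro i0 hi0 hi0lt M hCM hMH hc
    by_contra hcon
    exact h2 ⟨i0, hi0, hi0lt, M, hCM, hMH, hc, fun i hi hne hlt' heq =>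
      hcon ⟨i, hi, hne, hlt', heq⟩⟩

end Pool.Agent.Helper89.MD
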