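import Mathlib

set_option autoImplicit false

namespace Pool.Agent.Helper89.MD

/-- `u ^ m = 1` with `m` prime to `p` and `u` of `p`-power order. -/
theorem LIN_eq_one {p : ℕ} (hp : p.Prime) {A : Type} [CommGroup A] (u : A) (k : ℕ)
    (hk : u ^ p ^ k = 1) (m : ℤ) (hm : ¬ (p : ℤ) ∣ m) (h : u ^ m = 1) : u = 1 := by
  have h1 : orderOf u ∣ p ^ k := orderOf_dvd_of_pow_eq_one hk
  have h2 : (orderOf u : ℤ) ∣ m := orderOf_dvd_iff_zpow_eq_one.mpr h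
  obtain ⟨j, hj, hj2⟩ := (Nat.dvd_prime_pow hp).mp h1
  rcases Nat.eq_zero_or_pos j with h0 | h0
  · rw [h0, pow_zero] at hj2
    exact orderOf_eq_one_iff.mp hj2
  · exfalso
    apply hm
    refine dvd_trans ?_ h2
    rw [hj2]
    exact_mod_cast dvd_pow_self p (by omega)

/-- Two independent relations modulo `p`. -/
theorem LIN_two {p : ℕ} (hp : p.Prime) {A : Type} [CommGroup A] (u v : A) (k : ℕ)
    (hu : u ^ p ^ k = 1) (hv : v ^ p ^ k = 1) (P Q : ℤ × ℤ)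
    (hdet : ¬ (p : ℤ) ∣ P.1 * Q.2 - P.2 * Q.1)
    (h1 : u ^ P.1 * v ^ P.2 = 1) (h2 : u ^ Q.1 * v ^ Q.2 = 1) : u = 1 ∧ v = 1 := by
  constructor
  · apply LIN_eq_one hp u k hu _ hdet
    have h3 : (u ^ P.1 * v ^ P.2) ^ Q.2 * (u ^ Q.1 * v ^ Q.2) ^ (-P.2) = 1 := by
      rw [h1, h2, one_zpow, one_zpow, one_mul]
    rw [← h3, mul_zpow, mul_zpow, ← zpow_mul, ← zpow_mul, ← zpow_mul, ← zpow_mul]
    rw [show u ^ (P.1 * Q.2) * v ^ (P.2 * Q.2) * (u ^ (Q.1 * -P.2) * v ^ (Q.2 * -P.2)) =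
      (u ^ (P.1 * Q.2) * u ^ (Q.1 * -P.2)) * (v ^ (P.2 * Q.2) * v ^ (Q.2 * -P.2)) from
      mul_mul_mul_comm _ _ _ _, ← zpow_add, ← zpow_add]
    rw [show P.2 * Q.2 + Q.2 * -P.2 = 0 by ring, zpow_zero, mul_one]
    congr 1
    ring
  · apply LIN_eq_one hp v k hv _ hdet
    have h3 : (u ^ P.1 * v ^ P.2) ^ (-Q.1) * (u ^ Q.1 * v ^ Q.2) ^ (P.1) = 1 := by
      rw [h1, h2, one_zpow, one_zpow, one_mul]
    rw [← h3, mul_zpow, mul_zpow, ← zpow_mul, ← zpow_mul, ← zpow_mul, ← zpow_mul]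
    rw [show u ^ (P.1 * -Q.1) * v ^ (P.2 * -Q.1) * (u ^ (Q.1 * P.1) * v ^ (Q.2 * P.1)) =
      (u ^ (P.1 * -Q.1) * u ^ (Q.1 * P.1)) * (v ^ (P.2 * -Q.1) * v ^ (Q.2 * P.1)) from
      mul_mul_mul_comm _ _ _ _, ← zpow_add, ← zpow_add]
    rw [show P.1 * -Q.1 + Q.1 * P.1 = 0 by ring, zpow_zero, one_mul]
    congr 1
    ring

end Pool.Agent.Helper89.MD
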