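import Mathlib
import Pool.Agent.Helper89.MD.Defs

set_option autoImplicit false

open scoped commutatorElement

namespace Pool.Agent.Helper89.MD

/-- `ν` extended by `1` outside `C`. -/
noncomputable def CLI_nu {Y : Type} [Group Y] (C : Subgroup Y) (ν : C →* ℂˣ) (g : Y) : ℂˣ :=
  open Classical in if h : g ∈ C then ν ⟨g, h⟩ else 1

lemma CLI_nu_of_mem {Y : Type} [Group Y] (C : Subgroup Y) (ν : C →* ℂˣ) {g : Y} (h : g ∈ C) :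
    CLI_nu C ν g = ν ⟨g, h⟩ := by
  unfold CLI_nu
  rw [dif_pos h]

lemma CLI_cm {Y : Type} [Group Y] (C : Subgroup Y) (hC : ∀ x y : Y, ⁅x, y⁆ ∈ C) (ν : C →* ℂˣ)
    (x y : Y) : cm C hC ν x y = CLI_nu C ν ⁅x, y⁆ := by
  rw [CLI_nu_of_mem C ν (hC x y)]
  rfl

lemma CLI_nu_one {Y : Type} [Group Y] (C : Subgroup Y) (ν : C →* ℂˣ) :
    CLI_nu C ν 1 = 1 := by
  rw [CLI_nu_of_mem C ν C.one_mem]
  exact map_one ν

lemma CLI_nu_mul {Y : Type} [Group Y] (C : Subgroup Y) (ν : C →* ℂˣ) {a b : Y} (ha : a ∈ C)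
    (hb : b ∈ C) : CLI_nu C ν (a * b) = CLI_nu C ν a * CLI_nu C ν b := by
  rw [CLI_nu_of_mem C ν ha, CLI_nu_of_mem C ν hb, CLI_nu_of_mem C ν (C.mul_mem ha hb), ← map_mul]
  rfl

lemma CLI_nu_inv {Y : Type} [Group Y] (C : Subgroup Y) (ν : C →* ℂˣ) {a : Y} (ha : a ∈ C) :
    CLI_nu C ν a⁻¹ = (CLI_nu C ν a)⁻¹ := by
  rw [CLI_nu_of_mem C ν ha, CLI_nu_of_mem C ν (C.inv_mem ha), ← map_inv]
  rfl

/-- commutators of elements of `C` are killed. -/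
lemma CLI_nu_comm {Y : Type} [Group Y] (C : Subgroup Y) (ν : C →* ℂˣ) {a b : Y} (ha : a ∈ C)
    (hb : b ∈ C) : CLI_nu C ν ⁅a, b⁆ = 1 := by
  rw [commutatorElement_def, CLI_nu_mul C ν (C.mul_mem (C.mul_mem ha hb) (C.inv_mem ha))
    (C.inv_mem hb), CLI_nu_mul C ν (C.mul_mem ha hb) (C.inv_mem ha), CLI_nu_mul C ν ha hb,
    CLI_nu_inv C ν ha, CLI_nu_inv C ν hb, mul_comm (CLI_nu C ν a) (CLI_nu C ν b)]
  group

lemma CLI_nu_swap {Y : Type} [Group Y] (C : Subgroup Y) (hC : ∀ x y : Y, ⁅x, y⁆ ∈ C) (ν : C →* ℂˣ)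
    (x y : Y) : CLI_nu C ν ⁅y, x⁆ = (CLI_nu C ν ⁅x, y⁆)⁻¹ := by
  rw [← CLI_nu_inv C ν (hC x y), commutatorElement_inv]

lemma CLI_nu_self {Y : Type} [Group Y] (C : Subgroup Y) (ν : C →* ℂˣ)
    (x : Y) : CLI_nu C ν ⁅x, x⁆ = 1 := by
  rw [commutatorElement_self, CLI_nu_one]

theorem DD_swap {Y : Type} [Group Y] (C : Subgroup Y) (hC : ∀ x y : Y, ⁅x, y⁆ ∈ C) (ν : C →* ℂˣ)
    (x y : Y) : DD C hC ν y x = (DD C hC ν x y)⁻¹ := by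
  unfold DD
  rw [CLI_cm, CLI_cm, CLI_cm, CLI_cm, CLI_nu_swap C hC ν x y, CLI_nu_swap C hC ν x⁻¹ y⁻¹, mul_inv]

theorem DD_self {Y : Type} [Group Y] (C : Subgroup Y) (hC : ∀ x y : Y, ⁅x, y⁆ ∈ C) (ν : C →* ℂˣ)
    (x : Y) : DD C hC ν x x = 1 := by
  unfold DD
  rw [CLI_cm, CLI_cm, CLI_nu_self, CLI_nu_self, mul_one]

section

variable {Y : Type} [Group Y] (C : Subgroup Y) (hC : ∀ x y : Y, ⁅x, y⁆ ∈ C) (ν : C →* ℂˣ)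
  (hν : ∀ c ∈ C, ∀ x y : Y, cm C hC ν ⁅c, x⁆ y = 1)

include hC in
/-- multiplicativity of `ν⁅x, ·⁆` on `C`. -/
lemma CLI_r_mul (x : Y) {d d' : Y} (hd : d ∈ C) (_hd' : d' ∈ C) :
    CLI_nu C ν ⁅x, d * d'⁆ = CLI_nu C ν ⁅x, d⁆ * CLI_nu C ν ⁅x, d'⁆ := by
  have e : ⁅x, d * d'⁆ = ⁅x, d⁆ * (d * ⁅x, d'⁆ * d⁻¹) := by
    simp only [commutatorElement_def]
    group
  rw [e, CLI_nu_mul C ν (hC x d) (C.mul_mem (C.mul_mem hd (hC x d')) (C.inv_mem hd)),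
    CLI_nu_mul C ν (C.mul_mem hd (hC x d')) (C.inv_mem hd), CLI_nu_mul C ν hd (hC x d'),
    CLI_nu_inv C ν hd, mul_comm (CLI_nu C ν d) (CLI_nu C ν ⁅x, d'⁆), mul_inv_cancel_right]

include hC in
lemma CLI_r_inv (x : Y) {d : Y} (hd : d ∈ C) :
    CLI_nu C ν ⁅x, d⁻¹⁆ = (CLI_nu C ν ⁅x, d⁆)⁻¹ := by
  have h := CLI_r_mul C hC ν x hd (C.inv_mem hd)
  rw [mul_inv_cancel, commutatorElement_one_right, CLI_nu_one] at h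
  exact eq_inv_of_mul_eq_one_right h.symm

include hν in
/-- triple commutators with an entry in `C` are killed. -/
lemma CLI_triple (x x' : Y) {c : Y} (hc : c ∈ C) : CLI_nu C ν ⁅x, ⁅x', c⁆⁆ = 1 := by
  have h1 : CLI_nu C ν ⁅⁅c, x'⁆, x⁆ = 1 := by
    rw [← CLI_cm C hC ν]
    exact hν c hc x' x
  rw [← commutatorElement_inv c x', CLI_r_inv C hC ν x (hC c x'),
    CLI_nu_swap C hC ν ⁅c, x'⁆ x, h1, inv_one, inv_one]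

include hν in
lemma CLI_triple' (x x' : Y) {c : Y} (hc : c ∈ C) : CLI_nu C ν ⁅x, ⁅c, x'⁆⁆ = 1 := by
  have h1 : CLI_nu C ν ⁅⁅c, x'⁆, x⁆ = 1 := by
    rw [← CLI_cm C hC ν]
    exact hν c hc x' x
  rw [CLI_nu_swap C hC ν ⁅c, x'⁆ x, h1, inv_one]

include hC in
/-- conjugation of an element of `C`. -/
lemma CLI_conj (x : Y) {a : Y} (ha : a ∈ C) :
    CLI_nu C ν (x * a * x⁻¹) = CLI_nu C ν ⁅x, a⁆ * CLI_nu C ν a := by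
  rw [← CLI_nu_mul C ν (hC x a) ha]
  congr 1
  simp only [commutatorElement_def]
  group

include hC in
lemma CLI_conj_mem (x : Y) {a : Y} (ha : a ∈ C) : x * a * x⁻¹ ∈ C := by
  have e : x * a * x⁻¹ = ⁅x, a⁆ * a := by
    simp only [commutatorElement_def]
    group
  rw [e]
  exact C.mul_mem (hC x a) ha

include hν in
lemma CLI_l_mul (x x' : Y) {d : Y} (hd : d ∈ C) :
    CLI_nu C ν ⁅x * x', d⁆ = CLI_nu C ν ⁅x, d⁆ * CLI_nu C ν ⁅x', d⁆ := by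
  have e : ⁅x * x', d⁆ = x * ⁅x', d⁆ * x⁻¹ * ⁅x, d⁆ := by
    simp only [commutatorElement_def]
    group
  rw [e, CLI_nu_mul C ν (CLI_conj_mem C hC x (hC x' d)) (hC x d), CLI_conj C hC ν x (hC x' d),
    CLI_triple C hC ν hν x x' hd, one_mul, mul_comm]

include hν in
lemma CLI_l_inv (x : Y) {d : Y} (hd : d ∈ C) :
    CLI_nu C ν ⁅x⁻¹, d⁆ = (CLI_nu C ν ⁅x, d⁆)⁻¹ := by
  have h := CLI_l_mul C hC ν hν x x⁻¹ hd
  rw [mul_inv_cancel, commutatorElement_one_left, CLI_nu_one] at h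
  exact eq_inv_of_mul_eq_one_right h.symm

include hC in
/-- formula (A). -/
lemma CLI_A (x y w : Y) : CLI_nu C ν ⁅x * y, w⁆ =
    CLI_nu C ν ⁅x, ⁅y, w⁆⁆ * CLI_nu C ν ⁅y, w⁆ * CLI_nu C ν ⁅x, w⁆ := by
  have e : ⁅x * y, w⁆ = x * ⁅y, w⁆ * x⁻¹ * ⁅x, w⁆ := by
    simp only [commutatorElement_def]
    group
  rw [e, CLI_nu_mul C ν (CLI_conj_mem C hC x (hC y w)) (hC x w), CLI_conj C hC ν x (hC y w)]

include hν in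
/-- `t` is multiplicative in the second variable. -/
lemma CLI_t_mid (x y y' w : Y) : CLI_nu C ν ⁅x, ⁅y * y', w⁆⁆ =
    CLI_nu C ν ⁅x, ⁅y, w⁆⁆ * CLI_nu C ν ⁅x, ⁅y', w⁆⁆ := by
  have e : ⁅y * y', w⁆ = ⁅y, ⁅y', w⁆⁆ * ⁅y', w⁆ * ⁅y, w⁆ := by
    simp only [commutatorElement_def]
    group
  rw [e, CLI_r_mul C hC ν x (C.mul_mem (hC _ _) (hC _ _)) (hC _ _),
    CLI_r_mul C hC ν x (hC _ _) (hC _ _), CLI_triple C hC ν hν x y (hC y' w), one_mul, mul_comm]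

include hν in
lemma CLI_t_mid_inv (x y w : Y) : CLI_nu C ν ⁅x, ⁅y⁻¹, w⁆⁆ = (CLI_nu C ν ⁅x, ⁅y, w⁆⁆)⁻¹ := by
  have h := CLI_t_mid C hC ν hν x y y⁻¹ w
  rw [mul_inv_cancel, commutatorElement_one_left, commutatorElement_one_right, CLI_nu_one] at h
  exact eq_inv_of_mul_eq_one_right h.symm

include hν in
/-- `t` is multiplicative in the third variable. -/
lemma CLI_t_right (x y w w' : Y) : CLI_nu C ν ⁅x, ⁅y, w * w'⁆⁆ =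
    CLI_nu C ν ⁅x, ⁅y, w⁆⁆ * CLI_nu C ν ⁅x, ⁅y, w'⁆⁆ := by
  have e : ⁅y, w * w'⁆ = ⁅y, w⁆ * (⁅w, ⁅y, w'⁆⁆ * ⁅y, w'⁆) := by
    simp only [commutatorElement_def]
    group
  rw [e, CLI_r_mul C hC ν x (hC _ _) (C.mul_mem (hC _ _) (hC _ _)),
    CLI_r_mul C hC ν x (hC _ _) (hC _ _), CLI_triple C hC ν hν x w (hC y w'), one_mul]

include hν in
lemma CLI_t_right_inv (x y w : Y) : CLI_nu C ν ⁅x, ⁅y, w⁻¹⁆⁆ = (CLI_nu C ν ⁅x, ⁅y, w⁆⁆)⁻¹ := by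
  have h := CLI_t_right C hC ν hν x y w w⁻¹
  rw [mul_inv_cancel, commutatorElement_one_right, commutatorElement_one_right, CLI_nu_one] at h
  exact eq_inv_of_mul_eq_one_right h.symm

include hν in
lemma CLI_t_inv3 (x y w : Y) :
    CLI_nu C ν ⁅x⁻¹, ⁅y⁻¹, w⁻¹⁆⁆ = (CLI_nu C ν ⁅x, ⁅y, w⁆⁆)⁻¹ := by
  rw [CLI_l_inv C hC ν hν x (hC _ _), CLI_t_mid_inv C hC ν hν, CLI_t_right_inv C hC ν hν, inv_inv]

include hν in
lemma CLI_DD_mul (x y w : Y) : DD C hC ν (x * y) w = DD C hC ν x w * DD C hC ν y w *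
    (CLI_nu C ν ⁅x, ⁅y, w⁆⁆ * (CLI_nu C ν ⁅y, ⁅x, w⁆⁆)⁻¹) := by
  unfold DD
  simp only [CLI_cm C hC ν]
  rw [CLI_A C hC ν x y w, mul_inv_rev, CLI_A C hC ν y⁻¹ x⁻¹ w⁻¹, CLI_t_inv3 C hC ν hν y x w]
  simp only [mul_assoc, mul_comm, mul_left_comm]

end

theorem DD_uyu {Y : Type} [Group Y] (C : Subgroup Y) (hC : ∀ x y : Y, ⁅x, y⁆ ∈ C) (ν : C →* ℂˣ)
    (hν : ∀ c ∈ C, ∀ x y : Y, cm C hC ν ⁅c, x⁆ y = 1) (u y w : Y) :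
    DD C hC ν (u * y * u) w = DD C hC ν u w ^ 2 * DD C hC ν y w := by
  rw [CLI_DD_mul C hC ν hν (u * y) u w, CLI_DD_mul C hC ν hν u y w,
    CLI_l_mul C hC ν hν u y (hC u w), CLI_t_mid C hC ν hν u u y w]
  generalize DD C hC ν u w = a
  generalize DD C hC ν y w = b
  generalize CLI_nu C ν ⁅u, ⁅y, w⁆⁆ = s
  generalize CLI_nu C ν ⁅y, ⁅u, w⁆⁆ = t
  generalize CLI_nu C ν ⁅u, ⁅u, w⁆⁆ = r
  rw [mul_inv]
  have e : a * b * (s * t⁻¹) * a * (r * t * (r⁻¹ * s⁻¹))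
      = a ^ 2 * b * (s * s⁻¹) * (t * t⁻¹) * (r * r⁻¹) := by
    rw [pow_two]
    simp only [mul_assoc, mul_comm, mul_left_comm]
  rw [e]
  simp

theorem DD_mulC {Y : Type} [Group Y] (C : Subgroup Y) (hC : ∀ x y : Y, ⁅x, y⁆ ∈ C) (ν : C →* ℂˣ)
    (hν : ∀ c ∈ C, ∀ x y : Y, cm C hC ν ⁅c, x⁆ y = 1) (w c v : Y) (hc : c ∈ C) :
    DD C hC ν (w * c) v = DD C hC ν w v * DD C hC ν c v := by
  rw [CLI_DD_mul C hC ν hν w c v, CLI_triple' C hC ν hν w v hc, CLI_nu_comm C ν hc (hC w v)]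
  simp

theorem DD_C {Y : Type} [Group Y] (C : Subgroup Y) (hC : ∀ x y : Y, ⁅x, y⁆ ∈ C) (ν : C →* ℂˣ)
    (hν : ∀ c ∈ C, ∀ x y : Y, cm C hC ν ⁅c, x⁆ y = 1) (c w : Y) (hc : c ∈ C) :
    DD C hC ν c w = cm C hC ν c w ^ 2 := by
  unfold DD
  simp only [CLI_cm C hC ν]
  have h : CLI_nu C ν ⁅c⁻¹, w⁻¹⁆ = CLI_nu C ν ⁅c, w⁆ := by
    rw [CLI_nu_swap C hC ν w⁻¹ c⁻¹, CLI_r_inv C hC ν w⁻¹ hc, CLI_l_inv C hC ν hν w hc,
      CLI_nu_swap C hC ν w c, inv_inv]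
  rw [h, pow_two]

end Pool.Agent.Helper89.MD
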