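import Pool.Agent.Helper89.MD.Defs
import Pool.Agent.Helper89.MD.CLI

set_option autoImplicit false

open scoped commutatorElement

namespace Pool.Agent.Helper89.MD

theorem CL3A_inv {Y F : Type} [Group Y] [CommGroup F] (d : Y → F)
    (hd : ∀ u y, d (u * y * u) = d u ^ 2 * d y) (x : Y) : d x⁻¹ = (d x)⁻¹ := by
  have h := hd x x⁻¹
  rw [mul_inv_cancel, one_mul, pow_two, mul_assoc] at h
  have h2 : d x * d x⁻¹ = 1 := by
    have h3 : d x * 1 = d x * (d x * d x⁻¹) := by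
      rw [mul_one]
      exact h
    exact (mul_left_cancel h3).symm
  exact (inv_eq_of_mul_eq_one_right h2).symm

theorem CL3A_pow {Y F : Type} [Group Y] [CommGroup F] (d : Y → F) (h1 : d 1 = 1)
    (hd : ∀ u y, d (u * y * u) = d u ^ 2 * d y) (x : Y) : ∀ m : ℕ, d (x ^ m) = d x ^ m
  | 0 => by rw [pow_zero, pow_zero, h1]
  | 1 => by rw [pow_one, pow_one]
  | m + 2 => by
    have h : x ^ (m + 2) = x * x ^ m * x := by
      rw [← pow_succ', ← pow_succ]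
    rw [h, hd, CL3A_pow d h1 hd x m, ← pow_add, add_comm]

theorem CL3A_sqrt {Y : Type} [Group Y] {p : ℕ} [hpp : Fact p.Prime] (hp : IsPGroup p Y)
    (hp2 : p ≠ 2) (x : Y) : ∃ u : Y, x = u * u := by
  have hcop : p.Coprime 2 := by
    rw [Nat.coprime_primes hpp.out Nat.prime_two]
    exact hp2
  obtain ⟨u, hu⟩ := (hp.powEquiv hcop).surjective x
  refine ⟨u, ?_⟩
  rw [← hu, IsPGroup.powEquiv_apply, pow_two]

/-- The image of `d` as a subgroup. -/
def CL3A_L {Y F : Type} [Group Y] [CommGroup F] {p : ℕ} [Fact p.Prime] (hp : IsPGroup p Y)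
    (hp2 : p ≠ 2) (d : Y → F) (h1 : d 1 = 1)
    (hd : ∀ u y, d (u * y * u) = d u ^ 2 * d y) : Subgroup F where
  carrier := Set.range d
  one_mem' := ⟨1, h1⟩
  mul_mem' := by
    rintro _ _ ⟨x, rfl⟩ ⟨y, rfl⟩
    obtain ⟨u, rfl⟩ := CL3A_sqrt hp hp2 x
    refine ⟨u * y * u, ?_⟩
    rw [hd]
    congr 1
    have := hd u 1
    rw [mul_one, h1, mul_one] at this
    exact this.symm
  inv_mem' := by
    rintro _ ⟨x, rfl⟩
    exact ⟨x⁻¹, CL3A_inv d hd x⟩

theorem CL3A_fib {Y L : Type} [Group Y] [Finite Y] [CommGroup L] [Finite L] {p : ℕ}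
    [hpp : Fact p.Prime] (hL : IsPGroup p L)
    (hp2 : p ≠ 2) (d : Y → L) (hsur : Function.Surjective d)
    (hd : ∀ u y, d (u * y * u) = d u ^ 2 * d y) (S : Subgroup L) :
    Nat.card {y : Y // d y ∈ S} = Nat.card S * Nat.card {y : Y // d y = 1} := by
  have hex : ∀ l : L, ∃ u : Y, d u ^ 2 = l := by
    intro l
    obtain ⟨m, hm⟩ := CL3A_sqrt hL hp2 l
    obtain ⟨u, hu⟩ := hsur m
    exact ⟨u, by rw [hu, pow_two, ← hm]⟩
  choose w hw using hex
  rw [← Nat.card_prod]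
  symm
  apply Nat.card_congr
  exact
    { toFun := fun sy => ⟨w sy.1 * sy.2.1 * w sy.1, by
        rw [hd, hw, sy.2.2, mul_one]
        exact sy.1.2⟩
      invFun := fun z => (⟨d z.1, z.2⟩, ⟨(w (d z.1))⁻¹ * z.1 * (w (d z.1))⁻¹, by
        have h := hd (w (d z.1)) ((w (d z.1))⁻¹ * z.1 * (w (d z.1))⁻¹)
        have h2 : w (d z.1) * ((w (d z.1))⁻¹ * z.1 * (w (d z.1))⁻¹) * w (d z.1) = z.1 := by group
        rw [h2, hw] at h
        exact (mul_eq_left.1 h.symm)⟩)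
      left_inv := by
        rintro ⟨⟨s, hs⟩, ⟨y, hy⟩⟩
        have h : d (w s * y * w s) = s := by rw [hd, hw, hy, mul_one]
        apply Prod.ext
        · apply Subtype.ext
          exact h
        · apply Subtype.ext
          change (w (d (w s * y * w s)))⁻¹ * (w s * y * w s) * (w (d (w s * y * w s)))⁻¹ = y
          rw [h]
          group
      right_inv := by
        rintro ⟨z, hz⟩
        apply Subtype.ext
        change w (d z) * ((w (d z))⁻¹ * z * (w (d z))⁻¹) * w (d z) = z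
        group }

theorem CL3A_one {Y : Type} [Group Y] (C : Subgroup Y) (hC : ∀ x y : Y, ⁅x, y⁆ ∈ C)
    (ν : C →* ℂˣ) (w : Y) : DD C hC ν 1 w = 1 := by
  unfold DD cm
  have h1 : (⟨⁅(1 : Y), w⁆, hC 1 w⟩ : C) = 1 := Subtype.ext (commutatorElement_one_left w)
  have h2 : (⟨⁅(1 : Y)⁻¹, w⁻¹⁆, hC 1⁻¹ w⁻¹⟩ : C) = 1 := by
    apply Subtype.ext
    change ⁅(1 : Y)⁻¹, w⁻¹⁆ = 1
    rw [inv_one]
    exact commutatorElement_one_left w⁻¹
  rw [h1, h2, map_one, mul_one]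

/-- The form attached to a family of values symmetric up to inversion. -/
theorem CL3A_form {Y L : Type} [Group Y] [CommGroup L] (d : Y → L)
    (hsur : Function.Surjective d) (D : Y → Y → ℂˣ) (ev : L →* (Y → ℂˣ))
    (hev : ∀ x y, ev (d x) y = D x y) (hD : ∀ x y, D y x = (D x y)⁻¹) :
    ∃ b : L →* L →* ℂˣ, ∀ x y, b (d x) (d y) = D x y := by
  have key : ∀ x y, ev (d x) (Function.surjInv hsur (d y)) = D x y := by
    intro x y
    rw [hev, hD, ← hev, Function.surjInv_eq hsur, hev, hD, inv_inv]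
  have key2 : ∀ (x : Y) (m : L), ev (d x) (Function.surjInv hsur m) = (ev m x)⁻¹ := by
    intro x m
    obtain ⟨y, rfl⟩ := hsur m
    rw [key, hev, hD]
  refine ⟨MonoidHom.mk' (fun l => MonoidHom.mk' (fun m => ev l (Function.surjInv hsur m)) ?_) ?_,
    ?_⟩
  · intro m m'
    obtain ⟨x, rfl⟩ := hsur l
    rw [key2, key2, key2, map_mul, Pi.mul_apply, mul_inv]
  · intro l l'
    apply MonoidHom.ext
    intro m
    change ev (l * l') (Function.surjInv hsur m) =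
      ev l (Function.surjInv hsur m) * ev l' (Function.surjInv hsur m)
    rw [map_mul, Pi.mul_apply]
  · intro x y
    exact key x y

theorem CL3A {Y : Type} [Group Y] [Finite Y] {p : ℕ} [Fact p.Prime] (hp : IsPGroup p Y)
    (hp2 : p ≠ 2) (C : Subgroup Y) (hC : ∀ x y : Y, ⁅x, y⁆ ∈ C) (ρ μ : C →* ℂˣ)
    (hρ : ∀ c ∈ C, ∀ x y : Y, cm C hC ρ ⁅c, x⁆ y = 1)
    (hμ : ∀ c ∈ C, ∀ x y : Y, cm C hC μ ⁅c, x⁆ y = 1) :
    ∃ (L : Type) (_ : CommGroup L) (_ : Finite L) (δ : Y → L) (bρ bμ : L →* L →* ℂˣ),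
      IsPGroup p L ∧ Function.Surjective δ ∧ (∀ x, bρ x x = 1) ∧ (∀ x, bμ x x = 1) ∧
      (∀ x y, bρ (δ x) (δ y) = DD C hC ρ x y) ∧ (∀ x y, bμ (δ x) (δ y) = DD C hC μ x y) ∧
      (∀ u y, δ (u * y * u) = δ u ^ 2 * δ y) ∧ (∀ w, ∀ c ∈ C, δ (w * c) = δ w * δ c) ∧
      (∀ S : Subgroup L, Nat.card {y : Y // δ y ∈ S} * Nat.card L = Nat.card S * Nat.card Y) := by
  let d0 : Y → (Y → ℂˣ) × (Y → ℂˣ) := fun x => (fun w => DD C hC ρ x w, fun w => DD C hC μ x w)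
  have h1 : d0 1 = 1 := by
    apply Prod.ext
    · funext w
      exact CL3A_one C hC ρ w
    · funext w
      exact CL3A_one C hC μ w
  have hd : ∀ u y, d0 (u * y * u) = d0 u ^ 2 * d0 y := by
    intro u y
    apply Prod.ext
    · funext w
      exact DD_uyu C hC ρ hρ u y w
    · funext w
      exact DD_uyu C hC μ hμ u y w
  let L : Subgroup ((Y → ℂˣ) × (Y → ℂˣ)) := CL3A_L hp hp2 d0 h1 hd
  let δ : Y → L := fun x => ⟨d0 x, ⟨x, rfl⟩⟩
  have hsur : Function.Surjective δ := by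
    rintro ⟨_, ⟨x, rfl⟩⟩
    exact ⟨x, rfl⟩
  have hfin : Finite L := Finite.of_surjective δ hsur
  have hδ1 : δ 1 = 1 := Subtype.ext h1
  have hδ : ∀ u y, δ (u * y * u) = δ u ^ 2 * δ y := fun u y => Subtype.ext (hd u y)
  have hL : IsPGroup p L := by
    intro l
    obtain ⟨x, rfl⟩ := hsur l
    obtain ⟨k, hk⟩ := hp x
    exact ⟨k, by rw [← CL3A_pow δ hδ1 hδ x, hk, hδ1]⟩
  let ev1 : L →* (Y → ℂˣ) := (MonoidHom.fst (Y → ℂˣ) (Y → ℂˣ)).comp L.subtype
  let ev2 : L →* (Y → ℂˣ) := (MonoidHom.snd (Y → ℂˣ) (Y → ℂˣ)).comp L.subtype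
  obtain ⟨bρ, hbρ⟩ := CL3A_form δ hsur (DD C hC ρ) ev1 (fun x y => rfl) (DD_swap C hC ρ)
  obtain ⟨bμ, hbμ⟩ := CL3A_form δ hsur (DD C hC μ) ev2 (fun x y => rfl) (DD_swap C hC μ)
  refine ⟨L, inferInstance, hfin, δ, bρ, bμ, hL, hsur, ?_, ?_, hbρ, hbμ, hδ, ?_, ?_⟩
  · intro l
    obtain ⟨x, rfl⟩ := hsur l
    rw [hbρ, DD_self]
  · intro l
    obtain ⟨x, rfl⟩ := hsur l
    rw [hbμ, DD_self]
  · intro w c hc
    apply Subtype.ext
    apply Prod.ext
    · funext v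
      exact DD_mulC C hC ρ hρ w c v hc
    · funext v
      exact DD_mulC C hC μ hμ w c v hc
  · intro S
    have hS := CL3A_fib hL hp2 δ hsur hδ S
    have hT := CL3A_fib hL hp2 δ hsur hδ ⊤
    have hT2 : Nat.card {y : Y // δ y ∈ (⊤ : Subgroup L)} = Nat.card Y := by
      apply Nat.card_congr
      exact Equiv.subtypeUnivEquiv fun _ => Subgroup.mem_top _
    rw [hT2, Subgroup.card_top] at hT
    rw [hS, hT]
    ring

end Pool.Agent.Helper89.MD
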