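import Pool.Agent.Helper89.MD.Defs

set_option autoImplicit false

open scoped commutatorElement

namespace Pool.Agent.Helper89.MD

theorem mn_le {K : Type} [Group K] {p : ℕ} (Q : Subgroup K → Prop) (H B : Subgroup K) (k : ℕ)
    (hB : Q B) (hBH : B ≤ H) (h : Nat.card H ≤ p ^ k * Nat.card B) : mn p Q H ≤ k :=
  Nat.sInf_le ⟨B, hB, hBH, h⟩

theorem EE_card {K : Type} [Group K] [Finite K] {p : ℕ} [Fact p.Prime] (hp : IsPGroup p K)
    (H : Subgroup K) : ∃ a : ℕ, Nat.card H = p ^ a := (IsPGroup.iff_card).mp (hp.to_subgroup H)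

theorem EE_relIndex {K : Type} [Group K] (B H : Subgroup K) (h : B ≤ H) :
    Nat.card B * B.relIndex H = Nat.card H := by
  rw [← Nat.card_congr (Subgroup.subgroupOfEquivOfLe h).toEquiv]
  exact (B.subgroupOf H).card_mul_index

theorem mn_spec {K : Type} [Group K] [Finite K] {p : ℕ} [Fact p.Prime] (hp : IsPGroup p K)
    (C : Subgroup K) (Q : Subgroup K → Prop) (hQ : Good C Q) (H : Subgroup K) (hCH : C ≤ H) :
    ∃ B : Subgroup K, Q B ∧ B ≤ H ∧ Nat.card H = p ^ mn p Q H * Nat.card B := by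
  have hpp : p.Prime := Fact.out
  have hne : {k | ∃ B : Subgroup K, Q B ∧ B ≤ H ∧ Nat.card H ≤ p ^ k * Nat.card B}.Nonempty := by
    refine ⟨Nat.card H, C, hQ.base, hCH, ?_⟩
    have h1 : Nat.card H < p ^ Nat.card H := Nat.lt_pow_self hpp.one_lt
    have h2 : 0 < Nat.card C := Nat.card_pos
    nlinarith
  obtain ⟨B, hB, hBH, hle⟩ := Nat.sInf_mem hne
  refine ⟨B, hB, hBH, ?_⟩
  change Nat.card H ≤ p ^ mn p Q H * Nat.card B at hle
  obtain ⟨a, ha⟩ := EE_card hp H
  obtain ⟨b, hb⟩ := EE_card hp B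
  have hba : b ≤ a := by
    have h1 : Nat.card B ≤ Nat.card H := Subgroup.card_le_of_le hBH
    rw [ha, hb] at h1
    exact (Nat.pow_le_pow_iff_right hpp.one_lt).mp h1
  rw [ha, hb, ← pow_add] at hle
  have h2 : a ≤ mn p Q H + b := (Nat.pow_le_pow_iff_right hpp.one_lt).mp hle
  have h3 : mn p Q H ≤ a - b := by
    apply mn_le Q H B _ hB hBH
    rw [ha, hb, ← pow_add]
    exact Nat.pow_le_pow_right hpp.pos (by omega)
  rw [ha, hb, ← pow_add]
  congr 1
  omega

theorem mn_mono {K : Type} [Group K] [Finite K] {p : ℕ} [Fact p.Prime] (hp : IsPGroup p K)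
    (C : Subgroup K) (Q : Subgroup K → Prop) (hQ : Good C Q) (M H : Subgroup K) (hCM : C ≤ M)
    (hMH : M ≤ H) : mn p Q M ≤ mn p Q H := by
  obtain ⟨B, hB, hBH, hc⟩ := mn_spec hp C Q hQ H (hCM.trans hMH)
  apply mn_le Q M (B ⊓ M) _ (hQ.inf B M hB hCM) inf_le_right
  -- |M| * |B| ≤ |H| * |B ⊓ M|
  have h1 : Nat.card M * Nat.card B ≤ Nat.card H * Nat.card (B ⊓ M : Subgroup K) := by
    have h2 : (B ⊓ M).relIndex M ≤ B.relIndex H := by
      rw [Subgroup.inf_relIndex_right]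
      exact Subgroup.relIndex_le_of_le_right hMH (by
        rw [Subgroup.relIndex]
        exact Subgroup.index_ne_zero_of_finite)
    have h3 : Nat.card (B ⊓ M : Subgroup K) * (B ⊓ M).relIndex M = Nat.card M :=
      EE_relIndex _ _ inf_le_right
    have h4 : Nat.card B * B.relIndex H = Nat.card H := EE_relIndex _ _ hBH
    rw [← h3, ← h4]
    calc Nat.card (B ⊓ M : Subgroup K) * (B ⊓ M).relIndex M * Nat.card B
        ≤ Nat.card (B ⊓ M : Subgroup K) * (B.relIndex H) * Nat.card B := by gcongr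
      _ = Nat.card B * B.relIndex H * Nat.card (B ⊓ M : Subgroup K) := by ring
  rw [hc] at h1
  have h5 : 0 < Nat.card B := Nat.card_pos
  have h6 : Nat.card M * Nat.card B ≤
      (p ^ mn p Q H * Nat.card (B ⊓ M : Subgroup K)) * Nat.card B := by
    calc _ ≤ _ := h1
      _ = _ := by ring
  exact Nat.le_of_mul_le_mul_right h6 h5

theorem mn_succ {K : Type} [Group K] [Finite K] {p : ℕ} [Fact p.Prime] (hp : IsPGroup p K)
    (C : Subgroup K) (Q : Subgroup K → Prop) (hQ : Good C Q) (M H : Subgroup K) (hCM : C ≤ M)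
    (hMH : M ≤ H) (hidx : Nat.card H = p * Nat.card M) : mn p Q H ≤ mn p Q M + 1 := by
  obtain ⟨B, hB, hBM, hc⟩ := mn_spec hp C Q hQ M hCM
  apply mn_le Q H B _ hB (hBM.trans hMH)
  rw [hidx, hc, pow_succ]
  apply le_of_eq
  ring

theorem mn_base {K : Type} [Group K] [Finite K] {p : ℕ} [Fact p.Prime] (hp : IsPGroup p K)
    (C : Subgroup K) (Q : Subgroup K → Prop) (hQ : Good C Q) : mn p Q C = 0 := by
  apply Nat.le_zero.mp
  exact mn_le Q C C 0 hQ.base le_rfl (by simp)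

theorem mn_drop {K : Type} [Group K] [Finite K] {p : ℕ} [Fact p.Prime] (hp : IsPGroup p K)
    (C : Subgroup K) (Q : Subgroup K → Prop) (hQ : Good C Q) (M H : Subgroup K) (hCM : C ≤ M)
    (hMH : M ≤ H) (hidx : Nat.card H = p * Nat.card M)
    (h : ∀ B : Subgroup K, Q B → B ≤ H → ∃ B' : Subgroup K, Q B' ∧ B' ≤ M ∧
      Nat.card B ≤ Nat.card B') : mn p Q M + 1 = mn p Q H := by
  have hpp : p.Prime := Fact.out
  have h1 := mn_succ hp C Q hQ M H hCM hMH hidx
  obtain ⟨B, hB, hBH, hc⟩ := mn_spec hp C Q hQ H (hCM.trans hMH)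
  obtain ⟨B', hB', hBM', hcard⟩ := h B hB hBH
  have hMpos : 0 < Nat.card M := Nat.card_pos
  rcases Nat.eq_zero_or_pos (mn p Q H) with h0 | h0
  · exfalso
    rw [h0, pow_zero, one_mul] at hc
    have h2 : Nat.card B' ≤ Nat.card M := Subgroup.card_le_of_le hBM'
    have := hpp.two_le
    nlinarith
  · have h2 : mn p Q M ≤ mn p Q H - 1 := by
      apply mn_le Q M B' _ hB' hBM'
      have h3 : p * Nat.card M = p * (p ^ (mn p Q H - 1) * Nat.card B) := by
        rw [← hidx, hc]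
        conv_lhs => rw [show mn p Q H = (mn p Q H - 1) + 1 by omega, pow_succ]
        ring
      have h4 : Nat.card M = p ^ (mn p Q H - 1) * Nat.card B :=
        Nat.eq_of_mul_eq_mul_left hpp.pos h3
      rw [h4]
      gcongr
    omega

end Pool.Agent.Helper89.MD
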