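import Pool.Agent.Helper89.MD.Defs

set_option autoImplicit false

namespace Pool.Agent.Helper89.MD

theorem eq_of_no_max {K : Type} [Group K] [Finite K] {p : ℕ} [Fact p.Prime] (hp : IsPGroup p K)
    (J H : Subgroup K) (hJH : J ≤ H)
    (h : ∀ M : Subgroup K, J ≤ M → M ≤ H → Nat.card H = p * Nat.card M → False) : J = H := by
  by_contra hne
  have hpp : p.Prime := Fact.out
  have hHp : IsPGroup p H := hp.to_subgroup H
  have hJp : IsPGroup p J := hp.to_subgroup J
  obtain ⟨m, hm⟩ := IsPGroup.iff_card.1 hHp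
  obtain ⟨j, hj⟩ := IsPGroup.iff_card.1 hJp
  have hlt : Nat.card J < Nat.card H := by
    apply lt_of_le_of_ne (Subgroup.card_le_of_le hJH)
    intro heq
    exact hne (Subgroup.eq_of_le_of_card_ge hJH heq.ge)
  have hjm : j < m := by
    rw [hm, hj] at hlt
    exact (Nat.pow_lt_pow_iff_right hpp.one_lt).1 hlt
  obtain ⟨m, rfl⟩ : ∃ m', m = m' + 1 := ⟨m - 1, by omega⟩
  have hcard : Nat.card (J.subgroupOf H) = p ^ j := by
    rw [← hj]
    exact Nat.card_congr (Subgroup.subgroupOfEquivOfLe hJH).toEquiv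
  obtain ⟨M, hM, hJM⟩ := Sylow.exists_subgroup_card_pow_prime_le p (G := H) (m := m)
    (by rw [hm]; exact pow_dvd_pow p (Nat.le_succ m)) (J.subgroupOf H) hcard (by omega)
  refine h (M.map H.subtype) ?_ (Subgroup.map_subtype_le M) ?_
  · have : (J.subgroupOf H).map H.subtype = J := by
      rw [Subgroup.subgroupOf_map_subtype, inf_eq_left]
      exact hJH
    rw [← this]
    exact Subgroup.map_mono hJM
  · rw [Subgroup.card_map_of_injective H.subtype_injective, hM, hm, pow_succ']

end Pool.Agent.Helper89.MD
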