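import Pool.Agent.Helper89.MD.Defs

/-!
Isotropic subgroups of a finite abelian group with an alternating pairing (module WITT).
-/

set_option autoImplicit false

open scoped commutatorElement

namespace Pool.Agent.Helper89.MD

/-- The image of a pairing which is trivial on `D` is small. -/
theorem WITT_bound {S E : Type} [CommGroup S] [CommGroup E] [Finite E]
    (f : S →* E →* ℂˣ) (D : Subgroup E) (hD : ∀ s, ∀ d ∈ D, f s d = 1) :
    f.ker.index ≤ D.index := by
  have hle : f.range ≤ (MonoidHom.domRestrictHom D ℂˣ).ker := by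
    rintro _ ⟨s, rfl⟩
    rw [MonoidHom.mem_ker]
    ext d
    simp [hD s d d.2]
  have hfin : Finite (E →* ℂˣ) := by
    apply Nat.finite_of_card_ne_zero
    rw [CommGroup.card_monoidHom_of_hasEnoughRootsOfUnity]
    exact Nat.card_pos.ne'
  have h1 : Nat.card f.range ≤ Nat.card (MonoidHom.domRestrictHom D ℂˣ).ker :=
    Subgroup.card_le_of_le hle
  rw [CommGroup.card_domRestrictHom_ker] at h1
  rw [Subgroup.index_ker]
  exact h1

theorem WITT_symm {L : Type} [CommGroup L] {b : L →* L →* ℂˣ} (hb : ∀ x, b x x = 1) (x y : L) :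
    b x y = (b y x)⁻¹ := by
  have h := hb (x * y)
  simp only [map_mul, MonoidHom.mul_apply, hb, one_mul, mul_one] at h
  exact eq_inv_of_mul_eq_one_left (by rw [mul_comm]; exact h)

/-- the orthogonal of `E` -/
def WITT_perp {L : Type} [CommGroup L] (b : L →* L →* ℂˣ) (E : Subgroup L) : Subgroup L :=
  ((MonoidHom.domRestrictHom E ℂˣ).comp b).ker

theorem WITT_mem_perp {L : Type} [CommGroup L] (b : L →* L →* ℂˣ) (E : Subgroup L) (x : L) :
    x ∈ WITT_perp b E ↔ ∀ e ∈ E, b x e = 1 := by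
  unfold WITT_perp
  rw [MonoidHom.mem_ker]
  constructor
  · intro h e he
    exact DFunLike.congr_fun h (⟨e, he⟩ : E)
  · intro h
    ext e
    exact congrArg Units.val (h e e.2)

theorem WITT_relIndex {L : Type} [CommGroup L] [Finite L] (b : L →* L →* ℂˣ)
    (S E : Subgroup L) (hS : linQ b S) : (WITT_perp b E).relIndex S ≤ S.relIndex E := by
  let f : S →* E →* ℂˣ := ((MonoidHom.domRestrictHom E ℂˣ).comp b).comp S.subtype
  have h1 := WITT_bound f (S.subgroupOf E) (fun s d hd => hS s s.2 d (Subgroup.mem_subgroupOf.1 hd))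
  have h2 : f.ker = (WITT_perp b E).subgroupOf S := by
    ext s
    rw [Subgroup.mem_subgroupOf]
    exact Iff.rfl
  rw [h2] at h1
  exact h1

theorem WITT_card {L : Type} [Group L] (H K : Subgroup L) :
    Nat.card (H ⊓ K : Subgroup L) * H.relIndex K = Nat.card K := by
  rw [← Subgroup.relIndex_bot_left, ← Subgroup.relIndex_bot_left,
    Subgroup.relIndex_inf_mul_relIndex, bot_inf_eq]

theorem WITT_le_perp {L : Type} [CommGroup L] {b : L →* L →* ℂˣ} {E : Subgroup L}
    (hE : linQ b E) : E ≤ WITT_perp b E := by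
  intro x hx
  rw [WITT_mem_perp]
  exact fun e he => hE x hx e he

theorem WITT_linQ {L : Type} [CommGroup L] {b : L →* L →* ℂˣ} (hb : ∀ x, b x x = 1)
    {S E : Subgroup L} (hS : linQ b S) (hE : linQ b E) : linQ b ((WITT_perp b E ⊓ S) ⊔ E) := by
  intro x hx y hy
  rw [Subgroup.mem_sup] at hx hy
  obtain ⟨s, hs, e, he, rfl⟩ := hx
  obtain ⟨s', hs', e', he', rfl⟩ := hy
  have h1 : b s s' = 1 := hS s hs.2 s' hs'.2
  have h2 : b s e' = 1 := (WITT_mem_perp b E s).1 hs.1 e' he'
  have h3 : b e s' = 1 := by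
    rw [WITT_symm hb, (WITT_mem_perp b E s').1 hs'.1 e he, inv_one]
  have h4 : b e e' = 1 := hE e he e' he'
  simp only [map_mul, MonoidHom.mul_apply, h1, h2, h3, h4, mul_one]

theorem WITT_card_le {L : Type} [CommGroup L] [Finite L] (b : L →* L →* ℂˣ)
    {S E : Subgroup L} (hS : linQ b S) (hE : linQ b E) :
    Nat.card S ≤ Nat.card ((WITT_perp b E ⊓ S) ⊔ E : Subgroup L) := by
  have hEp : E ≤ WITT_perp b E := WITT_le_perp hE
  set A := WITT_perp b E ⊓ S with hA
  have h1 : Nat.card A * (WITT_perp b E).relIndex S = Nat.card S := WITT_card _ _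
  have h2 : Nat.card (S ⊓ E : Subgroup L) * S.relIndex E = Nat.card E := WITT_card _ _
  have h3 : Nat.card (E ⊓ A : Subgroup L) * E.relIndex A = Nat.card A := WITT_card _ _
  have h4 : Nat.card (E ⊓ (A ⊔ E) : Subgroup L) * E.relIndex (A ⊔ E) =
    Nat.card (A ⊔ E : Subgroup L) := WITT_card _ _
  have h5 : E ⊓ A = S ⊓ E := by
    rw [hA]
    apply le_antisymm
    · exact fun x hx => ⟨hx.2.2, hx.1⟩
    · exact fun x hx => ⟨hx.2, hEp hx.2, hx.1⟩
  have h6 : E ⊓ (A ⊔ E) = E := inf_eq_left.2 le_sup_right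
  rw [h6, Subgroup.relIndex_sup_right] at h4
  rw [h5] at h3
  have h7 := WITT_relIndex b S E hS
  rw [← h1, ← h4, ← h2, ← h3]
  calc Nat.card (S ⊓ E : Subgroup L) * E.relIndex A * (WITT_perp b E).relIndex S
      ≤ Nat.card (S ⊓ E : Subgroup L) * E.relIndex A * S.relIndex E :=
        Nat.mul_le_mul_left _ h7
    _ = _ := by ring

theorem WITT {L : Type} [CommGroup L] [Finite L] (b : L →* L →* ℂˣ) (hb : ∀ x, b x x = 1)
    (S E : Subgroup L) (hS : linQ b S) (hE : linQ b E) :
    ∃ S1 : Subgroup L, linQ b S1 ∧ E ≤ S1 ∧ Nat.card S ≤ Nat.card S1 :=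
  ⟨(WITT_perp b E ⊓ S) ⊔ E, WITT_linQ hb hS hE, le_sup_right, WITT_card_le b hS hE⟩

end Pool.Agent.Helper89.MD
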