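import Pool.Agent.Helper89.MD.EE
import Pool.Agent.Helper89.MD.WITT

/-!
The radical of an alternating form on a finite abelian `p`-group (module RAD).
-/

set_option autoImplicit false

open scoped commutatorElement

namespace Pool.Agent.Helper89.MD

theorem RAD_idx {L : Type} [Group L] [Finite L] {p : ℕ} (hp : p.Prime) {M N H : Subgroup L}
    (hMN : M ≤ N) (hNH : N ≤ H) (hidx : Nat.card H = p * Nat.card M) : N ≤ M ∨ H ≤ N := by
  have h1 : M.relIndex N * N.relIndex H = M.relIndex H := Subgroup.relIndex_mul_relIndex _ _ _ hMN hNH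
  have h2 : Nat.card (M ⊓ H : Subgroup L) * M.relIndex H = Nat.card H := WITT_card _ _
  rw [inf_eq_left.2 (hMN.trans hNH), hidx, mul_comm p] at h2
  have h3 : M.relIndex H = p := Nat.eq_of_mul_eq_mul_left Nat.card_pos h2
  rw [h3] at h1
  rcases (Nat.dvd_prime hp).1 (Dvd.intro _ h1) with h4 | h4
  · exact Or.inl (Subgroup.relIndex_eq_one.1 h4)
  · right
    rw [h4] at h1
    exact Subgroup.relIndex_eq_one.1 (Nat.eq_of_mul_eq_mul_left hp.pos (by rw [h1, mul_one]))

theorem RAD_good {L : Type} [CommGroup L] (b : L →* L →* ℂˣ) : Good ⊥ (linQ b) where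
  base := by
    intro x hx y _
    rw [Subgroup.mem_bot] at hx
    rw [hx, map_one, MonoidHom.one_apply]
  inf := by
    intro B M hB _ x hx y hy
    exact hB x hx.1 y hy.1

theorem RAD_zpowers {L : Type} [CommGroup L] {b : L →* L →* ℂˣ} (x y : L) (h : b x y = 1) :
    x ∈ WITT_perp b (Subgroup.zpowers y) := by
  rw [WITT_mem_perp]
  rintro _ ⟨n, rfl⟩
  show b x (y ^ n) = 1
  rw [map_zpow, h, one_zpow]

theorem RAD {L : Type} [CommGroup L] [Finite L] {p : ℕ} [Fact p.Prime] (hp : IsPGroup p L)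
    (b : L →* L →* ℂˣ) (hb : ∀ x, b x x = 1) (M H : Subgroup L) (hMH : M ≤ H)
    (hidx : Nat.card H = p * Nat.card M)
    (hR : ∀ x ∈ H, (∀ y ∈ H, b x y = 1) → x ∈ M) :
    mn p (linQ b) M + 1 = mn p (linQ b) H := by
  have hpp : p.Prime := Fact.out
  have hsymm : ∀ x y, b x y = 1 → b y x = 1 := fun x y h => by
    rw [WITT_symm hb, h, inv_one]
  set R : Subgroup L := WITT_perp b H ⊓ H with hRdef
  have hRM : R ≤ M := fun x hx => hR x hx.2 ((WITT_mem_perp b H x).1 hx.1)
  -- an element orthogonal to `M` outside `R`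
  obtain ⟨y, hyH, hyM, hyR⟩ : ∃ y ∈ H, (∀ m ∈ M, b y m = 1) ∧ y ∉ R := by
    by_contra hcon
    push Not at hcon
    have hle : WITT_perp b M ⊓ H ≤ R := fun y hy => hcon y hy.2 ((WITT_mem_perp b M y).1 hy.1)
    have h1 : Nat.card (WITT_perp b M ⊓ H : Subgroup L) * (WITT_perp b M).relIndex H =
      Nat.card H := WITT_card _ _
    have h2 : (WITT_perp b M).relIndex H ≤ R.relIndex M := by
      let f : H →* M →* ℂˣ := ((MonoidHom.domRestrictHom M ℂˣ).comp b).comp H.subtype
      have h3 := WITT_bound f (R.subgroupOf M) (fun s d hd => by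
        have hd' : (d : L) ∈ R := Subgroup.mem_subgroupOf.1 hd
        exact hsymm _ _ ((WITT_mem_perp b H d).1 hd'.1 s s.2))
      have h4 : f.ker = (WITT_perp b M).subgroupOf H := by
        ext s
        rw [Subgroup.mem_subgroupOf]
        exact Iff.rfl
      rw [h4] at h3
      exact h3
    have h3 : Nat.card (R ⊓ M : Subgroup L) * R.relIndex M = Nat.card M := WITT_card _ _
    rw [inf_eq_left.2 hRM] at h3
    have h4 : Nat.card (WITT_perp b M ⊓ H : Subgroup L) ≤ Nat.card R := Subgroup.card_le_of_le hle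
    have h5 : Nat.card H ≤ Nat.card M := by
      rw [← h1, ← h3]
      exact Nat.mul_le_mul h4 h2
    rw [hidx] at h5
    have h6 : 0 < Nat.card M := Nat.card_pos
    have h7 := hpp.two_le
    nlinarith
  have hyH' : ¬ ∀ x ∈ H, b y x = 1 := fun h => hyR ⟨(WITT_mem_perp b H y).2 h, hyH⟩
  -- `y` lies in `M`
  have hyM' : y ∈ M := by
    have h1 : M ⊔ Subgroup.zpowers y ≤ H := sup_le hMH (by rwa [Subgroup.zpowers_le])
    rcases RAD_idx hpp (le_sup_left : M ≤ M ⊔ Subgroup.zpowers y) h1 hidx with h2 | h2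
    · exact h2 (Subgroup.mem_sup_right (Subgroup.mem_zpowers y))
    · exfalso
      apply hyH'
      intro x hx
      have h3 := h2 hx
      rw [Subgroup.mem_sup] at h3
      obtain ⟨m, hm, z, ⟨n, rfl⟩, rfl⟩ := h3
      show b y (m * y ^ n) = 1
      rw [map_mul, hyM m hm, map_zpow, hb, one_zpow, mul_one]
  -- the orthogonal of `y` in `H` is `M`
  have hN : WITT_perp b (Subgroup.zpowers y) ⊓ H ≤ M := by
    have h1 : M ≤ WITT_perp b (Subgroup.zpowers y) ⊓ H := fun m hm =>
      ⟨RAD_zpowers m y (hsymm _ _ (hyM m hm)), hMH hm⟩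
    rcases RAD_idx hpp h1 inf_le_right hidx with h2 | h2
    · exact h2
    · exfalso
      apply hyH'
      intro x hx
      exact hsymm _ _ ((WITT_mem_perp b _ x).1 (h2 hx).1 y (Subgroup.mem_zpowers y))
  have hE : linQ b (Subgroup.zpowers y) := by
    rintro _ ⟨m, rfl⟩ _ ⟨n, rfl⟩
    show b (y ^ m) (y ^ n) = 1
    rw [map_zpow, WITT_symm hb, map_zpow, hb, one_zpow, inv_one, one_zpow]
  refine mn_drop hp ⊥ (linQ b) (RAD_good b) M H bot_le hMH hidx fun B hB hBH => ?_
  refine ⟨(WITT_perp b (Subgroup.zpowers y) ⊓ B) ⊔ Subgroup.zpowers y, WITT_linQ hb hB hE, ?_,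
    WITT_card_le b hB hE⟩
  refine sup_le (fun x hx => hN ⟨hx.1, hBH hx.2⟩) ?_
  rwa [Subgroup.zpowers_le]

end Pool.Agent.Helper89.MD
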