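import Pool.Agent.Helper89.MD.Defs
import Pool.Agent.Helper89.MD.Arith
import Pool.Agent.Helper89.MD.EE
import Pool.Agent.Helper89.MD.MAXL
import Pool.Agent.Helper89.MD.AL
import Pool.Agent.Helper89.MD.RAD

set_option autoImplicit false

open scoped commutatorElement

namespace Pool.Agent.Helper89.MD

theorem LIN_good {L : Type} [CommGroup L] (b : L →* L →* ℂˣ) : Good ⊥ (linQ b) where
  base := by
    intro x hx y hy
    rw [Subgroup.mem_bot] at hx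
    rw [hx]; simp
  inf := by
    intro B M hB _ x hx y hy
    exact hB x hx.1 y hy.1

theorem LIN_swap {L : Type} [CommGroup L] (b : L →* L →* ℂˣ) (hb : ∀ x, b x x = 1) (x y : L) :
    b y x = (b x y)⁻¹ := by
  have h := hb (x * y)
  rw [map_mul] at h
  simp only [MonoidHom.mul_apply, map_mul, hb, one_mul, mul_one] at h
  first
    | exact eq_inv_of_mul_eq_one_right h
    | exact eq_inv_of_mul_eq_one_left h

theorem LIN {L : Type} [CommGroup L] [Finite L] {p : ℕ} [Fact p.Prime] (hp : IsPGroup p L)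
    (b0 b1 : L →* L →* ℂˣ) (h0 : ∀ x, b0 x x = 1) (h1 : ∀ x, b1 x x = 1)
    (T : Finset (ℤ × ℤ)) (hT : Indep p T) (H : Subgroup L) :
    ∑ P ∈ T, (mn p (linQ b0) H - mn p (linQ (b0 ^ P.1 * b1 ^ P.2)) H) ≤ mn p (linQ b0) H := by
  classical
  have hpp : p.Prime := Fact.out
  have hbP : ∀ P : ℤ × ℤ, ∀ x, (b0 ^ P.1 * b1 ^ P.2) x x = 1 := by
    intro P x
    have e1 : (b0 ^ P.1) x x = (b0 x x) ^ P.1 := by
      rw [show (b0 ^ P.1) x = (b0 x) ^ P.1 from rfl]; rfl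
    have e2 : (b1 ^ P.2) x x = (b1 x x) ^ P.2 := by
      rw [show (b1 ^ P.2) x = (b1 x) ^ P.2 from rfl]; rfl
    rw [MonoidHom.mul_apply, MonoidHom.mul_apply, e1, e2, h0, h1, one_zpow, one_zpow, one_mul]
  have happ : ∀ P : ℤ × ℤ, ∀ x y, (b0 ^ P.1 * b1 ^ P.2) x y = (b0 x y) ^ P.1 * (b1 x y) ^ P.2 := by
    intro P x y
    rw [MonoidHom.mul_apply, MonoidHom.mul_apply]; rfl
  refine AL hp ⊥ T (linQ b0) (fun P => linQ (b0 ^ P.1 * b1 ^ P.2)) (LIN_good _)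
    (fun P _ => LIN_good _) ?_ H bot_le
  intro H _ hex hM
  exfalso
  obtain ⟨P1, hP1, hP1lt⟩ := hex
  -- radicals
  let R : ℤ × ℤ → Set L := fun P => {x | x ∈ H ∧ ∀ y ∈ H, (b0 ^ P.1 * b1 ^ P.2) x y = 1}
  have hgen : ∀ P0 ∈ T, mn p (linQ (b0 ^ P0.1 * b1 ^ P0.2)) H < mn p (linQ b0) H →
      Subgroup.closure {x | ∃ P ∈ T, P ≠ P0 ∧
        mn p (linQ (b0 ^ P.1 * b1 ^ P.2)) H < mn p (linQ b0) H ∧ x ∈ R P} = H := by
    intro P0 hP0 hlt
    apply eq_of_no_max hp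
    · rw [Subgroup.closure_le]
      rintro x ⟨P, _, _, _, hx⟩
      exact hx.1
    · intro M hJM hMH hidx
      obtain ⟨P, hP, hne, hPlt, hPeq⟩ := hM P0 hP0 hlt M bot_le hMH hidx
      have h3 := RAD hp (b0 ^ P.1 * b1 ^ P.2) (hbP P) M H hMH hidx (by
        intro x hx hxy
        apply hJM
        apply Subgroup.subset_closure
        exact ⟨P, hP, hne, hPlt, hx, hxy⟩)
      omega
  have horth : ∀ P ∈ T, ∀ Q ∈ T, P ≠ Q → ∀ x ∈ R P, ∀ y ∈ R Q, b0 x y = 1 := by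
    intro P hP Q hQ hne x hx y hy
    have e1 := hx.2 y hy.1
    have e2 := hy.2 x hx.1
    rw [LIN_swap _ (hbP Q) x y, inv_eq_one] at e2
    rw [happ] at e1 e2
    obtain ⟨k, hk⟩ := hp x
    have hu : (b0 x y) ^ p ^ k = 1 := by
      have : (b0 (x ^ p ^ k)) y = 1 := by rw [hk]; simp
      rw [map_pow] at this
      exact this
    have hv : (b1 x y) ^ p ^ k = 1 := by
      have : (b1 (x ^ p ^ k)) y = 1 := by rw [hk]; simp
      rw [map_pow] at this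
      exact this
    exact (LIN_two hpp _ _ k hu hv P Q (hT P hP Q hQ hne) e1 e2).1
  have hrad : ∀ P0 ∈ T, mn p (linQ (b0 ^ P0.1 * b1 ^ P0.2)) H < mn p (linQ b0) H →
      ∀ x ∈ R P0, ∀ y ∈ H, b0 x y = 1 := by
    intro P0 hP0 hlt x hx y hy
    rw [← hgen P0 hP0 hlt] at hy
    have : Subgroup.closure {x | ∃ P ∈ T, P ≠ P0 ∧
        mn p (linQ (b0 ^ P.1 * b1 ^ P.2)) H < mn p (linQ b0) H ∧ x ∈ R P} ≤ (b0 x).ker := by
      rw [Subgroup.closure_le]
      rintro z ⟨P, hP, hne, _, hz⟩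
      exact horth P0 hP0 P hP (Ne.symm hne) x hx z hz
    exact this hy
  have hall : ∀ x ∈ H, ∀ y ∈ H, b0 x y = 1 := by
    intro x hx y hy
    have hx' := hx
    rw [← hgen P1 hP1 hP1lt] at hx'
    have : Subgroup.closure {x | ∃ P ∈ T, P ≠ P1 ∧
        mn p (linQ (b0 ^ P.1 * b1 ^ P.2)) H < mn p (linQ b0) H ∧ x ∈ R P} ≤ (b0.flip y).ker := by
      rw [Subgroup.closure_le]
      rintro z ⟨P, hP, _, hlt, hz⟩
      exact hrad P hP hlt z hz y hy
    exact this hx'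
  have h5 : mn p (linQ b0) H ≤ 0 := mn_le (linQ b0) H H 0 hall le_rfl (by simp)
  omega

end Pool.Agent.Helper89.MD
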