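import Pool.Agent.Helper89.MD.Defs
import Pool.Agent.Helper89.MD.EE
import Pool.Agent.Helper89.MD.LIN
import Pool.Agent.Helper89.MD.WITT
import Pool.Agent.Helper89.MD.CLI
import Pool.Agent.Helper89.MD.CL3A

set_option autoImplicit false

open scoped commutatorElement

namespace Pool.Agent.Helper89.MD

theorem CL3_good {G : Type} [Group G] (C : Subgroup G) (hC : ∀ x y : G, ⁅x, y⁆ ∈ C)
    (ν : C →* ℂˣ) (hν : ∀ x ∈ C, ∀ y ∈ C, cm C hC ν x y = 1) : Good C (isoQ C hC ν) :=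
  ⟨⟨le_rfl, hν⟩, fun _ _ hB hM => ⟨le_inf hB.1 hM, fun x hx y hy => hB.2 x hx.1 y hy.1⟩⟩

theorem CL3_good' {L : Type} [CommGroup L] (b : L →* L →* ℂˣ) : Good ⊥ (linQ b) := by
  refine ⟨?_, fun _ _ hB _ => fun x hx y hy => hB x hx.1 y hy.1⟩
  intro x hx y _
  rw [Subgroup.mem_bot] at hx
  rw [hx, map_one, MonoidHom.one_apply]

theorem CL3_cc {G : Type} [Group G] (C : Subgroup G) (hC : ∀ x y : G, ⁅x, y⁆ ∈ C)
    (ν : C →* ℂˣ) (x y : G) (hx : x ∈ C) (hy : y ∈ C) : cm C hC ν x y = 1 := by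
  have h : (⟨⁅x, y⁆, hC x y⟩ : C) = ⁅(⟨x, hx⟩ : C), (⟨y, hy⟩ : C)⁆ := by
    ext
    simp [commutatorElement_def]
  unfold cm
  rw [h, map_commutatorElement, commutatorElement_eq_one_iff_mul_comm, mul_comm]

theorem CL3_root {G : Type} [Group G] {p : ℕ} [Fact p.Prime] (hp : IsPGroup p G)
    (hp2 : p ≠ 2) (B : Subgroup G) (x : G) (hx : x ∈ B) : ∃ u ∈ B, u ^ 2 = x := by
  have hcop : p.Coprime 2 := (Nat.coprime_primes Fact.out Nat.prime_two).2 hp2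
  obtain ⟨u, hu⟩ := ((hp.to_subgroup B).powEquiv hcop).surjective ⟨x, hx⟩
  refine ⟨u.1, u.2, ?_⟩
  have := congrArg Subtype.val hu
  simpa using this

theorem CL3_odd {G : Type} [Group G] {p : ℕ} [Fact p.Prime] (hp : IsPGroup p G)
    (hp2 : p ≠ 2) (C : Subgroup G) (hC : ∀ x y : G, ⁅x, y⁆ ∈ C) (ν : C →* ℂˣ) (x y : G)
    (h : cm C hC ν x y ^ 2 = 1) : cm C hC ν x y = 1 := by
  obtain ⟨k, hk⟩ := (hp.to_subgroup C) ⟨⁅x, y⁆, hC x y⟩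
  have h1 : cm C hC ν x y ^ (p ^ k) = 1 := by
    unfold cm
    rw [← map_pow, hk, map_one]
  have hcop : Nat.gcd 2 (p ^ k) = 1 :=
    (((Nat.coprime_primes Fact.out Nat.prime_two).2 hp2).pow_left k).symm
  have := pow_gcd_eq_one.2 ⟨h, h1⟩
  rwa [hcop, pow_one] at this

section
variable {Y L : Type} [Group Y] [Finite Y] [CommGroup L] {p : ℕ} [Fact p.Prime]

theorem CL3_alpha (hp : IsPGroup p Y) (hp2 : p ≠ 2)
    (C : Subgroup Y) (hC : ∀ x y : Y, ⁅x, y⁆ ∈ C) (ν : C →* ℂˣ) (δ : Y → L)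
    (b : L →* L →* ℂˣ) (hb : ∀ x y, b (δ x) (δ y) = DD C hC ν x y)
    (huyu : ∀ u y, δ (u * y * u) = δ u ^ 2 * δ y)
    (hmulC : ∀ w, ∀ c ∈ C, δ (w * c) = δ w * δ c)
    (hcard : ∀ S : Subgroup L,
      Nat.card {y : Y // δ y ∈ S} * Nat.card L = Nat.card S * Nat.card Y) :
    mn p (linQ b) ⊤ ≤ mn p (isoQ C hC ν) ⊤ := by
  obtain ⟨B, hB, -, hcB⟩ := mn_spec hp C (isoQ C hC ν)
    (CL3_good C hC ν fun x hx y hy => CL3_cc C hC ν x y hx hy) ⊤ le_top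
  have h1 : δ 1 = 1 := by
    have := hmulC 1 1 C.one_mem
    rw [mul_one] at this
    exact (mul_eq_left.1 this.symm)
  have hsq : ∀ u, δ (u ^ 2) = δ u ^ 2 := by
    intro u
    have := huyu u 1
    rw [mul_one, h1, mul_one] at this
    rw [sq u, this]
  have hinv : ∀ x, δ x⁻¹ = (δ x)⁻¹ := by
    intro x
    obtain ⟨u, -, hu⟩ := CL3_root hp hp2 ⊤ x (Subgroup.mem_top x)
    have h2 : δ (u * x⁻¹ * u) = δ u ^ 2 * δ x⁻¹ := huyu u x⁻¹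
    have h3 : u * x⁻¹ * u = 1 := by rw [← hu]; group
    rw [h3, h1, ← hsq, hu] at h2
    exact (inv_eq_of_mul_eq_one_right h2.symm).symm
  let S : Subgroup L :=
    { carrier := δ '' (B : Set Y)
      one_mem' := ⟨1, B.one_mem, h1⟩
      mul_mem' := by
        rintro _ _ ⟨x, hx, rfl⟩ ⟨y, hy, rfl⟩
        obtain ⟨u, huB, hu⟩ := CL3_root hp hp2 B x hx
        refine ⟨u * y * u, B.mul_mem (B.mul_mem huB hy) huB, ?_⟩
        rw [huyu, ← hsq, hu]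
      inv_mem' := by
        rintro _ ⟨x, hx, rfl⟩
        exact ⟨x⁻¹, B.inv_mem hx, hinv x⟩ }
  have hSmem : ∀ s, s ∈ S ↔ ∃ x ∈ B, δ x = s := fun s => Iff.rfl
  refine mn_le (linQ b) ⊤ S _ ?_ le_top ?_
  · intro s hs t ht
    obtain ⟨x, hx, rfl⟩ := (hSmem s).1 hs
    obtain ⟨y, hy, rfl⟩ := (hSmem t).1 ht
    rw [hb, DD, hB.2 x hx y hy, hB.2 _ (B.inv_mem hx) _ (B.inv_mem hy), one_mul]
  · have hle : Nat.card B ≤ Nat.card {y : Y // δ y ∈ S} := by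
      refine Nat.card_le_card_of_injective
        (fun y : B => (⟨y.1, (hSmem _).2 ⟨y.1, y.2, rfl⟩⟩ : {y : Y // δ y ∈ S})) ?_
      intro y z hyz
      exact Subtype.ext (congrArg (fun t : {y : Y // δ y ∈ S} => t.1) hyz)
    have hS := hcard S
    rw [Subgroup.card_top] at hcB ⊢
    have hBpos : 0 < Nat.card B := Nat.card_pos
    refine Nat.le_of_mul_le_mul_left ?_ hBpos
    calc Nat.card B * Nat.card L ≤ Nat.card {y : Y // δ y ∈ S} * Nat.card L :=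
          Nat.mul_le_mul_right _ hle
      _ = Nat.card S * Nat.card Y := hS
      _ = Nat.card B * (p ^ mn p (isoQ C hC ν) ⊤ * Nat.card S) := by rw [hcB]; ring

theorem CL3_beta [Finite L] (hp : IsPGroup p Y) (hpL : IsPGroup p L) (hp2 : p ≠ 2)
    (C : Subgroup Y) (hC : ∀ x y : Y, ⁅x, y⁆ ∈ C) (ν : C →* ℂˣ)
    (hν : ∀ c ∈ C, ∀ x y : Y, cm C hC ν ⁅c, x⁆ y = 1) (δ : Y → L)
    (b : L →* L →* ℂˣ) (hbb : ∀ x, b x x = 1) (hb : ∀ x y, b (δ x) (δ y) = DD C hC ν x y)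
    (huyu : ∀ u y, δ (u * y * u) = δ u ^ 2 * δ y)
    (hmulC : ∀ w, ∀ c ∈ C, δ (w * c) = δ w * δ c)
    (hcard : ∀ S : Subgroup L,
      Nat.card {y : Y // δ y ∈ S} * Nat.card L = Nat.card S * Nat.card Y) :
    mn p (isoQ C hC ν) ⊤ ≤ mn p (linQ b) ⊤ := by
  obtain ⟨S, hS, -, hcS⟩ := mn_spec hpL ⊥ (linQ b) (CL3_good' b) ⊤ bot_le
  have h1 : δ 1 = 1 := by
    have := hmulC 1 1 C.one_mem
    rw [mul_one] at this
    exact (mul_eq_left.1 this.symm)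
  have hsq : ∀ u, δ (u ^ 2) = δ u ^ 2 := by
    intro u
    have := huyu u 1
    rw [mul_one, h1, mul_one] at this
    rw [sq u, this]
  have hinv : ∀ x, δ x⁻¹ = (δ x)⁻¹ := by
    intro x
    obtain ⟨u, -, hu⟩ := CL3_root hp hp2 ⊤ x (Subgroup.mem_top x)
    have h2 : δ (u * x⁻¹ * u) = δ u ^ 2 * δ x⁻¹ := huyu u x⁻¹
    have h3 : u * x⁻¹ * u = 1 := by rw [← hu]; group
    rw [h3, h1, ← hsq, hu] at h2
    exact (inv_eq_of_mul_eq_one_right h2.symm).symm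
  let E : Subgroup L :=
    { carrier := δ '' (C : Set Y)
      one_mem' := ⟨1, C.one_mem, h1⟩
      mul_mem' := by
        rintro _ _ ⟨x, hx, rfl⟩ ⟨y, hy, rfl⟩
        exact ⟨x * y, C.mul_mem hx hy, hmulC x y hy⟩
      inv_mem' := by
        rintro _ ⟨x, hx, rfl⟩
        exact ⟨x⁻¹, C.inv_mem hx, hinv x⟩ }
  have hEmem : ∀ s, s ∈ E ↔ ∃ x ∈ C, δ x = s := fun s => Iff.rfl
  have hE : linQ b E := by
    intro s hs t ht
    obtain ⟨x, hx, rfl⟩ := (hEmem s).1 hs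
    obtain ⟨y, hy, rfl⟩ := (hEmem t).1 ht
    rw [hb, DD, CL3_cc C hC ν x y hx hy,
      CL3_cc C hC ν _ _ (C.inv_mem hx) (C.inv_mem hy), one_mul]
  obtain ⟨S1, hS1, hES1, hcS1⟩ := WITT b hbb S E hS hE
  have hCS1 : ∀ c ∈ C, δ c ∈ S1 := fun c hc => hES1 ((hEmem _).2 ⟨c, hc, rfl⟩)
  let B : Subgroup Y :=
    { carrier := {y | δ y ∈ S1}
      one_mem' := by
        change δ 1 ∈ S1
        rw [h1]
        exact S1.one_mem
      mul_mem' := by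
        intro x y hx hy
        change δ (x * y) ∈ S1
        change δ x ∈ S1 at hx
        change δ y ∈ S1 at hy
        obtain ⟨u, -, hu⟩ := CL3_root hp hp2 ⊤ x (Subgroup.mem_top x)
        have h2 : x * y = (u * y * u) * ⁅u⁻¹, y⁻¹⁆ := by
          rw [← hu, commutatorElement_def, sq]
          group
        rw [h2, hmulC _ _ (hC _ _), huyu, ← hsq, hu]
        exact S1.mul_mem (S1.mul_mem hx hy) (hCS1 _ (hC _ _))
      inv_mem' := by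
        intro x hx
        change δ x⁻¹ ∈ S1
        rw [hinv]
        exact S1.inv_mem hx }
  have hBmem : ∀ y, y ∈ B ↔ δ y ∈ S1 := fun y => Iff.rfl
  have hcw : ∀ c ∈ C, ∀ w ∈ B, cm C hC ν c w = 1 := by
    intro c hc w hw
    apply CL3_odd hp hp2
    rw [← DD_C C hC ν hν c w hc, ← hb]
    exact hS1 _ (hCS1 c hc) _ ((hBmem w).1 hw)
  refine mn_le (isoQ C hC ν) ⊤ B _ ⟨fun c hc => (hBmem c).2 (hCS1 c hc), ?_⟩ le_top ?_
  · intro x hx y hy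
    have hDD : DD C hC ν x y = 1 := by
      rw [← hb]
      exact hS1 _ ((hBmem x).1 hx) _ ((hBmem y).1 hy)
    have hwB : y * x ∈ B := B.mul_mem hy hx
    have hcC : ⁅x⁻¹, y⁻¹⁆ ∈ C := hC _ _
    have h2 := hcw _ hcC _ hwB
    have heq : (⟨⁅x⁻¹, y⁻¹⁆, hC _ _⟩ : C) = ⟨⁅⁅x⁻¹, y⁻¹⁆, y * x⁆, hC _ _⟩ * ⟨⁅x, y⁆, hC x y⟩ := by
      apply Subtype.ext
      change ⁅x⁻¹, y⁻¹⁆ = ⁅⁅x⁻¹, y⁻¹⁆, y * x⁆ * ⁅x, y⁆
      simp only [commutatorElement_def]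
      group
    have h3 : cm C hC ν x⁻¹ y⁻¹ = cm C hC ν x y := by
      have := congrArg ν heq
      rw [map_mul] at this
      unfold cm at h2 ⊢
      rw [this, h2, one_mul]
    rw [DD, h3, ← sq] at hDD
    exact CL3_odd hp hp2 C hC ν x y hDD
  · have hc1 := hcard S1
    have hBc : Nat.card {y : Y // δ y ∈ S1} = Nat.card B := rfl
    rw [hBc] at hc1
    rw [Subgroup.card_top] at hcS ⊢
    have hpos : 0 < Nat.card S1 := Nat.card_pos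
    refine Nat.le_of_mul_le_mul_left ?_ hpos
    calc Nat.card S1 * Nat.card Y = Nat.card B * Nat.card L := hc1.symm
      _ = Nat.card B * (p ^ mn p (linQ b) ⊤ * Nat.card S) := by rw [hcS]
      _ ≤ Nat.card B * (p ^ mn p (linQ b) ⊤ * Nat.card S1) := by gcongr
      _ = Nat.card S1 * (p ^ mn p (linQ b) ⊤ * Nat.card B) := by ring

end

theorem CL3_DD {G : Type} [Group G] (C : Subgroup G) (hC : ∀ x y : G, ⁅x, y⁆ ∈ C)
    (ρ μ : C →* ℂˣ) (m n : ℤ) (x y : G) :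
    DD C hC (ρ ^ m * μ ^ n) x y = DD C hC ρ x y ^ m * DD C hC μ x y ^ n := by
  simp only [DD, cm, MonoidHom.mul_apply, MonoidHom.zpow_apply]
  rw [mul_zpow, mul_zpow, mul_mul_mul_comm]

theorem CL3 {Y : Type} [Group Y] [Finite Y] {p : ℕ} [Fact p.Prime] (hp : IsPGroup p Y)
    (hp2 : p ≠ 2) (C : Subgroup Y) (hC : ∀ x y : Y, ⁅x, y⁆ ∈ C) (ρ μ : C →* ℂˣ)
    (hρ : ∀ c ∈ C, ∀ x y : Y, cm C hC ρ ⁅c, x⁆ y = 1)
    (hμ : ∀ c ∈ C, ∀ x y : Y, cm C hC μ ⁅c, x⁆ y = 1)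
    (T : Finset (ℤ × ℤ)) (hT : Indep p T) :
    ∑ P ∈ T, (mn p (isoQ C hC ρ) ⊤ - mn p (isoQ C hC (ρ ^ P.1 * μ ^ P.2)) ⊤) ≤
      mn p (isoQ C hC ρ) ⊤ := by
  obtain ⟨L, iL, fL, δ, bρ, bμ, hpL, -, hbρ, hbμ, hDρ, hDμ, huyu, hmulC, hcard⟩ :=
    CL3A hp hp2 C hC ρ μ hρ hμ
  have h0 : mn p (isoQ C hC ρ) ⊤ = mn p (linQ bρ) ⊤ :=
    le_antisymm (CL3_beta hp hpL hp2 C hC ρ hρ δ bρ hbρ hDρ huyu hmulC hcard)
      (CL3_alpha hp hp2 C hC ρ δ bρ hDρ huyu hmulC hcard)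
  rw [h0]
  refine le_trans (Finset.sum_le_sum fun P _ => ?_) (LIN hpL bρ bμ hbρ hbμ T hT ⊤)
  refine Nat.sub_le_sub_left ?_ _
  refine CL3_alpha hp hp2 C hC _ δ _ ?_ huyu hmulC hcard
  intro x y
  rw [CL3_DD, ← hDρ, ← hDμ, MonoidHom.mul_apply, MonoidHom.mul_apply, MonoidHom.zpow_apply,
    MonoidHom.zpow_apply, MonoidHom.zpow_apply, MonoidHom.zpow_apply]

end Pool.Agent.Helper89.MD
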