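import Pool.Agent.Helper89.MD.Defs

set_option autoImplicit false

open scoped commutatorElement

namespace Pool.Agent.Helper89.MD

/-- extension of characters for finite abelian groups with values in `ℂˣ` -/
theorem EXT_abelian {Q : Type} [CommGroup Q] [Finite Q] (H : Subgroup Q) (ν : H →* ℂˣ) :
    ∃ θ : Q →* ℂˣ, ∀ h : H, θ h = ν h := by
  have h0 : Monoid.exponent Q ≠ 0 := Monoid.exponent_ne_zero_of_finite
  have : NeZero ((Monoid.exponent Q : ℕ) : ℂ) := ⟨by exact_mod_cast h0⟩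
  have : HasEnoughRootsOfUnity ℂ (Monoid.exponent Q) := inferInstance
  obtain ⟨θ, hθ⟩ := MonoidHom.domRestrict_surjective (M := ℂ) H ν
  exact ⟨θ, fun h => DFunLike.congr_fun hθ h⟩

theorem EXT {G : Type} [Group G] [Finite G] (C : Subgroup G) (hC : ∀ x y : G, ⁅x, y⁆ ∈ C)
    (ν : C →* ℂˣ) (B : Subgroup G) (hB : isoQ C hC ν B) :
    ∃ θ : B →* ℂˣ, ∀ (c : G) (hc : c ∈ C) (hcB : c ∈ B), θ ⟨c, hcB⟩ = ν ⟨c, hc⟩ := by
  obtain ⟨hCB, hcm⟩ := hB
  let N : Subgroup B :=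
    { carrier := {b | ∃ hc : (b : G) ∈ C, ν ⟨b, hc⟩ = 1}
      one_mem' := ⟨C.one_mem, map_one ν⟩
      mul_mem' := by
        rintro a b ⟨ha, ha'⟩ ⟨hb, hb'⟩
        refine ⟨C.mul_mem ha hb, ?_⟩
        have : (⟨((a * b : B) : G), C.mul_mem ha hb⟩ : C) = ⟨a, ha⟩ * ⟨b, hb⟩ := rfl
        rw [this, map_mul, ha', hb', one_mul]
      inv_mem' := by
        rintro a ⟨ha, ha'⟩
        refine ⟨C.inv_mem ha, ?_⟩
        have : (⟨((a⁻¹ : B) : G), C.inv_mem ha⟩ : C) = (⟨a, ha⟩ : C)⁻¹ := rfl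
        rw [this, map_inv, ha', inv_one] }
  have hNmem : ∀ b : B, b ∈ N ↔ ∃ hc : (b : G) ∈ C, ν ⟨b, hc⟩ = 1 := fun b => Iff.rfl
  have hcomm : ∀ x y : B, ⁅x, y⁆ ∈ N := fun x y => ⟨hC x y, hcm x x.2 y y.2⟩
  have hNn : N.Normal := by
    refine ⟨fun n hn g => ?_⟩
    have h1 : g * n * g⁻¹ = ⁅g, n⁆ * n := by
      rw [commutatorElement_def]; group
    rw [h1]
    exact N.mul_mem (hcomm g n) hn
  let _ : CommGroup (B ⧸ N) :=
    { (inferInstance : Group (B ⧸ N)) with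
      mul_comm := by
        intro a b
        obtain ⟨x, rfl⟩ := QuotientGroup.mk_surjective a
        obtain ⟨y, rfl⟩ := QuotientGroup.mk_surjective b
        rw [← QuotientGroup.mk_mul, ← QuotientGroup.mk_mul, QuotientGroup.eq]
        have h1 : (x * y)⁻¹ * (y * x) = ⁅y⁻¹, x⁻¹⁆ := by
          rw [commutatorElement_def]; group
        rw [h1]
        exact hcomm _ _ }
  let f := (QuotientGroup.mk' N).subgroupMap (C.subgroupOf B)
  have hf : Function.Surjective f := (QuotientGroup.mk' N).subgroupMap_surjective _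
  let νB : C.subgroupOf B →* ℂˣ := ν.comp (B.subtype.subgroupComap C)
  have hker : f.ker ≤ νB.ker := by
    intro x hx
    have h1 : (QuotientGroup.mk' N) (x : B) = 1 := congrArg Subtype.val (MonoidHom.mem_ker.mp hx)
    have h2 : (x : B) ∈ N := (QuotientGroup.eq_one_iff _).mp h1
    obtain ⟨hc, hc'⟩ := h2
    exact hc'
  let ν' := f.liftOfSurjective hf ⟨νB, hker⟩
  have hν' : ∀ x, ν' (f x) = νB x := fun x =>
    f.liftOfRightInverse_comp_apply _ (Function.rightInverse_surjInv hf) ⟨νB, hker⟩ x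
  obtain ⟨θ, hθ⟩ := EXT_abelian ((C.subgroupOf B).map (QuotientGroup.mk' N)) ν'
  refine ⟨θ.comp (QuotientGroup.mk' N), fun c hc hcB => ?_⟩
  have h1 := hθ (f ⟨⟨c, hcB⟩, hc⟩)
  rw [hν'] at h1
  exact h1

end Pool.Agent.Helper89.MD
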