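import Pool.Agent.Helper89.MD.MAXL

set_option autoImplicit false

open scoped commutatorElement

namespace Pool.Agent.Helper89.MD

section GRPA

variable {G : Type} [Group G] (C : Subgroup G) (hC : ∀ x y : G, ⁅x, y⁆ ∈ C)

include hC in
theorem GRPA_conj_mem (g c : G) (hc : c ∈ C) : g * c * g⁻¹ ∈ C := by
  have h1 : g * c * g⁻¹ = ⁅g, c⁆ * c := by
    rw [commutatorElement_def]; group
  rw [h1]
  exact C.mul_mem (hC g c) hc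

/-- the conjugate character -/
def GRPA_lam (g : G) (ψ : C →* ℂˣ) : C →* ℂˣ where
  toFun c := ψ ⟨g * c * g⁻¹, GRPA_conj_mem C hC g c c.2⟩
  map_one' := by
    rw [← map_one ψ]
    congr 1
    apply Subtype.ext
    simp
  map_mul' c d := by
    rw [← map_mul]
    congr 1
    apply Subtype.ext
    change g * ((c : G) * d) * g⁻¹ = (g * c * g⁻¹) * (g * d * g⁻¹)
    group

theorem GRPA_lam_apply (g : G) (ψ : C →* ℂˣ) (c : C) :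
    GRPA_lam C hC g ψ c = ψ ⟨g * c * g⁻¹, GRPA_conj_mem C hC g c c.2⟩ := rfl

theorem GRPA_lam_mul (g h : G) (ψ : C →* ℂˣ) :
    GRPA_lam C hC (g * h) ψ = GRPA_lam C hC h (GRPA_lam C hC g ψ) := by
  ext c
  rw [GRPA_lam_apply, GRPA_lam_apply, GRPA_lam_apply]
  congr 2
  apply Subtype.ext
  change g * h * (c : G) * (g * h)⁻¹ = g * (h * c * h⁻¹) * g⁻¹
  group

theorem GRPA_lam_mem (g : G) (hg : g ∈ C) (ψ : C →* ℂˣ) : GRPA_lam C hC g ψ = ψ := by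
  ext c
  rw [GRPA_lam_apply]
  have h1 : (⟨g * c * g⁻¹, GRPA_conj_mem C hC g c c.2⟩ : C) = ⟨g, hg⟩ * c * ⟨g, hg⟩⁻¹ := rfl
  rw [h1, map_mul, map_mul, map_inv, mul_comm (ψ _) (ψ c), mul_assoc, mul_inv_cancel, mul_one]

theorem GRPA_lam_comm (g h : G) (ψ : C →* ℂˣ) :
    GRPA_lam C hC (g * h) ψ = GRPA_lam C hC (h * g) ψ := by
  have h1 : g * h = ⁅g, h⁆ * (h * g) := by rw [commutatorElement_def]; group
  rw [h1, GRPA_lam_mul, GRPA_lam_mem C hC _ (hC g h)]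

/-- the stabiliser of a character of `C` -/
def GRPA_St (ψ : C →* ℂˣ) : Subgroup G where
  carrier := {g | GRPA_lam C hC g ψ = ψ}
  mul_mem' {g h} hg hh := by
    have hg : GRPA_lam C hC g ψ = ψ := hg
    have hh : GRPA_lam C hC h ψ = ψ := hh
    change GRPA_lam C hC (g * h) ψ = ψ
    rw [GRPA_lam_mul, hg, hh]
  one_mem' := GRPA_lam_mem C hC 1 C.one_mem ψ
  inv_mem' {g} hg := by
    have hg : GRPA_lam C hC g ψ = ψ := hg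
    change GRPA_lam C hC g⁻¹ ψ = ψ
    have h1 : GRPA_lam C hC (g * g⁻¹) ψ = ψ := by
      rw [mul_inv_cancel]
      exact GRPA_lam_mem C hC 1 C.one_mem ψ
    rw [GRPA_lam_mul, hg] at h1
    exact h1

theorem GRPA_le_St (ψ : C →* ℂˣ) : C ≤ GRPA_St C hC ψ := fun g hg =>
  GRPA_lam_mem C hC g hg ψ

theorem GRPA_cm (ψ : C →* ℂˣ) (c : C) (g : G) :
    cm C hC ψ c g = ψ c * (GRPA_lam C hC g ψ c)⁻¹ := by
  rw [GRPA_lam_apply, ← map_inv, ← map_mul]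
  unfold cm
  congr 1
  apply Subtype.ext
  change ⁅(c : G), g⁆ = (c : G) * (g * c * g⁻¹)⁻¹
  rw [commutatorElement_def]
  group

theorem GRPA_cm_eq_one (ψ : C →* ℂˣ) (g : G) :
    (∀ c ∈ C, cm C hC ψ c g = 1) ↔ g ∈ GRPA_St C hC ψ := by
  constructor
  · intro h
    change GRPA_lam C hC g ψ = ψ
    ext c
    have := h c c.2
    rw [GRPA_cm, mul_inv_eq_one] at this
    rw [this]
  · intro h c hc
    have h : GRPA_lam C hC g ψ = ψ := h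
    have := GRPA_cm C hC ψ ⟨c, hc⟩ g
    rw [h, mul_inv_cancel] at this
    exact this

/-- the character `c ↦ ν ⁅c, x⁆` -/
def GRPA_psi (ν : C →* ℂˣ) (x : G) : C →* ℂˣ := ν * (GRPA_lam C hC x ν)⁻¹

theorem GRPA_psi_apply (ν : C →* ℂˣ) (x : G) (c : C) :
    GRPA_psi C hC ν x c = cm C hC ν c x := (GRPA_cm C hC ν c x).symm

theorem GRPA_lam_hom (g : G) (ψ χ : C →* ℂˣ) :
    GRPA_lam C hC g (ψ * χ) = GRPA_lam C hC g ψ * GRPA_lam C hC g χ := rfl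

theorem GRPA_lam_inv (g : G) (ψ : C →* ℂˣ) :
    GRPA_lam C hC g ψ⁻¹ = (GRPA_lam C hC g ψ)⁻¹ := rfl

/-- (S) -/
theorem GRPA_symm (ν : C →* ℂˣ) (c x y : G) (hc : c ∈ C) :
    cm C hC ν ⁅c, x⁆ y = cm C hC ν ⁅c, y⁆ x := by
  have key : ∀ (c : C) (x y : G), cm C hC ν ⁅(c : G), x⁆ y =
      ν c * (GRPA_lam C hC x ν c)⁻¹ * (GRPA_lam C hC y ν c)⁻¹ * GRPA_lam C hC (y * x) ν c := by
    intro c x y
    have h1 := GRPA_cm C hC ν ⟨⁅(c : G), x⁆, hC _ _⟩ y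
    have h2 : ∀ ψ : C →* ℂˣ, ψ ⟨⁅(c : G), x⁆, hC _ _⟩ = ψ c * (GRPA_lam C hC x ψ c)⁻¹ := by
      intro ψ
      rw [← GRPA_cm]
      rfl
    rw [h2, h2 (GRPA_lam C hC y ν), ← GRPA_lam_mul] at h1
    change cm C hC ν ⁅(c : G), x⁆ y = _ at h1
    rw [h1, mul_inv, inv_inv, ← mul_assoc]
  rw [key ⟨c, hc⟩ x y, key ⟨c, hc⟩ y x, GRPA_lam_comm C hC y x]
  rw [mul_right_comm (ν ⟨c, hc⟩)]

theorem GRPA_tri (ν : C →* ℂˣ) (x y : G) :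
    (∀ c ∈ C, cm C hC ν ⁅c, y⁆ x = 1) ↔ y ∈ GRPA_St C hC (GRPA_psi C hC ν x) := by
  rw [← GRPA_cm_eq_one]
  refine forall₂_congr fun c hc => ?_
  have h1 : cm C hC (GRPA_psi C hC ν x) c y = cm C hC ν ⁅c, y⁆ x := by
    change GRPA_psi C hC ν x ⟨⁅c, y⁆, hC c y⟩ = _
    rw [GRPA_psi_apply]
  rw [h1]

end GRPA

theorem GRPA_two {p : ℕ} (hp : p.Prime) (u v : ℂˣ) (a b c d : ℤ)
    (hdet : ¬ (p : ℤ) ∣ a * d - b * c) (h1 : u ^ a * v ^ b = 1) (h2 : u ^ c * v ^ d = 1)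
    (hu : ∃ k : ℕ, u ^ p ^ k = 1) (hv : ∃ k : ℕ, v ^ p ^ k = 1) : u = 1 ∧ v = 1 := by
  have hcop : ∀ k : ℕ, IsCoprime (a * d - b * c) ((p ^ k : ℕ) : ℤ) := by
    intro k
    rw [Nat.cast_pow]
    apply IsCoprime.pow_right
    rw [isCoprime_comm]
    exact (Prime.coprime_iff_not_dvd (Nat.prime_iff_prime_int.mp hp)).mpr hdet
  have key : ∀ w : ℂˣ, w ^ (a * d - b * c) = 1 → (∃ k : ℕ, w ^ p ^ k = 1) → w = 1 := by
    rintro w hw ⟨k, hk⟩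
    obtain ⟨s, t, hst⟩ := hcop k
    have : w ^ (s * (a * d - b * c) + t * ((p ^ k : ℕ) : ℤ)) = 1 := by
      rw [zpow_add, mul_comm s, zpow_mul, hw, one_zpow, one_mul, mul_comm t, zpow_mul,
        zpow_natCast, hk, one_zpow]
    rwa [hst, zpow_one] at this
  have aux : ∀ (u v : ℂˣ) (a b c d : ℤ),
      u ^ (a * d - b * c) = (u ^ a * v ^ b) ^ d * ((u ^ c * v ^ d) ^ b)⁻¹ := by
    intro u v a b c d
    rw [mul_zpow, mul_zpow, ← zpow_mul, ← zpow_mul, ← zpow_mul, ← zpow_mul, mul_comm d b,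
      mul_comm c b, zpow_sub, mul_inv_rev, mul_assoc, mul_inv_cancel_left]
  refine ⟨key u ?_ hu, key v ?_ hv⟩
  · rw [aux u v, h1, h2]
    simp
  · have h3 := aux v u d c b a
    rw [mul_comm (v ^ d), mul_comm (v ^ b), h1, h2] at h3
    rw [mul_comm a d, mul_comm b c, h3]
    simp

theorem GRPA {G : Type} [Group G] [Finite G] {p : ℕ} [Fact p.Prime] (hp : IsPGroup p G)
    (C : Subgroup G) (hC : ∀ x y : G, ⁅x, y⁆ ∈ C) (ρ μ : C →* ℂˣ) (T : Finset (ℤ × ℤ))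
    (hT : Indep p T) (hne : T.Nonempty) (H : Subgroup G) (hCH : C ≤ H)
    (h : ∀ P0 ∈ T, ∀ M : Subgroup G, C ≤ M → M ≤ H → Nat.card H = p * Nat.card M →
      ∃ P ∈ T, P ≠ P0 ∧ ∃ g ∈ H, g ∉ M ∧ ∀ c ∈ C, cm C hC (ρ ^ P.1 * μ ^ P.2) c g = 1) :
    (∀ c ∈ C, ∀ x ∈ H, ∀ y ∈ H, cm C hC ρ ⁅c, x⁆ y = 1) ∧
    (∀ c ∈ C, ∀ x ∈ H, ∀ y ∈ H, cm C hC μ ⁅c, x⁆ y = 1) := by
  classical
  have hpp : p.Prime := Fact.out
  let X : ℤ × ℤ → Subgroup G := fun P => H ⊓ GRPA_St C hC (ρ ^ P.1 * μ ^ P.2)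
  let J : ℤ × ℤ → Subgroup G := fun P0 => C ⊔ ⨆ P ∈ {P | P ∈ T ∧ P ≠ P0}, X P
  have hJ : ∀ P0 ∈ T, J P0 = H := by
    intro P0 hP0
    apply eq_of_no_max hp
    · apply sup_le hCH
      apply iSup₂_le
      intro P hP
      exact inf_le_left
    · intro M hJM hMH hc
      obtain ⟨P, hP, hPne, g, hgH, hgM, hg⟩ := h P0 hP0 M (le_sup_left.trans hJM) hMH hc
      apply hgM
      apply hJM
      apply Subgroup.mem_sup_right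
      have h1 : X P ≤ ⨆ P ∈ {P | P ∈ T ∧ P ≠ P0}, X P :=
        le_iSup₂_of_le P ⟨hP, hPne⟩ le_rfl
      exact h1 ⟨hgH, (GRPA_cm_eq_one C hC _ g).mp hg⟩
  -- values have p-power order
  have hpow : ∀ (ν : C →* ℂˣ) (x y : G), ∃ k : ℕ, (cm C hC ν x y) ^ p ^ k = 1 := by
    intro ν x y
    obtain ⟨k, hk⟩ := hp (⁅x, y⁆)
    refine ⟨k, ?_⟩
    unfold cm
    rw [← map_pow]
    have : (⟨⁅x, y⁆, hC x y⟩ : C) ^ p ^ k = 1 := Subtype.ext hk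
    rw [this, map_one]
  have hcmP : ∀ (P : ℤ × ℤ) (x y : G), cm C hC (ρ ^ P.1 * μ ^ P.2) x y =
      cm C hC ρ x y ^ P.1 * cm C hC μ x y ^ P.2 := fun P x y => rfl
  have hXX : ∀ P ∈ T, ∀ Q ∈ T, P ≠ Q → ∀ x ∈ X P, ∀ y ∈ X Q, ∀ c ∈ C,
      cm C hC ρ ⁅c, x⁆ y = 1 ∧ cm C hC μ ⁅c, x⁆ y = 1 := by
    intro P hP Q hQ hPQ x hx y hy c hc
    have h1 : cm C hC (ρ ^ P.1 * μ ^ P.2) ⁅c, x⁆ y = 1 := by
      rw [GRPA_symm C hC _ c x y hc]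
      exact (GRPA_cm_eq_one C hC _ x).mpr hx.2 _ (hC c y)
    have h2 : cm C hC (ρ ^ Q.1 * μ ^ Q.2) ⁅c, x⁆ y = 1 :=
      (GRPA_cm_eq_one C hC _ y).mpr hy.2 _ (hC c x)
    rw [hcmP] at h1 h2
    exact GRPA_two hpp _ _ P.1 P.2 Q.1 Q.2 (hT P hP Q hQ hPQ) h1 h2 (hpow _ _ _) (hpow _ _ _)
  have main : ∀ ν : C →* ℂˣ, (∀ P ∈ T, ∀ Q ∈ T, P ≠ Q → ∀ x ∈ X P, ∀ y ∈ X Q, ∀ c ∈ C,
      cm C hC ν ⁅c, x⁆ y = 1) → ∀ c ∈ C, ∀ x ∈ H, ∀ y ∈ H, cm C hC ν ⁅c, x⁆ y = 1 := by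
    intro ν hν
    have h1 : ∀ P0 ∈ T, ∀ x ∈ X P0, H ≤ GRPA_St C hC (GRPA_psi C hC ν x) := by
      intro P0 hP0 x hx
      rw [← hJ P0 hP0]
      apply sup_le (GRPA_le_St C hC _)
      apply iSup₂_le
      rintro P ⟨hP, hPne⟩ y hy
      rw [← GRPA_tri]
      intro c hc
      exact hν P hP P0 hP0 hPne y hy x hx c hc
    have h2 : ∀ y ∈ H, H ≤ GRPA_St C hC (GRPA_psi C hC ν y) := by
      intro y hy
      obtain ⟨P0, hP0⟩ := hne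
      conv_lhs => rw [← hJ P0 hP0]
      apply sup_le (GRPA_le_St C hC _)
      apply iSup₂_le
      rintro P ⟨hP, hPne⟩ x hx
      rw [← GRPA_tri]
      intro c hc
      rw [GRPA_symm C hC ν c x y hc]
      exact (GRPA_tri C hC ν x y).mpr (h1 P hP x hx hy) c hc
    intro c hc x hx y hy
    exact (GRPA_tri C hC ν y x).mpr (h2 y hy hx) c hc
  exact ⟨main ρ fun P hP Q hQ hPQ x hx y hy c hc => (hXX P hP Q hQ hPQ x hx y hy c hc).1,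
    main μ fun P hP Q hQ hPQ x hx y hy c hc => (hXX P hP Q hQ hPQ x hx y hy c hc).2⟩

end Pool.Agent.Helper89.MD
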