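import Mathlib
import Pool.Agent.Helper89.MD.Defs

set_option autoImplicit false

open scoped commutatorElement

namespace Pool.Agent.Helper89.MD

theorem isoQ_good {G : Type} [Group G] (C : Subgroup G) (hC : ∀ x y : G, ⁅x, y⁆ ∈ C)
    (ν : C →* ℂˣ) : Good C (isoQ C hC ν) := by
  refine ⟨⟨le_refl _, ?_⟩, ?_⟩
  · intro x hx y hy
    unfold cm
    have e : (⟨⁅x, y⁆, hC x y⟩ : C) = ⁅(⟨x, hx⟩ : C), (⟨y, hy⟩ : C)⁆ := Subtype.ext rfl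
    rw [e, map_commutatorElement, commutatorElement_eq_one_iff_mul_comm]
    exact mul_comm _ _
  · intro B M hB hM
    refine ⟨le_inf hB.1 hM, ?_⟩
    intro x hx y hy
    exact hB.2 x hx.1 y hy.1

lemma SMALL_zero {G : Type} [Group G] [Finite G] {p : ℕ} (hp : 1 < p)
    (C : Subgroup G) (hC : ∀ x y : G, ⁅x, y⁆ ∈ C) (ν : C →* ℂˣ)
    (h : mn p (isoQ C hC ν) ⊤ = 0) : isoQ C hC ν ⊤ := by
  have hne : {k | ∃ B : Subgroup G, isoQ C hC ν B ∧ B ≤ ⊤ ∧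
      Nat.card (⊤ : Subgroup G) ≤ p ^ k * Nat.card B}.Nonempty := by
    refine ⟨Nat.card (⊤ : Subgroup G), C, (isoQ_good C hC ν).base, le_top, ?_⟩
    have h1 : Nat.card (⊤ : Subgroup G) ≤ p ^ Nat.card (⊤ : Subgroup G) :=
      (Nat.lt_pow_self hp).le
    have h2 : 0 < Nat.card C := Nat.card_pos
    exact h1.trans (Nat.le_mul_of_pos_right _ h2)
  have h0 := Nat.sInf_mem hne
  have h' : sInf {k | ∃ B : Subgroup G, isoQ C hC ν B ∧ B ≤ ⊤ ∧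
      Nat.card (⊤ : Subgroup G) ≤ p ^ k * Nat.card B} = 0 := h
  rw [h'] at h0
  obtain ⟨B, hB, _, hcard⟩ := h0
  rw [pow_zero, one_mul] at hcard
  have hB' : B = ⊤ := by
    refine Subgroup.eq_of_le_of_card_ge le_top hcard
  rw [← hB']
  exact hB

lemma SMALL_zero' {G : Type} [Group G] {p : ℕ}
    (C : Subgroup G) (hC : ∀ x y : G, ⁅x, y⁆ ∈ C) (ν : C →* ℂˣ)
    (h : isoQ C hC ν ⊤) : mn p (isoQ C hC ν) ⊤ = 0 := by
  refine Nat.le_zero.1 (Nat.sInf_le ⟨⊤, h, le_refl _, ?_⟩)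
  rw [pow_zero, one_mul]

lemma SMALL_zpow {p k : ℕ} (hp : p.Prime) {a b : ℂˣ} (P Q : ℤ × ℤ)
    (hPQ : ¬ (p : ℤ) ∣ P.1 * Q.2 - P.2 * Q.1) (ha : a ^ (p ^ k) = 1)
    (h1 : a ^ P.1 * b ^ P.2 = 1) (h2 : a ^ Q.1 * b ^ Q.2 = 1) : a = 1 := by
  have h3 : a ^ (P.1 * Q.2 - P.2 * Q.1) = 1 := by
    have e1 : (a ^ P.1 * b ^ P.2) ^ Q.2 = 1 := by rw [h1, one_zpow]
    have e2 : (a ^ Q.1 * b ^ Q.2) ^ P.2 = 1 := by rw [h2, one_zpow]
    rw [mul_zpow, ← zpow_mul, ← zpow_mul] at e1 e2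
    have e3 : a ^ (P.1 * Q.2) = a ^ (Q.1 * P.2) := by
      have e4 : a ^ (P.1 * Q.2) * b ^ (P.2 * Q.2) = a ^ (Q.1 * P.2) * b ^ (P.2 * Q.2) := by
        rw [e1, mul_comm P.2 Q.2, e2]
      exact mul_right_cancel e4
    rw [zpow_sub, e3, mul_comm P.2 Q.1, mul_inv_cancel]
  have h4 : a ^ ((p ^ k : ℕ) : ℤ) = 1 := by
    rw [zpow_natCast]
    exact ha
  have hcop : IsCoprime (((p ^ k : ℕ) : ℤ)) (P.1 * Q.2 - P.2 * Q.1) := by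
    rw [Nat.cast_pow]
    refine IsCoprime.pow_left ?_
    exact (Nat.prime_iff_prime_int.1 hp).coprime_iff_not_dvd.2 hPQ
  obtain ⟨u, v, huv⟩ := hcop
  have h5 : a ^ (u * ((p ^ k : ℕ) : ℤ) + v * (P.1 * Q.2 - P.2 * Q.1)) = 1 := by
    rw [zpow_add, mul_comm u, mul_comm v, zpow_mul, zpow_mul, h4, h3, one_zpow, one_zpow, one_mul]
  rw [huv, zpow_one] at h5
  exact h5

theorem SMALL {G : Type} [Group G] [Finite G] {p : ℕ} [Fact p.Prime] (hp : IsPGroup p G)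
    (C : Subgroup G) (hC : ∀ x y : G, ⁅x, y⁆ ∈ C) (ρ μ : C →* ℂˣ)
    (T : Finset (ℤ × ℤ)) (hT : Indep p T) (h1 : mn p (isoQ C hC ρ) ⊤ ≤ 1) :
    ∑ P ∈ T, (mn p (isoQ C hC ρ) ⊤ - mn p (isoQ C hC (ρ ^ P.1 * μ ^ P.2)) ⊤) ≤
      mn p (isoQ C hC ρ) ⊤ := by
  have hpp : p.Prime := Fact.out
  by_cases hall : ∀ P ∈ T,
      mn p (isoQ C hC ρ) ⊤ - mn p (isoQ C hC (ρ ^ P.1 * μ ^ P.2)) ⊤ = 0
  · rw [Finset.sum_eq_zero hall]
    exact Nat.zero_le _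
  · push Not at hall
    obtain ⟨P0, hP0, hne⟩ := hall
    have hm0 : mn p (isoQ C hC ρ) ⊤ = 1 := by omega
    have hmP0 : mn p (isoQ C hC (ρ ^ P0.1 * μ ^ P0.2)) ⊤ = 0 := by omega
    have hothers : ∀ P ∈ T, P ≠ P0 →
        mn p (isoQ C hC ρ) ⊤ - mn p (isoQ C hC (ρ ^ P.1 * μ ^ P.2)) ⊤ = 0 := by
      intro P hP hPP
      by_contra hcon
      have hmP : mn p (isoQ C hC (ρ ^ P.1 * μ ^ P.2)) ⊤ = 0 := by omega
      have i0 := SMALL_zero hpp.one_lt C hC _ hmP0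
      have i1 := SMALL_zero hpp.one_lt C hC _ hmP
      have hiso : isoQ C hC ρ ⊤ := by
        refine ⟨le_top, ?_⟩
        intro x _ y _
        have j0 := i0.2 x (Subgroup.mem_top x) y (Subgroup.mem_top y)
        have j1 := i1.2 x (Subgroup.mem_top x) y (Subgroup.mem_top y)
        unfold cm at j0 j1 ⊢
        rw [MonoidHom.mul_apply] at j0 j1
        have j0' : ρ ⟨⁅x, y⁆, hC x y⟩ ^ P0.1 * μ ⟨⁅x, y⁆, hC x y⟩ ^ P0.2 = 1 := j0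
        have j1' : ρ ⟨⁅x, y⁆, hC x y⟩ ^ P.1 * μ ⟨⁅x, y⁆, hC x y⟩ ^ P.2 = 1 := j1
        obtain ⟨k, hk⟩ := hp ⁅x, y⁆
        have hk' : ρ ⟨⁅x, y⁆, hC x y⟩ ^ (p ^ k) = 1 := by
          rw [← map_pow]
          have e : (⟨⁅x, y⁆, hC x y⟩ : C) ^ (p ^ k) = 1 := Subtype.ext (by simpa using hk)
          rw [e, map_one]
        exact SMALL_zpow hpp P0 P (hT P0 hP0 P hP (Ne.symm hPP)) hk' j0' j1'
      have := SMALL_zero' (p := p) C hC ρ hiso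
      omega
    rw [Finset.sum_eq_single P0 hothers (fun h => absurd hP0 h)]
    exact Nat.sub_le _ _

end Pool.Agent.Helper89.MD
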