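import Pool.Agent.Helper89.MD.Defs

set_option autoImplicit false

open scoped commutatorElement

namespace Pool.Agent.Helper89.MD

/-! ## Module TRANS -/

theorem TRANS_cm {G : Type} [Group G] (C : Subgroup G)
    (hC : ∀ x y : G, ⁅x, y⁆ ∈ C) (ν : C →* ℂˣ) (H : Subgroup G)
    (hC' : ∀ x y : H, ⁅x, y⁆ ∈ C.subgroupOf H) (x y : H) :
    cm (C.subgroupOf H) hC' (ν.comp (H.subtype.subgroupComap C)) x y =
      cm C hC ν (x : G) (y : G) := by
  unfold cm
  rfl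

theorem mn_transfer {G : Type} [Group G] [Finite G] {p : ℕ} (C : Subgroup G)
    (hC : ∀ x y : G, ⁅x, y⁆ ∈ C) (ν : C →* ℂˣ) (H : Subgroup G) (hCH : C ≤ H)
    (hC' : ∀ x y : H, ⁅x, y⁆ ∈ C.subgroupOf H) :
    mn p (isoQ (C.subgroupOf H) hC' (ν.comp (H.subtype.subgroupComap C))) ⊤ =
      mn p (isoQ C hC ν) H := by
  unfold mn
  congr 1
  ext k
  simp only [Set.mem_ofPred_eq]
  constructor
  · rintro ⟨B, ⟨hCB, hB⟩, -, hcard⟩
    refine ⟨B.map H.subtype, ⟨?_, ?_⟩, ?_, ?_⟩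
    · intro c hc
      exact ⟨⟨c, hCH hc⟩, hCB hc, rfl⟩
    · rintro _ ⟨x, hx, rfl⟩ _ ⟨y, hy, rfl⟩
      have := hB x hx y hy
      rw [TRANS_cm C hC ν H hC'] at this
      exact this
    · rintro _ ⟨x, -, rfl⟩
      exact x.2
    · rw [Subgroup.card_top] at hcard
      rwa [Subgroup.card_map_of_injective H.subtype_injective]
  · rintro ⟨B, ⟨hCB, hB⟩, hBH, hcard⟩
    refine ⟨B.subgroupOf H, ⟨?_, ?_⟩, le_top, ?_⟩
    · intro c hc
      exact hCB hc
    · intro x hx y hy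
      rw [TRANS_cm C hC ν H hC']
      exact hB _ hx _ hy
    · rw [Subgroup.card_top]
      rwa [Nat.card_congr (Subgroup.subgroupOfEquivOfLe hBH).toEquiv]

end Pool.Agent.Helper89.MD
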