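import Pool.Agent.Helper89.MD.Defs
import Pool.Agent.Helper89.MD.EE
import Pool.Agent.Helper89.MD.AL
import Pool.Agent.Helper89.MD.CL3
import Pool.Agent.Helper89.MD.GRPA
import Pool.Agent.Helper89.MD.TRANS
import Pool.Agent.Helper89.MD.SMALL

set_option autoImplicit false

open scoped commutatorElement

namespace Pool.Agent.Helper89.MD

theorem GRP_cm_mul {G : Type} [Group G] (C : Subgroup G) (hC : ∀ x y : G, ⁅x, y⁆ ∈ C)
    (ρ μ : C →* ℂˣ) (P : ℤ × ℤ) (x y : G) :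
    cm C hC (ρ ^ P.1 * μ ^ P.2) x y = cm C hC ρ x y ^ P.1 * cm C hC μ x y ^ P.2 := rfl

theorem GRP {G : Type} [Group G] [Finite G] {p : ℕ} [Fact p.Prime] (hp : IsPGroup p G)
    (hp2 : p ≠ 2) (C : Subgroup G) (hC : ∀ x y : G, ⁅x, y⁆ ∈ C) (ρ μ : C →* ℂˣ)
    (T : Finset (ℤ × ℤ)) (hT : Indep p T) (H : Subgroup G) (hCH : C ≤ H) :
    ∑ P ∈ T, (mn p (isoQ C hC ρ) H - mn p (isoQ C hC (ρ ^ P.1 * μ ^ P.2)) H) ≤
      mn p (isoQ C hC ρ) H := by
  classical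
  refine AL hp C T (isoQ C hC ρ) (fun P => isoQ C hC (ρ ^ P.1 * μ ^ P.2))
    (isoQ_good C hC _) (fun P _ => isoQ_good C hC _) ?_ H hCH
  intro H hCH hex hM
  set T' := T.filter (fun P => mn p (isoQ C hC (ρ ^ P.1 * μ ^ P.2)) H < mn p (isoQ C hC ρ) H)
    with hT'
  have hT'I : Indep p T' := fun P hP Q hQ => hT P (Finset.mem_filter.mp hP).1 Q
    (Finset.mem_filter.mp hQ).1
  have hne : T'.Nonempty := by
    obtain ⟨P, hP, hlt⟩ := hex
    exact ⟨P, Finset.mem_filter.mpr ⟨hP, hlt⟩⟩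
  have key := GRPA hp C hC ρ μ T' hT'I hne H hCH (by
    intro P0 hP0 M hCM hMH hidx
    obtain ⟨hP0T, hP0lt⟩ := Finset.mem_filter.mp hP0
    obtain ⟨P, hP, hPne, hPlt, hPeq⟩ := hM P0 hP0T hP0lt M hCM hMH hidx
    refine ⟨P, Finset.mem_filter.mpr ⟨hP, hPlt⟩, hPne, ?_⟩
    by_contra hcon
    push Not at hcon
    have h3 := mn_drop hp C (isoQ C hC (ρ ^ P.1 * μ ^ P.2)) (isoQ_good C hC _) M H hCM hMH hidx
      (by
        intro B hB hBH
        refine ⟨B, hB, ?_, le_rfl⟩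
        intro g hg
        by_contra hgM
        obtain ⟨c, hc, hcg⟩ := hcon g (hBH hg) hgM
        exact hcg (hB.2 c (hB.1 hc) g hg))
    have h4 : mn p (isoQ C hC (ρ ^ P.1 * μ ^ P.2)) M =
      mn p (isoQ C hC (ρ ^ P.1 * μ ^ P.2)) H := hPeq
    omega)
  have hC' : ∀ x y : H, ⁅x, y⁆ ∈ C.subgroupOf H := fun x y => by
    rw [Subgroup.mem_subgroupOf]
    exact hC x y
  have hcl := CL3 (Y := H) (hp.to_subgroup H) hp2 (C.subgroupOf H) hC'
    (ρ.comp (H.subtype.subgroupComap C)) (μ.comp (H.subtype.subgroupComap C))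
    (by
      intro c hc x y
      exact key.1 c hc x x.2 y y.2)
    (by
      intro c hc x y
      exact key.2 c hc x x.2 y y.2) T hT
  rw [mn_transfer C hC ρ H hCH hC'] at hcl
  have hP : ∀ P : ℤ × ℤ, mn p (isoQ (C.subgroupOf H) hC'
      ((ρ.comp (H.subtype.subgroupComap C)) ^ P.1 * (μ.comp (H.subtype.subgroupComap C)) ^ P.2)) ⊤ =
      mn p (isoQ C hC (ρ ^ P.1 * μ ^ P.2)) H := by
    intro P
    rw [← mn_transfer C hC (ρ ^ P.1 * μ ^ P.2) H hCH hC']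
    rfl
  refine le_trans (le_of_eq (Finset.sum_congr rfl fun P _ => ?_)) hcl
  exact congrArg (fun n => mn p (isoQ C hC ρ) H - n) (hP P).symm

end Pool.Agent.Helper89.MD
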