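import Pool.Agent.Helper89.MD.Defs

set_option autoImplicit false

open scoped commutatorElement

namespace Pool.Agent.Helper89.MD

open Classical in
/-- The extension by zero of `θ` to the whole group. -/
noncomputable def IND_th {G : Type} [Group G] (B : Subgroup G) (θ : B →* ℂˣ) (g : G) : ℂ :=
  if h : g ∈ B then ((θ ⟨g, h⟩ : ℂˣ) : ℂ) else 0

theorem IND_th_mem {G : Type} [Group G] (B : Subgroup G) (θ : B →* ℂˣ) (g : G) (h : g ∈ B) :
    IND_th B θ g = ((θ ⟨g, h⟩ : ℂˣ) : ℂ) := by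
  unfold IND_th
  rw [dif_pos h]

theorem IND_th_not {G : Type} [Group G] (B : Subgroup G) (θ : B →* ℂˣ) (g : G) (h : g ∉ B) :
    IND_th B θ g = 0 := by
  unfold IND_th
  rw [dif_neg h]

theorem IND_th_mul {G : Type} [Group G] (B : Subgroup G) (θ : B →* ℂˣ) (b g : G) (hb : b ∈ B) :
    IND_th B θ (b * g) = IND_th B θ b * IND_th B θ g := by
  by_cases hg : g ∈ B
  · rw [IND_th_mem B θ b hb, IND_th_mem B θ g hg, IND_th_mem B θ (b * g) (B.mul_mem hb hg),
      ← Units.val_mul, ← map_mul]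
    rfl
  · rw [IND_th_not B θ g hg, IND_th_not B θ (b * g) (fun h => hg ((B.mul_mem_cancel_left hb).1 h)),
      mul_zero]

theorem IND_th_mul' {G : Type} [Group G] (B : Subgroup G) (θ : B →* ℂˣ) (g b : G) (hb : b ∈ B) :
    IND_th B θ (g * b) = IND_th B θ g * IND_th B θ b := by
  by_cases hg : g ∈ B
  · exact IND_th_mul B θ g b hg
  · rw [IND_th_not B θ g hg, IND_th_not B θ (g * b) (fun h => hg ((B.mul_mem_cancel_right hb).1 h)),
      zero_mul]

theorem IND_th_one {G : Type} [Group G] (B : Subgroup G) (θ : B →* ℂˣ) : IND_th B θ 1 = 1 := by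
  rw [IND_th_mem B θ 1 B.one_mem]
  have : (⟨1, B.one_mem⟩ : B) = 1 := rfl
  rw [this, map_one]
  rfl

theorem IND_th_ne {G : Type} [Group G] (B : Subgroup G) (θ : B →* ℂˣ) (b : G) (hb : b ∈ B) :
    IND_th B θ b ≠ 0 := by
  rw [IND_th_mem B θ b hb]
  exact Units.ne_zero _

/-- Chosen coset representatives. -/
noncomputable def IND_s {G : Type} [Group G] (B : Subgroup G) (q : G ⧸ B) : G := Quotient.out q

theorem IND_s_mk {G : Type} [Group G] (B : Subgroup G) (q : G ⧸ B) :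
    ((IND_s B q : G) : G ⧸ B) = q := Quotient.out_eq' q

theorem IND_mem {G : Type} [Group G] (B : Subgroup G) [hB : B.Normal] (x y : G)
    (h : (x : G ⧸ B) = (y : G ⧸ B)) : x * y⁻¹ ∈ B := by
  rw [← QuotientGroup.eq_one_iff, QuotientGroup.mk_mul, QuotientGroup.mk_inv, h, mul_inv_cancel]

theorem IND_mem_s {G : Type} [Group G] (B : Subgroup G) [hB : B.Normal] (g : G) :
    g * (IND_s B (g : G ⧸ B))⁻¹ ∈ B := by
  apply IND_mem
  rw [IND_s_mk]

/-- Covariant functions. -/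
def IND_cov {G : Type} [Group G] (B : Subgroup G) (θ : B →* ℂˣ) (f : G → ℂ) : Prop :=
  ∀ b ∈ B, ∀ g : G, f (b * g) = IND_th B θ b * f g

/-- The covariant function attached to its values on representatives. -/
noncomputable def IND_E {G : Type} [Group G] (B : Subgroup G) (θ : B →* ℂˣ) {n : ℕ}
    (e : G ⧸ B ≃ Fin n) : (Fin n → ℂ) →ₗ[ℂ] (G → ℂ) where
  toFun c g := IND_th B θ (g * (IND_s B (g : G ⧸ B))⁻¹) * c (e (g : G ⧸ B))
  map_add' c d := by
    funext g
    simp only [Pi.add_apply]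
    ring
  map_smul' a c := by
    funext g
    simp only [Pi.smul_apply, smul_eq_mul, RingHom.id_apply]
    ring

/-- The values on representatives. -/
noncomputable def IND_T {G : Type} [Group G] (B : Subgroup G) {n : ℕ}
    (e : G ⧸ B ≃ Fin n) : (G → ℂ) →ₗ[ℂ] (Fin n → ℂ) where
  toFun f i := f (IND_s B (e.symm i))
  map_add' c d := by
    funext g
    simp only [Pi.add_apply]
  map_smul' a c := by
    funext g
    simp only [Pi.smul_apply, smul_eq_mul, RingHom.id_apply]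

/-- Right translation. -/
def IND_R {G : Type} [Group G] (h : G) : (G → ℂ) →ₗ[ℂ] (G → ℂ) where
  toFun f g := f (g * h)
  map_add' c d := by
    funext g
    simp only [Pi.add_apply]
  map_smul' a c := by
    funext g
    simp only [Pi.smul_apply, smul_eq_mul, RingHom.id_apply]

theorem IND_TE {G : Type} [Group G] (B : Subgroup G) (θ : B →* ℂˣ) {n : ℕ}
    (e : G ⧸ B ≃ Fin n) (c : Fin n → ℂ) : IND_T B e (IND_E B θ e c) = c := by
  funext i
  change IND_th B θ (IND_s B (e.symm i) * (IND_s B ((IND_s B (e.symm i) : G) : G ⧸ B))⁻¹) *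
    c (e ((IND_s B (e.symm i) : G) : G ⧸ B)) = c i
  rw [IND_s_mk, mul_inv_cancel, IND_th_one, one_mul, Equiv.apply_symm_apply]

theorem IND_E_cov {G : Type} [Group G] (B : Subgroup G) [hB : B.Normal] (θ : B →* ℂˣ) {n : ℕ}
    (e : G ⧸ B ≃ Fin n) (c : Fin n → ℂ) : IND_cov B θ (IND_E B θ e c) := by
  intro b hb g
  have h1 : ((b * g : G) : G ⧸ B) = (g : G ⧸ B) := by
    rw [QuotientGroup.mk_mul, (QuotientGroup.eq_one_iff b).2 hb, one_mul]
  change IND_th B θ ((b * g) * (IND_s B ((b * g : G) : G ⧸ B))⁻¹) * c (e ((b * g : G) : G ⧸ B)) =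
    IND_th B θ b * (IND_th B θ (g * (IND_s B (g : G ⧸ B))⁻¹) * c (e (g : G ⧸ B)))
  rw [h1, mul_assoc b g, IND_th_mul B θ b _ hb, mul_assoc]

theorem IND_ET {G : Type} [Group G] (B : Subgroup G) [hB : B.Normal] (θ : B →* ℂˣ) {n : ℕ}
    (e : G ⧸ B ≃ Fin n) (f : G → ℂ) (hf : IND_cov B θ f) : IND_E B θ e (IND_T B e f) = f := by
  funext g
  change IND_th B θ (g * (IND_s B (g : G ⧸ B))⁻¹) * f (IND_s B (e.symm (e (g : G ⧸ B)))) = f g
  rw [Equiv.symm_apply_apply, ← hf _ (IND_mem_s B g), inv_mul_cancel_right]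

theorem IND_R_cov {G : Type} [Group G] (B : Subgroup G) (θ : B →* ℂˣ) (h : G) (f : G → ℂ)
    (hf : IND_cov B θ f) : IND_cov B θ (IND_R h f) := by
  intro b hb g
  change f (b * g * h) = IND_th B θ b * f (g * h)
  rw [mul_assoc, hf b hb]

/-- The induced representation as endomorphisms. -/
noncomputable def IND_rho {G : Type} [Group G] (B : Subgroup G) [hB : B.Normal] (θ : B →* ℂˣ)
    {n : ℕ} (e : G ⧸ B ≃ Fin n) : G →* ((Fin n → ℂ) →ₗ[ℂ] (Fin n → ℂ)) where
  toFun h := (IND_T B e).comp ((IND_R h).comp (IND_E B θ e))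
  map_one' := by
    apply LinearMap.ext
    intro c
    change IND_T B e (IND_R 1 (IND_E B θ e c)) = c
    have h1 : IND_R (1 : G) (IND_E B θ e c) = IND_E B θ e c := by
      funext g
      change IND_E B θ e c (g * 1) = _
      rw [mul_one]
    rw [h1, IND_TE]
  map_mul' h k := by
    apply LinearMap.ext
    intro c
    change IND_T B e (IND_R (h * k) (IND_E B θ e c)) =
      IND_T B e (IND_R h (IND_E B θ e (IND_T B e (IND_R k (IND_E B θ e c)))))
    rw [IND_ET B θ e _ (IND_R_cov B θ k _ (IND_E_cov B θ e c))]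
    congr 1
    funext g
    change IND_E B θ e c (g * (h * k)) = IND_E B θ e c (g * h * k)
    rw [mul_assoc]

theorem IND_rho_apply {G : Type} [Group G] (B : Subgroup G) [hB : B.Normal] (θ : B →* ℂˣ)
    {n : ℕ} (e : G ⧸ B ≃ Fin n) (h : G) (c : Fin n → ℂ) :
    IND_rho B θ e h c = IND_T B e (IND_R h (IND_E B θ e c)) := rfl

/-- A nonzero element supported in one coset. -/
theorem IND_single {G : Type} [Group G] [Finite G] (B : Subgroup G) (hB : B.Normal) (θ : B →* ℂˣ)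
    (hst : ∀ g : G, g ∉ B → ∃ b : B, θ ⟨g * b * g⁻¹, hB.conj_mem b b.2 g⟩ ≠ θ b)
    (W : Submodule ℂ (G → ℂ)) (hcov : ∀ f ∈ W, IND_cov B θ f)
    (hinv : ∀ h : G, ∀ f ∈ W, IND_R h f ∈ W) (hW : W ≠ ⊥) :
    ∃ f ∈ W, ∃ g1 : G, f g1 ≠ 0 ∧ ∀ g : G, f g ≠ 0 → g * g1⁻¹ ∈ B := by
  classical
  have hne : ∃ k : ℕ, ∃ f ∈ W, f ≠ 0 ∧ Nat.card {g : G // f g ≠ 0} = k := by
    obtain ⟨f, hf, hf0⟩ := Submodule.exists_mem_ne_zero_of_ne_bot hW
    exact ⟨_, f, hf, hf0, rfl⟩
  obtain ⟨f, hf, hf0, hk⟩ := Nat.find_spec hne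
  have hmin : ∀ f' ∈ W, f' ≠ 0 → Nat.card {g : G // f g ≠ 0} ≤ Nat.card {g : G // f' g ≠ 0} := by
    intro f' hf' hf0'
    rw [hk]
    exact Nat.find_min' hne ⟨f', hf', hf0', rfl⟩
  obtain ⟨g1, hg1⟩ : ∃ g1, f g1 ≠ 0 := by
    by_contra hcon
    push Not at hcon
    exact hf0 (funext hcon)
  refine ⟨f, hf, g1, hg1, ?_⟩
  intro g2 hg2
  by_contra hnot
  obtain ⟨b, hb⟩ := hst (g2 * g1⁻¹) hnot
  -- b' = g1⁻¹ b g1
  have hb'B : g1⁻¹ * b * g1 ∈ B := by
    have := hB.conj_mem b b.2 g1⁻¹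
    rwa [inv_inv] at this
  set b' : G := g1⁻¹ * b * g1 with hb'
  have hact : ∀ g : G, f (g * b') = IND_th B θ (g * b' * g⁻¹) * f g := by
    intro g
    rw [← hcov f hf _ (hB.conj_mem b' hb'B g)]
    congr 1
    group
  have hf'W : IND_R b' f - IND_th B θ b • f ∈ W :=
    W.sub_mem (hinv b' f hf) (W.smul_mem _ hf)
  have hval : ∀ g : G, (IND_R b' f - IND_th B θ b • f) g =
      (IND_th B θ (g * b' * g⁻¹) - IND_th B θ b) * f g := by
    intro g
    change f (g * b') - IND_th B θ b * f g = _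
    rw [hact]
    ring
  have hg1z : (IND_R b' f - IND_th B θ b • f) g1 = 0 := by
    rw [hval]
    have : g1 * b' * g1⁻¹ = b := by
      rw [hb']
      group
    rw [this, sub_self, zero_mul]
  have hg2n : (IND_R b' f - IND_th B θ b • f) g2 ≠ 0 := by
    rw [hval]
    apply mul_ne_zero _ hg2
    rw [sub_ne_zero]
    have h2 : g2 * b' * g2⁻¹ = (g2 * g1⁻¹) * b * (g2 * g1⁻¹)⁻¹ := by
      rw [hb']
      group
    rw [h2, IND_th_mem B θ b b.2, IND_th_mem B θ _ (hB.conj_mem b b.2 _)]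
    intro h3
    exact hb (Units.ext h3)
  have hf'0 : IND_R b' f - IND_th B θ b • f ≠ 0 := by
    intro h0
    apply hg2n
    rw [h0]
    rfl
  have hle := hmin _ hf'W hf'0
  have hlt : Nat.card {g : G // (IND_R b' f - IND_th B θ b • f) g ≠ 0} <
      Nat.card {g : G // f g ≠ 0} := by
    rw [← Nat.card_congr (Equiv.refl {g : G // f g ≠ 0})]
    apply Set.ncard_lt_ncard (s := {g : G | (IND_R b' f - IND_th B θ b • f) g ≠ 0})
      (t := {g : G | f g ≠ 0})
    constructor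
    · intro g hg hfg
      apply hg
      rw [hval, hfg, mul_zero]
    · intro hsub
      exact hsub hg1 hg1z
  omega

theorem IND_full {G : Type} [Group G] [Finite G] (B : Subgroup G) (hB : B.Normal) (θ : B →* ℂˣ)
    (hst : ∀ g : G, g ∉ B → ∃ b : B, θ ⟨g * b * g⁻¹, hB.conj_mem b b.2 g⟩ ≠ θ b)
    (W : Submodule ℂ (G → ℂ)) (hcov : ∀ f ∈ W, IND_cov B θ f)
    (hinv : ∀ h : G, ∀ f ∈ W, IND_R h f ∈ W) (hW : W ≠ ⊥) (F : G → ℂ) (hF : IND_cov B θ F) :
    F ∈ W := by
  classical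
  obtain ⟨f, hf, g1, hg1, hsup⟩ := IND_single B hB θ hst W hcov hinv hW
  haveI : Fintype (G ⧸ B) := Fintype.ofFinite _
  have hkey : F = ∑ q : G ⧸ B, (F (IND_s B q) * (f g1)⁻¹) • IND_R ((IND_s B q)⁻¹ * g1) f := by
    funext g
    rw [Finset.sum_apply]
    rw [Finset.sum_eq_single (g : G ⧸ B)]
    · have hb := IND_mem_s B g
      change F g = (F (IND_s B (g : G ⧸ B)) * (f g1)⁻¹) * f (g * ((IND_s B (g : G ⧸ B))⁻¹ * g1))
      rw [← mul_assoc g, hcov f hf _ hb]
      have h3 : F g = IND_th B θ (g * (IND_s B (g : G ⧸ B))⁻¹) * F (IND_s B (g : G ⧸ B)) := by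
        rw [← hF _ hb, inv_mul_cancel_right]
      rw [h3]
      field_simp
    · intro q _ hq
      change (F (IND_s B q) * (f g1)⁻¹) * f (g * ((IND_s B q)⁻¹ * g1)) = 0
      have : f (g * ((IND_s B q)⁻¹ * g1)) = 0 := by
        by_contra hne
        have h4 := hsup _ hne
        apply hq
        have h5 : g * ((IND_s B q)⁻¹ * g1) * g1⁻¹ = g * (IND_s B q)⁻¹ := by group
        rw [h5] at h4
        rw [← QuotientGroup.eq_one_iff, QuotientGroup.mk_mul, QuotientGroup.mk_inv, IND_s_mk,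
          mul_inv_eq_one] at h4
        exact h4.symm
      rw [this, mul_zero]
    · intro h
      exact absurd (Finset.mem_univ _) h
  rw [hkey]
  exact W.sum_mem fun q _ => W.smul_mem _ (hinv _ f hf)

theorem IND {G : Type} [Group G] [Finite G] (B : Subgroup G) (hB : B.Normal) (θ : B →* ℂˣ)
    (hst : ∀ g : G, g ∉ B → ∃ b : B, θ ⟨g * b * g⁻¹, hB.conj_mem b b.2 g⟩ ≠ θ b) :
    ∃ σ : G →* Matrix.GeneralLinearGroup (Fin B.index) ℂ, Irred σ ∧
      ∃ v : Fin B.index → ℂ, v ≠ 0 ∧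
        ∀ b : B, Matrix.mulVec (σ b).1 v = ((θ b : ℂˣ) : ℂ) • v := by
  classical
  haveI : Finite (G ⧸ B) := inferInstance
  have e : G ⧸ B ≃ Fin B.index := Finite.equivFinOfCardEq rfl
  let M : G →* Matrix (Fin B.index) (Fin B.index) ℂ :=
    ((LinearMap.toMatrixAlgEquiv' (R := ℂ) (n := Fin B.index)).toRingEquiv.toRingHom :
      ((Fin B.index → ℂ) →ₗ[ℂ] (Fin B.index → ℂ)) →* Matrix (Fin B.index) (Fin B.index) ℂ).comp
      (IND_rho B θ e)
  let σ : G →* Matrix.GeneralLinearGroup (Fin B.index) ℂ := M.toHomUnits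
  have hσ : ∀ (g : G) (v : Fin B.index → ℂ), Matrix.mulVec (σ g).1 v = IND_rho B θ e g v := by
    intro g v
    change Matrix.mulVec (LinearMap.toMatrix' (IND_rho B θ e g)) v = _
    rw [LinearMap.toMatrix'_mulVec]
  have hTinj : ∀ f f' : G → ℂ, IND_cov B θ f → IND_cov B θ f' → IND_T B e f = IND_T B e f' →
      f = f' := by
    intro f f' hf hf' h
    rw [← IND_ET B θ e f hf, h, IND_ET B θ e f' hf']
  have hthcov : IND_cov B θ (IND_th B θ) := fun b hb g => IND_th_mul B θ b g hb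
  refine ⟨σ, ?_, IND_T B e (IND_th B θ), ?_, ?_⟩
  · intro W hWinv
    by_cases hW : W = ⊥
    · exact Or.inl hW
    right
    have hcov : ∀ f ∈ W.map (IND_E B θ e), IND_cov B θ f := by
      rintro f ⟨c, _, rfl⟩
      exact IND_E_cov B θ e c
    have hinv : ∀ h : G, ∀ f ∈ W.map (IND_E B θ e), IND_R h f ∈ W.map (IND_E B θ e) := by
      rintro h f ⟨c, hc, rfl⟩
      refine ⟨IND_rho B θ e h c, ?_, ?_⟩
      · rw [← hσ]
        exact hWinv h c hc
      · rw [IND_rho_apply, IND_ET B θ e _ (IND_R_cov B θ h _ (IND_E_cov B θ e c))]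
    have hne : W.map (IND_E B θ e) ≠ ⊥ := by
      obtain ⟨c, hc, hc0⟩ := Submodule.exists_mem_ne_zero_of_ne_bot hW
      intro hbot
      have : IND_E B θ e c ∈ W.map (IND_E B θ e) := ⟨c, hc, rfl⟩
      rw [hbot, Submodule.mem_bot] at this
      apply hc0
      rw [← IND_TE B θ e c, this, map_zero]
    rw [eq_top_iff]
    intro c _
    have h1 := IND_full B hB θ hst (W.map (IND_E B θ e)) hcov hinv hne (IND_E B θ e c)
      (IND_E_cov B θ e c)
    obtain ⟨c', hc', heq⟩ := h1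
    have : c' = c := by
      rw [← IND_TE B θ e c', heq, IND_TE]
    rw [← this]
    exact hc'
  · intro h0
    have h1 : IND_th B θ = 0 := by
      rw [← IND_ET B θ e _ hthcov, h0, map_zero]
    have h2 := congrFun h1 1
    rw [IND_th_one] at h2
    exact one_ne_zero h2
  · intro b
    rw [hσ, IND_rho_apply, IND_ET B θ e _ hthcov, ← map_smul]
    congr 1
    funext g
    change IND_th B θ (g * b) = ((θ b : ℂˣ) : ℂ) * IND_th B θ g
    rw [IND_th_mul' B θ g b b.2, IND_th_mem B θ b b.2, mul_comm]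

end Pool.Agent.Helper89.MD
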