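import Pool.Agent.Helper89.MD.EE
import Pool.Agent.Helper89.MD.SMALL
import Pool.Agent.Helper89.MD.EXT
import Pool.Agent.Helper89.MD.IND

set_option autoImplicit false

open scoped commutatorElement

namespace Pool.Agent.Helper89.MD

/-- If `θ` is invariant under `g`, the commutators of `B ⊔ zpowers g` are killed. -/
theorem REP1_aux {G : Type} [Group G] (C : Subgroup G) (hC : ∀ x y : G, ⁅x, y⁆ ∈ C)
    (ν : C →* ℂˣ) (B : Subgroup G) (hCB : C ≤ B) (hB : B.Normal) (θ : B →* ℂˣ)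
    (hθ : ∀ (c : G) (hc : c ∈ C) (hcB : c ∈ B), θ ⟨c, hcB⟩ = ν ⟨c, hc⟩) (g : G)
    (hg : ∀ b : B, θ ⟨g * b * g⁻¹, hB.conj_mem b b.2 g⟩ = θ b) :
    isoQ C hC ν (B ⊔ Subgroup.zpowers g) := by
  refine ⟨hCB.trans le_sup_left, ?_⟩
  -- the stabiliser of `θ`
  let St : Subgroup G :=
    { carrier := {h | ∀ b : B, θ ⟨h * b * h⁻¹, hB.conj_mem b b.2 h⟩ = θ b}
      mul_mem' := by
        intro h k hh hk b
        have h1 := hh ⟨k * b * k⁻¹, hB.conj_mem b b.2 k⟩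
        have h2 := hk b
        rw [← h2, ← h1]
        congr 1
        apply Subtype.ext
        change h * k * (b : G) * (h * k)⁻¹ = h * (k * b * k⁻¹) * h⁻¹
        group
      one_mem' := by
        intro b
        congr 1
        apply Subtype.ext
        simp
      inv_mem' := by
        intro h hh b
        have h1 := hh ⟨h⁻¹ * b * h⁻¹⁻¹, hB.conj_mem b b.2 h⁻¹⟩
        rw [← h1]
        congr 1
        apply Subtype.ext
        change h * (h⁻¹ * (b : G) * h⁻¹⁻¹) * h⁻¹ = (b : G)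
        group }
  have hBSt : B ≤ St := by
    intro h hh b
    have h1 : (⟨h * b * h⁻¹, hB.conj_mem b b.2 h⟩ : B) = ⟨h, hh⟩ * b * ⟨h, hh⟩⁻¹ := rfl
    rw [h1, map_mul, map_mul, map_inv, mul_comm (θ _) (θ b), mul_assoc, mul_inv_cancel, mul_one]
  have hgSt : Subgroup.zpowers g ≤ St := by
    rw [Subgroup.zpowers_le]
    exact hg
  have hmem : ∀ x ∈ B ⊔ Subgroup.zpowers g, ∃ b ∈ B, ∃ i : ℤ, x = b * g ^ i := by
    intro x hx
    have h1 : x ∈ ((B ⊔ Subgroup.zpowers g : Subgroup G) : Set G) := hx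
    rw [Subgroup.normal_mul] at h1
    obtain ⟨b, hb, z, hz, rfl⟩ := h1
    obtain ⟨i, rfl⟩ := Subgroup.mem_zpowers_iff.mp hz
    exact ⟨b, hb, i, rfl⟩
  intro x hx y hy
  obtain ⟨b, hb, i, rfl⟩ := hmem x hx
  obtain ⟨b', hb', j, rfl⟩ := hmem y hy
  have hi : ∀ i : ℤ, g ^ i ∈ St := fun i => hgSt (Subgroup.zpow_mem_zpowers g i)
  have h1 : ⁅b * g ^ i, b' * g ^ j⁆ = b * (g ^ i * b' * (g ^ i)⁻¹) *
      (g ^ j * b⁻¹ * (g ^ j)⁻¹) * b'⁻¹ := by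
    rw [commutatorElement_def]
    group
  have h2 : (⟨⁅b * g ^ i, b' * g ^ j⁆, hCB (hC _ _)⟩ : B) = ⟨b, hb⟩ *
      ⟨g ^ i * b' * (g ^ i)⁻¹, hB.conj_mem b' hb' _⟩ *
      ⟨g ^ j * b⁻¹ * (g ^ j)⁻¹, hB.conj_mem b⁻¹ (B.inv_mem hb) _⟩ * ⟨b', hb'⟩⁻¹ :=
    Subtype.ext h1
  unfold cm
  rw [← hθ _ (hC _ _) (hCB (hC _ _)), h2, map_mul, map_mul, map_mul]
  have h3 : θ ⟨g ^ i * b' * (g ^ i)⁻¹, hB.conj_mem b' hb' _⟩ = θ ⟨b', hb'⟩ :=
    hi i ⟨b', hb'⟩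
  have h4 : θ ⟨g ^ j * b⁻¹ * (g ^ j)⁻¹, hB.conj_mem b⁻¹ (B.inv_mem hb) _⟩ = (θ ⟨b, hb⟩)⁻¹ := by
    rw [← map_inv]
    exact hi j ⟨b, hb⟩⁻¹
  rw [h3, h4, map_inv]
  rw [mul_comm (θ ⟨b, hb⟩), mul_assoc (θ ⟨b', hb'⟩), mul_inv_cancel, mul_one, mul_inv_cancel]

theorem REP1_card {G : Type} [Group G] [Finite G] {p : ℕ} [Fact p.Prime] (hp : IsPGroup p G)
    (B B' : Subgroup G) (h : B < B') : p * Nat.card B ≤ Nat.card B' := by
  have hpp : p.Prime := Fact.out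
  obtain ⟨s, hs⟩ := (hp.to_subgroup B).exists_card_eq
  obtain ⟨t, ht⟩ := (hp.to_subgroup B').exists_card_eq
  have h1 : Nat.card B < Nat.card B' := by
    refine lt_of_le_of_ne (Subgroup.card_le_of_le h.le) fun heq => ?_
    exact h.ne (Subgroup.eq_of_le_of_card_ge h.le heq.ge)
  rw [hs, ht] at h1 ⊢
  have h2 : s < t := (Nat.pow_lt_pow_iff_right hpp.one_lt).mp h1
  rw [← pow_succ']
  exact Nat.pow_le_pow_right hpp.pos h2

theorem REP1 {G : Type} [Group G] [Finite G] {p : ℕ} [Fact p.Prime] (hp : IsPGroup p G)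
    (C : Subgroup G) (hC : ∀ x y : G, ⁅x, y⁆ ∈ C) (ν : C →* ℂˣ) :
    ∃ σ : G →* Matrix.GeneralLinearGroup (Fin (p ^ mn p (isoQ C hC ν) ⊤)) ℂ, Irred σ ∧
      ∃ v : Fin (p ^ mn p (isoQ C hC ν) ⊤) → ℂ, v ≠ 0 ∧
        ∀ c : C, Matrix.mulVec (σ c).1 v = ((ν c : ℂˣ) : ℂ) • v := by
  classical
  have hpp : p.Prime := Fact.out
  obtain ⟨B, hBQ, -, hcard⟩ := mn_spec hp C (isoQ C hC ν) (isoQ_good C hC ν) ⊤ le_top
  have hB : B.Normal := by
    refine ⟨fun b hb g => ?_⟩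
    have h1 : g * b * g⁻¹ = ⁅g, b⁆ * b := by rw [commutatorElement_def]; group
    rw [h1]
    exact B.mul_mem (hBQ.1 (hC g b)) hb
  obtain ⟨θ, hθ⟩ := EXT C hC ν B hBQ
  have hidx : B.index = p ^ mn p (isoQ C hC ν) ⊤ := by
    have h1 := B.index_mul_card
    have h2 : Nat.card (⊤ : Subgroup G) = Nat.card G := Subgroup.card_top
    rw [h2] at hcard
    have h3 : 0 < Nat.card B := Nat.card_pos
    apply Nat.eq_of_mul_eq_mul_right h3
    rw [h1, hcard]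
  have hst : ∀ g : G, g ∉ B → ∃ b : B, θ ⟨g * b * g⁻¹, hB.conj_mem b b.2 g⟩ ≠ θ b := by
    intro g hg
    by_contra hcon
    push Not at hcon
    have h1 := REP1_aux C hC ν B hBQ.1 hB θ hθ g hcon
    have h2 : B < B ⊔ Subgroup.zpowers g := by
      refine lt_of_le_of_ne le_sup_left fun heq => hg ?_
      rw [heq]
      exact Subgroup.mem_sup_right (Subgroup.mem_zpowers g)
    have h3 := REP1_card hp B _ h2
    have hk : mn p (isoQ C hC ν) ⊤ ≠ 0 := by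
      intro h0
      rw [h0, pow_zero, one_mul] at hcard
      have h4 := Subgroup.card_le_of_le (le_top : B ⊔ Subgroup.zpowers g ≤ ⊤)
      have h5 : 0 < Nat.card B := Nat.card_pos
      have h6 := hpp.one_lt
      nlinarith
    obtain ⟨k, hk⟩ := Nat.exists_eq_succ_of_ne_zero hk
    have h4 : mn p (isoQ C hC ν) ⊤ ≤ k := by
      apply mn_le _ _ _ _ h1 le_top
      rw [hcard, hk, Nat.succ_eq_add_one, pow_succ, mul_assoc]
      exact Nat.mul_le_mul_left _ h3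
    omega
  have hind := IND B hB θ hst
  rw [hidx] at hind
  obtain ⟨σ, hσ, v, hv, hvb⟩ := hind
  refine ⟨σ, hσ, v, hv, fun c => ?_⟩
  rw [hvb ⟨c, hBQ.1 c.2⟩, hθ c c.2 (hBQ.1 c.2)]

end Pool.Agent.Helper89.MD
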