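import Pool.Agent.Helper89.MD.Defs
import Pool.Agent.Helper89.MD.EE
import Pool.Agent.Helper89.MD.SMALL
import Pool.Agent.Helper89.MD.CE

/-!
# Module REP2: the degree of an irreducible representation over the character `ν` of `C`
-/

set_option autoImplicit false

open scoped commutatorElement

namespace Pool.Agent.Helper89.MD

/-- `C` acts by `ν` on the `B`-span of a `ν`-eigenvector. -/
theorem REP2_aux {G : Type} [Group G] (C : Subgroup G) (hC : ∀ x y : G, ⁅x, y⁆ ∈ C)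
    (ν : C →* ℂˣ) {n : ℕ} (σ : G →* Matrix.GeneralLinearGroup (Fin n) ℂ) (v : Fin n → ℂ)
    (hvc : ∀ c : C, Matrix.mulVec (σ c).1 v = ((ν c : ℂˣ) : ℂ) • v)
    (B : Subgroup G) (hB : isoQ C hC ν B) (b : G) (hb : b ∈ B) (c : C) :
    Matrix.mulVec (σ c).1 (Matrix.mulVec (σ b).1 v) =
      ((ν c : ℂˣ) : ℂ) • Matrix.mulVec (σ b).1 v := by
  -- `c * b = b * c * ⁅c⁻¹, b⁻¹⁆`
  have hk : (⁅(c : G)⁻¹, b⁻¹⁆ : G) ∈ C := hC _ _
  have h1 : (c : G) * b = b * ((c * ⟨⁅(c : G)⁻¹, b⁻¹⁆, hk⟩ : C) : G) := by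
    simp only [Subgroup.coe_mul, commutatorElement_def]
    group
  have h2 : ν (c * ⟨⁅(c : G)⁻¹, b⁻¹⁆, hk⟩) = ν c := by
    have h3 : cm C hC ν (c : G)⁻¹ b⁻¹ = 1 :=
      hB.2 _ (B.inv_mem (hB.1 c.2)) _ (B.inv_mem hb)
    rw [map_mul]
    have h4 : ν ⟨⁅(c : G)⁻¹, b⁻¹⁆, hk⟩ = 1 := h3
    rw [h4, mul_one]
  have h5 : Matrix.mulVec (σ ((c : G) * b)).1 v =
      Matrix.mulVec (σ (b * ((c * ⟨⁅(c : G)⁻¹, b⁻¹⁆, hk⟩ : C) : G))).1 v := by rw [h1]
  rw [map_mul, map_mul] at h5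
  have e : ∀ (A D : Matrix.GeneralLinearGroup (Fin n) ℂ) (w : Fin n → ℂ),
      Matrix.mulVec (A * D).1 w = Matrix.mulVec A.1 (Matrix.mulVec D.1 w) := by
    intro A D w
    rw [Matrix.mulVec_mulVec]
    rfl
  rw [e, e, hvc, h2, Matrix.mulVec_smul] at h5
  exact h5

theorem REP2 {G : Type} [Group G] [Finite G] {p : ℕ} [Fact p.Prime] (hp : IsPGroup p G)
    (C : Subgroup G) (hC : ∀ x y : G, ⁅x, y⁆ ∈ C) (ν : C →* ℂˣ) {n : ℕ}
    (σ : G →* Matrix.GeneralLinearGroup (Fin n) ℂ) (hσ : Irred σ) (v : Fin n → ℂ) (hv : v ≠ 0)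
    (hvc : ∀ c : C, Matrix.mulVec (σ c).1 v = ((ν c : ℂˣ) : ℂ) • v) :
    n ≤ p ^ mn p (isoQ C hC ν) ⊤ := by
  classical
  obtain ⟨B, hB, -, hcard⟩ := mn_spec hp C (isoQ C hC ν) (isoQ_good C hC ν) ⊤ le_top
  have e : ∀ (g h : G) (w : Fin n → ℂ),
      Matrix.mulVec (σ (g * h)).1 w = Matrix.mulVec (σ g).1 (Matrix.mulVec (σ h).1 w) := by
    intro g h w
    rw [Matrix.mulVec_mulVec, map_mul]
    rfl
  -- the span of the `B`-orbit of `v`
  set W : Submodule ℂ (Fin n → ℂ) :=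
    Submodule.span ℂ {x | ∃ b ∈ B, x = Matrix.mulVec (σ b).1 v} with hW
  have hvW : v ∈ W := Submodule.subset_span ⟨1, B.one_mem, by simp⟩
  have hWne : W ≠ ⊥ := by
    intro h
    rw [h, Submodule.mem_bot] at hvW
    exact hv hvW
  have hinv : ∀ b ∈ B, ∀ w ∈ W, Matrix.mulVec (σ b).1 w ∈ W := by
    intro b hb w hw
    induction hw using Submodule.span_induction with
    | mem x hx =>
      obtain ⟨b', hb', rfl⟩ := hx
      refine Submodule.subset_span ⟨b * b', B.mul_mem hb hb', ?_⟩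
      rw [e]
    | zero => rw [Matrix.mulVec_zero]; exact W.zero_mem
    | add x y _ _ hx hy => rw [Matrix.mulVec_add]; exact W.add_mem hx hy
    | smul a x _ hx => rw [Matrix.mulVec_smul]; exact W.smul_mem a hx
  have hCW : ∀ (c : C), ∀ w ∈ W, Matrix.mulVec (σ c).1 w = ((ν c : ℂˣ) : ℂ) • w := by
    intro c w hw
    induction hw using Submodule.span_induction with
    | mem x hx =>
      obtain ⟨b', hb', rfl⟩ := hx
      exact REP2_aux C hC ν σ v hvc B hB b' hb' c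
    | zero => rw [Matrix.mulVec_zero, smul_zero]
    | add x y _ _ hx hy => rw [Matrix.mulVec_add, hx, hy, smul_add]
    | smul a x _ hx => rw [Matrix.mulVec_smul, hx, smul_comm]
  have hcomm : ∀ x ∈ B, ∀ y ∈ B, ∀ w ∈ W,
      Matrix.mulVec (σ x).1 (Matrix.mulVec (σ y).1 w) =
        Matrix.mulVec (σ y).1 (Matrix.mulVec (σ x).1 w) := by
    intro x hx y hy w hw
    have h1 : x * y = ⁅x, y⁆ * (y * x) := by
      rw [commutatorElement_def]
      group
    rw [← e, ← e, h1, e]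
    have h2 := hCW ⟨⁅x, y⁆, hC x y⟩ (Matrix.mulVec (σ (y * x)).1 w)
      (hinv _ (B.mul_mem hy hx) w hw)
    have h3 : ν ⟨⁅x, y⁆, hC x y⟩ = 1 := hB.2 x hx y hy
    rw [h3] at h2
    simpa using h2
  obtain ⟨θ, w, hwW, hw0, hθ⟩ := CE σ B W hWne hinv hcomm
  -- the span of the `G`-orbit of `w`
  set U : Submodule ℂ (Fin n → ℂ) :=
    Submodule.span ℂ (Set.range fun g : G => Matrix.mulVec (σ g).1 w) with hU
  have hUinv : ∀ g : G, ∀ u ∈ U, Matrix.mulVec (σ g).1 u ∈ U := by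
    intro g u hu
    induction hu using Submodule.span_induction with
    | mem x hx =>
      obtain ⟨h, rfl⟩ := hx
      refine Submodule.subset_span ⟨g * h, ?_⟩
      show Matrix.mulVec (σ (g * h)).1 w = _
      rw [e]
    | zero => rw [Matrix.mulVec_zero]; exact U.zero_mem
    | add x y _ _ hx hy => rw [Matrix.mulVec_add]; exact U.add_mem hx hy
    | smul a x _ hx => rw [Matrix.mulVec_smul]; exact U.smul_mem a hx
  have hwU : w ∈ U := Submodule.subset_span ⟨1, by simp⟩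
  have hUtop : U = ⊤ := by
    rcases hσ U hUinv with h | h
    · rw [h, Submodule.mem_bot] at hwU
      exact absurd hwU hw0
    · exact h
  have hle : U ≤ Submodule.span ℂ
      (Set.range fun q : G ⧸ B => Matrix.mulVec (σ q.out).1 w) := by
    rw [hU, Submodule.span_le]
    rintro _ ⟨g, rfl⟩
    obtain ⟨b, hb⟩ := QuotientGroup.mk_out_eq_mul B g
    -- `out = g * b`
    have h1 : g = (QuotientGroup.mk g : G ⧸ B).out * ((b⁻¹ : B) : G) := by
      rw [hb]
      simp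
    have h2 : Matrix.mulVec (σ g).1 w =
        ((θ b⁻¹ : ℂˣ) : ℂ) • Matrix.mulVec (σ (QuotientGroup.mk g : G ⧸ B).out).1 w := by
      conv_lhs => rw [h1]
      rw [e, hθ, Matrix.mulVec_smul]
    show Matrix.mulVec (σ g).1 w ∈ _
    rw [h2]
    exact Submodule.smul_mem _ _ (Submodule.subset_span ⟨_, rfl⟩)
  have : Fintype (G ⧸ B) := Fintype.ofFinite _
  have h1 : n ≤ Fintype.card (G ⧸ B) := by
    have h2 : Submodule.span ℂ
        (Set.range fun q : G ⧸ B => Matrix.mulVec (σ q.out).1 w) = ⊤ := by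
      rw [eq_top_iff, ← hUtop]
      exact hle
    have h3 := finrank_range_le_card (R := ℂ) (fun q : G ⧸ B => Matrix.mulVec (σ q.out).1 w)
    unfold Set.finrank at h3
    rw [h2, finrank_top, Module.finrank_fin_fun] at h3
    exact h3
  have h2 : Fintype.card (G ⧸ B) = p ^ mn p (isoQ C hC ν) ⊤ := by
    have h3 : Nat.card (G ⧸ B) * Nat.card B = Nat.card G := by
      have := B.index_mul_card
      rwa [Subgroup.index] at this
    rw [Subgroup.card_top] at hcard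
    rw [← Nat.card_eq_fintype_card]
    have h4 : 0 < Nat.card B := Nat.card_pos
    exact Nat.eq_of_mul_eq_mul_right h4 (by rw [h3, hcard])
  rw [← h2]
  exact h1

end Pool.Agent.Helper89.MD
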