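import Pool.Agent.Helper89.MD.Defs
import Pool.Agent.Helper89.MD.Arith
import Pool.Agent.Helper89.MD.REP1
import Pool.Agent.Helper89.MD.REP2
import Pool.Agent.Helper89.MD.CE
import Pool.Agent.Helper89.MD.GRP
import Pool.Agent.Helper89.MD.SMALL
import Pool.Agent.Helper89.MD.CENT
import Pool.Agent.Helper89.MD.SEP

set_option autoImplicit false

open scoped commutatorElement

namespace Pool.Agent.Helper89.MD

/-- The set of pairs used: `(1,t)` for `1 ≤ t < p` and `(0,1)`. -/
def MET_T (p : ℕ) : Finset (ℤ × ℤ) :=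
  insert ((0 : ℤ), (1 : ℤ)) ((Finset.Ico 1 p).image (fun t : ℕ => ((1 : ℤ), (t : ℤ))))

theorem MET_T_indep {p : ℕ} (hp : p.Prime) : Indep p (MET_T p) := by
  classical
  intro P hP Q hQ hne hdvd
  have hp2 : (2 : ℤ) ≤ p := by exact_mod_cast hp.two_le
  simp only [MET_T, Finset.mem_insert, Finset.mem_image, Finset.mem_Ico] at hP hQ
  rcases hP with rfl | ⟨s, hs, rfl⟩ <;> rcases hQ with rfl | ⟨t, ht, rfl⟩
  · exact hne rfl
  · simp only [zero_mul, one_mul, zero_sub] at hdvd
    rw [Int.dvd_neg] at hdvd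
    have := Int.le_of_dvd (by norm_num) hdvd
    linarith
  · simp only [mul_one, mul_zero, sub_zero] at hdvd
    have := Int.le_of_dvd (by norm_num) hdvd
    linarith
  · simp only [one_mul, mul_one] at hdvd
    apply hne
    have h1 : ((s : ℤ)) ≡ t [ZMOD p] := (Int.modEq_iff_dvd.mpr hdvd)
    have h2 : s ≡ t [MOD p] := (Int.natCast_modEq_iff).mp h1
    have h3 : s = t := by
      have := h2
      unfold Nat.ModEq at this
      rwa [Nat.mod_eq_of_lt hs.2, Nat.mod_eq_of_lt ht.2] at this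
    rw [h3]

/-- Counting step: among the `p + 1` points at most `e + k ≤ p` are bad. -/
theorem MET_count {p : ℕ} (hp : p.Prime) {A G : Type} [CommGroup A] (S : Finset G)
    (e : ℕ) (hcard : S.card + e ≤ p) (u v : G → A) (hu : ∀ g ∈ S, u g ^ p = 1)
    (hv : ∀ g ∈ S, v g ^ p = 1) (hv1 : ∀ g ∈ S, v g ≠ 1) (f : ℤ × ℤ → ℕ)
    (h0 : f (1, 0) = e) (hle : ∀ P, f P ≤ e) (hsum : ∑ P ∈ MET_T p, (e - f P) ≤ e) :
    ∃ P : ℤ × ℤ, f P = e ∧ ∀ g ∈ S, u g ^ P.1 * v g ^ P.2 ≠ 1 := by
  classical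
  by_contra hcon
  push Not at hcon
  -- the full set of points
  have h0T : ((1 : ℤ), (0 : ℤ)) ∉ MET_T p := by
    simp only [MET_T, Finset.mem_insert, Finset.mem_image, Finset.mem_Ico, not_or]
    constructor
    · intro h; simp at h
    · rintro ⟨t, ht, h⟩
      simp at h
      omega
  set U := insert ((1 : ℤ), (0 : ℤ)) (MET_T p) with hU
  have hcardT : (MET_T p).card = p := by
    unfold MET_T
    rw [Finset.card_insert_of_notMem, Finset.card_image_of_injective]
    · simp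
      have := hp.one_lt
      omega
    · intro a b hab
      simpa using hab
    · simp
  have hcardU : U.card = p + 1 := by
    rw [hU, Finset.card_insert_of_notMem h0T, hcardT]
  -- bad points of the first kind
  have hB1 : (U.filter (fun P => f P < e)).card ≤ e := by
    have h1 : U.filter (fun P => f P < e) = (MET_T p).filter (fun P => f P < e) := by
      ext P
      simp only [hU, Finset.mem_filter, Finset.mem_insert]
      constructor
      · rintro ⟨h | h, h2⟩
        · subst h; omega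
        · exact ⟨h, h2⟩
      · rintro ⟨h, h2⟩
        exact ⟨Or.inr h, h2⟩
    rw [h1, Finset.card_eq_sum_ones]
    calc ∑ P ∈ (MET_T p).filter (fun P => f P < e), 1
        ≤ ∑ P ∈ (MET_T p).filter (fun P => f P < e), (e - f P) := by
          apply Finset.sum_le_sum
          intro P hP
          have := (Finset.mem_filter.mp hP).2
          omega
      _ ≤ ∑ P ∈ MET_T p, (e - f P) :=
          Finset.sum_le_sum_of_subset (Finset.filter_subset _ _)
      _ ≤ e := hsum
  -- bad points of the second kind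
  have hB2 : ∀ g ∈ S, (U.filter (fun P => u g ^ P.1 * v g ^ P.2 = 1)).card ≤ 1 := by
    intro g hg
    rw [Finset.card_le_one]
    intro P hP Q hQ
    obtain ⟨hPU, hP1⟩ := Finset.mem_filter.mp hP
    obtain ⟨hQU, hQ1⟩ := Finset.mem_filter.mp hQ
    by_contra hne
    have hdet : ¬ (p : ℤ) ∣ P.1 * Q.2 - P.2 * Q.1 := by
      rw [hU, Finset.mem_insert] at hPU hQU
      have hp2 : (2 : ℤ) ≤ p := by exact_mod_cast hp.two_le
      have haux : ∀ R ∈ MET_T p, ¬ (p : ℤ) ∣ R.2 := by
        intro R hR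
        simp only [MET_T, Finset.mem_insert, Finset.mem_image, Finset.mem_Ico] at hR
        rcases hR with rfl | ⟨t, ht, rfl⟩
        · intro h
          have := Int.le_of_dvd (by norm_num) h
          simp at this
          linarith
        · intro h
          have h' : (p : ℤ) ∣ (t : ℤ) := h
          have h2 : p ∣ t := by exact_mod_cast h'
          have := Nat.le_of_dvd (by omega) h2
          omega
      rcases hPU with rfl | hPU <;> rcases hQU with rfl | hQU
      · exact absurd rfl hne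
      · simpa using haux Q hQU
      · simpa using haux P hPU
      · exact MET_T_indep hp P hPU Q hQU hne
    exact hv1 g hg (LIN_two hp (u g) (v g) 1 (by simpa using hu g hg) (by simpa using hv g hg)
      P Q hdet hP1 hQ1).2
  have hcover : U ⊆ U.filter (fun P => f P < e) ∪
      S.biUnion (fun g => U.filter (fun P => u g ^ P.1 * v g ^ P.2 = 1)) := by
    intro P hP
    rw [Finset.mem_union]
    by_cases hf : f P = e
    · right
      obtain ⟨g, hg, hg1⟩ := hcon P hf
      exact Finset.mem_biUnion.mpr ⟨g, hg, Finset.mem_filter.mpr ⟨hP, hg1⟩⟩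
    · left
      exact Finset.mem_filter.mpr ⟨hP, lt_of_le_of_ne (hle P) hf⟩
  have h1 := Finset.card_le_card hcover
  have h2 := Finset.card_union_le (U.filter (fun P => f P < e))
      (S.biUnion (fun g => U.filter (fun P => u g ^ P.1 * v g ^ P.2 = 1)))
  have h3 : (S.biUnion (fun g => U.filter (fun P => u g ^ P.1 * v g ^ P.2 = 1))).card ≤
      S.card := by
    calc _ ≤ ∑ g ∈ S, (U.filter (fun P => u g ^ P.1 * v g ^ P.2 = 1)).card :=
          Finset.card_biUnion_le
      _ ≤ ∑ g ∈ S, 1 := Finset.sum_le_sum hB2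
      _ = S.card := by simp
  omega

theorem MET_comm {G : Type} [Group G] (hmet : ∀ x y z w : G, ⁅⁅x, y⁆, ⁅z, w⁆⁆ = 1) :
    ∀ x ∈ commutator G ⊔ Subgroup.center G, ∀ y ∈ commutator G ⊔ Subgroup.center G,
      x * y = y * x := by
  have hcl : commutator G = Subgroup.closure {g | ∃ x y : G, ⁅x, y⁆ = g} := by
    rw [commutator_eq_closure]; rfl
  have h1 : ∀ x y : G, commutator G ⊔ Subgroup.center G ≤ Subgroup.centralizer {⁅x, y⁆} := by
    intro x y
    refine sup_le ?_ (Subgroup.center_le_centralizer _)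
    rw [hcl, Subgroup.closure_le]
    rintro g ⟨z, w, rfl⟩
    rw [SetLike.mem_coe, Subgroup.mem_centralizer_iff]
    intro h hh
    rw [Set.mem_singleton_iff] at hh
    subst hh
    exact (commutatorElement_eq_one_iff_mul_comm).mp (hmet x y z w)
  have h2 : commutator G ⊔ Subgroup.center G ≤
      Subgroup.centralizer ((commutator G ⊔ Subgroup.center G : Subgroup G) : Set G) := by
    refine sup_le ?_ (Subgroup.center_le_centralizer _)
    conv_lhs => rw [hcl]
    rw [Subgroup.closure_le]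
    rintro g ⟨z, w, rfl⟩
    rw [SetLike.mem_coe, Subgroup.mem_centralizer_iff]
    intro h hh
    have := h1 z w hh
    rw [Subgroup.mem_centralizer_iff] at this
    exact (this _ rfl).symm
  intro x hx y hy
  have := h2 hx
  rw [Subgroup.mem_centralizer_iff] at this
  exact (this y hy).symm

theorem MET (p : ℕ) (hp : p.Prime) (G : Type) [Group G] [Finite G] (hG : IsPGroup p G)
    (hmet : ∀ x y z w : G, ⁅⁅x, y⁆, ⁅z, w⁆⁆ = 1) (e : ℕ)
    (hex : ∃ ρ : G →* Matrix.GeneralLinearGroup (Fin (p ^ e)) ℂ, Irred ρ)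
    (hmax : ∀ n : ℕ, 0 < n → ∀ ρ : G →* Matrix.GeneralLinearGroup (Fin n) ℂ, Irred ρ → n ≤ p ^ e)
    (S : Finset G) (hS : ∀ g ∈ S, g ≠ 1) (hcard : S.card + e ≤ p) :
    ∃ ρ : G →* Matrix.GeneralLinearGroup (Fin (p ^ e)) ℂ, Irred ρ ∧ ∀ g ∈ S, ρ g ≠ 1 := by
  classical
  have : Fact p.Prime := ⟨hp⟩
  rcases S.eq_empty_or_nonempty with hSe | hSne
  · subst hSe
    obtain ⟨ρ, hρ⟩ := hex
    exact ⟨ρ, hρ, by simp⟩
  obtain ⟨χ, hχ⟩ := hex
  set C : Subgroup G := commutator G ⊔ Subgroup.center G with hCdef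
  have hC : ∀ x y : G, ⁅x, y⁆ ∈ C := fun x y =>
    Subgroup.mem_sup_left (Subgroup.commutator_mem_commutator (Subgroup.mem_top x)
      (Subgroup.mem_top y))
  have hCc := MET_comm hmet
  have : NeZero (p ^ e) := ⟨(pow_pos hp.pos e).ne'⟩
  have hntop : (⊤ : Submodule ℂ (Fin (p ^ e) → ℂ)) ≠ ⊥ := top_ne_bot
  obtain ⟨ρ, w, -, hw, hwρ⟩ := CE χ C ⊤ hntop (fun _ _ _ _ => Submodule.mem_top)
    (by
      intro x hx y hy w _
      rw [Matrix.mulVec_mulVec, Matrix.mulVec_mulVec]
      have h1 : (χ x).1 * (χ y).1 = (χ (x * y)).1 := by rw [map_mul]; rfl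
      have h2 : (χ y).1 * (χ x).1 = (χ (y * x)).1 := by rw [map_mul]; rfl
      rw [h1, h2, hCc x hx y hy])
  have hle : ∀ ν : C →* ℂˣ, mn p (isoQ C hC ν) ⊤ ≤ e := by
    intro ν
    obtain ⟨σ, hσ, _⟩ := REP1 hG C hC ν
    exact (Nat.pow_le_pow_iff_right hp.one_lt).mp (hmax _ (pow_pos hp.pos _) σ hσ)
  have he0 : mn p (isoQ C hC ρ) ⊤ = e := by
    apply le_antisymm (hle ρ)
    exact (Nat.pow_le_pow_iff_right hp.one_lt).mp (REP2 hG C hC ρ χ hχ w hw hwρ)
  have hz : ∀ g ∈ S, ∃ z : C, z ≠ 1 ∧ z ^ p = 1 ∧ (z : G) ∈ Subgroup.normalClosure {g} := by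
    intro g hg
    obtain ⟨z, hz1, hzp, hzc, hzn⟩ := CENT hG g (hS g hg)
    have hzC : z ∈ C := Subgroup.mem_sup_right (Subgroup.mem_center_iff.mpr hzc)
    refine ⟨⟨z, hzC⟩, ?_, ?_, hzn⟩
    · intro h
      exact hz1 (congrArg Subtype.val h)
    · apply Subtype.ext
      simpa using hzp
  choose! z hz1 hzp hzn using hz
  obtain ⟨μ, hμ⟩ := SEP (C := C) (hG.to_subgroup C)
    (fun x y => Subtype.ext (hCc x x.2 y y.2)) (S.image z)
    (by
      intro c hc
      obtain ⟨g, hg, rfl⟩ := Finset.mem_image.mp hc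
      exact hz1 g hg)
    (le_trans Finset.card_image_le (by omega))
  have hindep := MET_T_indep hp
  have hsum : ∑ P ∈ MET_T p, (e - mn p (isoQ C hC (ρ ^ P.1 * μ ^ P.2)) ⊤) ≤ e := by
    by_cases hp2 : p = 2
    · have he1 : e ≤ 1 := by
        have := hSne.card_pos
        omega
      have := SMALL hG C hC ρ μ (MET_T p) hindep (by rw [he0]; exact he1)
      rwa [he0] at this
    · have := GRP hG hp2 C hC ρ μ (MET_T p) hindep ⊤ le_top
      rwa [he0] at this
  obtain ⟨P, hP, hPg⟩ := MET_count hp S e hcard (fun g => ρ (z g)) (fun g => μ (z g))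
    (by intro g hg; rw [← map_pow, hzp g hg, map_one])
    (by intro g hg; rw [← map_pow, hzp g hg, map_one])
    (by intro g hg; exact hμ _ (Finset.mem_image_of_mem z hg))
    (fun P => mn p (isoQ C hC (ρ ^ P.1 * μ ^ P.2)) ⊤)
    (by
      have h10 : ρ ^ (1 : ℤ) * μ ^ (0 : ℤ) = ρ := by
        ext c
        have : (ρ ^ (1 : ℤ) * μ ^ (0 : ℤ)) c = ρ c ^ (1 : ℤ) * μ c ^ (0 : ℤ) := rfl
        rw [this, zpow_one, zpow_zero, mul_one]
      change mn p (isoQ C hC (ρ ^ (1 : ℤ) * μ ^ (0 : ℤ))) ⊤ = e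
      rw [h10]
      exact he0) (fun P => hle _) hsum
  have h1 := REP1 hG C hC (ρ ^ P.1 * μ ^ P.2)
  have hP' : mn p (isoQ C hC (ρ ^ P.1 * μ ^ P.2)) ⊤ = e := hP
  rw [hP'] at h1
  obtain ⟨σ, hσ, v, hv, hvc⟩ := h1
  refine ⟨σ, hσ, ?_⟩
  intro g hg hσg
  have h2 : (z g : G) ∈ σ.ker := by
    have h3 : Subgroup.normalClosure {g} ≤ σ.ker := by
      apply Subgroup.normalClosure_le_normal
      intro x hx
      rw [Set.mem_singleton_iff] at hx
      rw [hx]
      exact hσg
    exact h3 (hzn g hg)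
  have h4 := hvc (z g)
  have h5 : σ ((z g : C) : G) = 1 := h2
  rw [h5] at h4
  have h6 : Matrix.mulVec ((1 : Matrix.GeneralLinearGroup (Fin (p ^ e)) ℂ)).1 v = v := by
    rw [Units.val_one, Matrix.one_mulVec]
  rw [h6] at h4
  apply hPg g hg
  have h7 : ((ρ ^ P.1 * μ ^ P.2) (z g) : ℂˣ) = 1 := by
    apply Units.ext
    rw [Units.val_one]
    have h8 : (((ρ ^ P.1 * μ ^ P.2) (z g) : ℂˣ) : ℂ) • v = (1 : ℂ) • v := by rw [← h4, one_smul]
    exact smul_left_injective ℂ hv h8
  exact h7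

end Pool.Agent.Helper89.MD
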