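import Pool.Agent.Helper89.MD.Defs
import Pool.Agent.Helper89.MD.MET

set_option autoImplicit false

open scoped commutatorElement

namespace Pool.Agent.Helper89.MD

theorem FIN_comp {G Q : Type} [Group G] [Group Q] (π : G →* Q) (hπ : Function.Surjective π) {n : ℕ}
    (ρ : Q →* Matrix.GeneralLinearGroup (Fin n) ℂ) : Irred (ρ.comp π) ↔ Irred ρ := by
  constructor
  · intro h W hW
    exact h W (fun g v hv => hW (π g) v hv)
  · intro h W hW
    refine h W (fun q v hv => ?_)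
    obtain ⟨g, rfl⟩ := hπ q
    exact hW g v hv

theorem FIN (p : ℕ) (hp : p.Prime) (G : Type) [Group G] [Finite G] (hG : IsPGroup p G) (e : ℕ)
    (hex : ∃ ρ : G →* Matrix.GeneralLinearGroup (Fin (p ^ e)) ℂ, Irred ρ ∧
      ∀ g ∈ derivedSeries G 2, ρ g = 1)
    (hmax : ∀ n : ℕ, 0 < n → ∀ ρ : G →* Matrix.GeneralLinearGroup (Fin n) ℂ, Irred ρ → n ≤ p ^ e)
    (S : Finset G) (hS : ∀ g ∈ S, g ∉ derivedSeries G 2) (hcard : S.card + e ≤ p) :
    ∃ ρ : G →* Matrix.GeneralLinearGroup (Fin (p ^ e)) ℂ, Irred ρ ∧ ∀ g ∈ S, ρ g ≠ 1 := by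
  classical
  have hsur := QuotientGroup.mk'_surjective (derivedSeries G 2)
  obtain ⟨ρ, hρ, hρN⟩ := hex
  have hmet : ∀ x y z w : G ⧸ derivedSeries G 2, ⁅⁅x, y⁆, ⁅z, w⁆⁆ = 1 := by
    intro x y z w
    obtain ⟨x, rfl⟩ := hsur x
    obtain ⟨y, rfl⟩ := hsur y
    obtain ⟨z, rfl⟩ := hsur z
    obtain ⟨w, rfl⟩ := hsur w
    rw [← map_commutatorElement, ← map_commutatorElement, ← map_commutatorElement]
    rw [QuotientGroup.mk'_apply, QuotientGroup.eq_one_iff]
    rw [derivedSeries_succ, derivedSeries_one]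
    exact Subgroup.commutator_mem_commutator
      (Subgroup.commutator_mem_commutator (Subgroup.mem_top x) (Subgroup.mem_top y))
      (Subgroup.commutator_mem_commutator (Subgroup.mem_top z) (Subgroup.mem_top w))
  have hlift : (QuotientGroup.lift (derivedSeries G 2) ρ hρN).comp
      (QuotientGroup.mk' (derivedSeries G 2)) = ρ := by
    ext g
    rfl
  obtain ⟨σ, hσ, hσS⟩ := MET p hp (G ⧸ derivedSeries G 2) (hG.to_quotient _) hmet e
    ⟨QuotientGroup.lift (derivedSeries G 2) ρ hρN, by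
      rw [← FIN_comp _ hsur, hlift]
      exact hρ⟩
    (by
      intro n hn ρ' hρ'
      exact hmax n hn _ ((FIN_comp _ hsur ρ').mpr hρ'))
    (S.image (QuotientGroup.mk' (derivedSeries G 2)))
    (by
      intro q hq
      obtain ⟨g, hg, rfl⟩ := Finset.mem_image.mp hq
      rw [QuotientGroup.mk'_apply, Ne, QuotientGroup.eq_one_iff]
      exact hS g hg)
    (le_trans (Nat.add_le_add_right Finset.card_image_le _) hcard)
  refine ⟨σ.comp (QuotientGroup.mk' (derivedSeries G 2)), (FIN_comp _ hsur σ).mpr hσ, ?_⟩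
  intro g hg
  exact hσS _ (Finset.mem_image_of_mem _ hg)

end Pool.Agent.Helper89.MD
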